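import Pool.Agent.H697.RT.GreedyAlg

/-!
# Hereditary classes; bounded degrees
-/

namespace Pool.Agent.H697.RT

open Finset Pool.Agent.NPC Pool.Agent.H697.Exp Pool.Agent.H697.UG Pool.Agent.H697.Red
  Pool.Agent.H697.Forest Pool.Agent.H697.LF

/-- The class is closed under induced subgraphs. -/
def Hereditary (C : GraphClass) : Prop :=
  ∀ (V : Type) (G : SimpleGraph V) (S : Set V), C V G → C S (G.induce S)

theorem ncard_edge_le {V W : Type} [Finite W] {G : SimpleGraph V} {H : SimpleGraph W} (f : G →g H)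
    (hf : Function.Injective f) : G.edgeSet.ncard ≤ H.edgeSet.ncard := by
  rw [← Nat.card_coe_set_eq, ← Nat.card_coe_set_eq]
  exact Nat.card_le_card_of_injective _ (SimpleGraph.Hom.mapEdgeSet.injective f hf)

theorem ncard_induce_le {V : Type} [Finite V] (G : SimpleGraph V) (S : Set V) :
    (G.induce S).edgeSet.ncard ≤ G.edgeSet.ncard :=
  ncard_edge_le (SimpleGraph.Embedding.induce S).toHom Subtype.val_injective

theorem ncard_induce_univ {V : Type} [Finite V] (G : SimpleGraph V) :
    (G.induce (Set.univ : Set V)).edgeSet.ncard = G.edgeSet.ncard := by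
  refine le_antisymm (ncard_induce_le G _) ?_
  exact ncard_edge_le (SimpleGraph.induceUnivIso G).symm.toHom
    (SimpleGraph.induceUnivIso G).symm.injective

/-- The number of edges of an induced subgraph does not change if its isolated vertices are
deleted. -/
theorem exists_core {V : Type} [Finite V] (G : SimpleGraph V) (S : Set V) :
    ∃ S' ⊆ S, (∀ a : S', ∃ b, (G.induce S').Adj a b) ∧
      (G.induce S').edgeSet.ncard = (G.induce S).edgeSet.ncard := by
  set S' : Set V := {v | v ∈ S ∧ ∃ w ∈ S, G.Adj v w} with hS'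
  refine ⟨S', fun v hv => hv.1, ?_, ?_⟩
  · rintro ⟨v, hv, w, hw, hvw⟩
    exact ⟨⟨w, hw, v, hv, hvw.symm⟩, hvw⟩
  · refine le_antisymm ?_ ?_
    · let f : G.induce S' →g G.induce S :=
        { toFun := fun v => ⟨v.1, v.2.1⟩
          map_rel' := fun h => h }
      exact ncard_edge_le f fun a b h => Subtype.ext (congrArg (fun x : S => x.1) h)
    · rw [← Nat.card_coe_set_eq, ← Nat.card_coe_set_eq]
      have hmem : ∀ x : Sym2 S, x ∈ (G.induce S).edgeSet → ∀ a ∈ x, (a : V) ∈ S' := by
        intro x hx a ha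
        induction x using Sym2.ind with
        | _ u v =>
          have huv : G.Adj u.1 v.1 := hx
          rw [Sym2.mem_iff] at ha
          rcases ha with rfl | rfl
          · exact ⟨a.2, v.1, v.2, huv⟩
          · exact ⟨a.2, u.1, u.2, huv.symm⟩
      let f : G.induce S' →g G.induce S :=
        { toFun := fun v => ⟨v.1, v.2.1⟩
          map_rel' := fun h => h }
      refine Nat.card_le_card_of_surjective f.mapEdgeSet ?_
      rintro ⟨x, hx⟩
      have h1 := hmem x hx
      induction x using Sym2.ind with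
      | _ u v =>
        have huv : G.Adj u.1 v.1 := hx
        refine ⟨⟨s(⟨u.1, h1 u (by simp)⟩, ⟨v.1, h1 v (by simp)⟩), huv⟩, ?_⟩
        apply Subtype.ext
        rfl

/-- The threshold of a hereditary class depends only on the densities of its members. -/
theorem thrC_iff {C : GraphClass} (hC : Hereditary C) {t : ℝ} (ht : t ≤ 1) :
    ThrC t C ↔ ∀ (V : Type) [Finite V] (G : SimpleGraph V), C V G →
      t * G.edgeSet.ncard ≤ Nat.card V := by
  constructor
  · intro h V _ G hG
    obtain ⟨S', _, h1, h2⟩ := exists_core G Set.univ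
    have h3 := h S' (G.induce S') h1 (hC V G S' hG) Set.univ
    rw [ncard_induce_univ, h2, ncard_induce_univ] at h3
    have h4 : (Set.univ : Set S').ncard ≤ Nat.card V := by
      rw [Set.ncard_univ]
      exact Nat.card_le_card_of_injective (Subtype.val : S' → V) Subtype.val_injective
    have h5 : (((Set.univ : Set S').ncard : ℕ) : ℝ) ≤ Nat.card V := by exact_mod_cast h4
    linarith
  · intro h V _ G _ hCG S
    obtain ⟨S', hS', h1, h2⟩ := exists_core G S
    have h3 := h S' (G.induce S') (hC V G S' hCG)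
    rw [h2] at h3
    have h4 : Nat.card S' ≤ S.ncard := by
      rw [Nat.card_coe_set_eq]
      exact Set.ncard_le_ncard hS' (Set.toFinite _)
    have h5 : ((Nat.card S' : ℕ) : ℝ) ≤ S.ncard := by exact_mod_cast h4
    have h6 : (((G.induce S).edgeSet.ncard : ℕ) : ℝ) ≤ G.edgeSet.ncard := by
      exact_mod_cast ncard_induce_le G S
    have h7 : (1 - t) * (G.induce S).edgeSet.ncard ≤ (1 - t) * G.edgeSet.ncard :=
      mul_le_mul_of_nonneg_left h6 (by linarith)
    linarith

/-! ### Bounded degrees -/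

/-- The graphs with all degrees at most `d` in which all cycles are longer than `g`. -/
def Deg (d g : ℕ) : GraphClass := fun _ G => (∀ v, (G.neighborSet v).encard ≤ d) ∧ GirthGT G g

theorem liftStable_Deg (d g : ℕ) : LiftStable (Deg d g) := by
  rintro V _ G ⟨h1, _⟩
  refine ⟨g, fun W _ H n _ hl hg => ⟨fun w => ?_, hg⟩⟩
  obtain ⟨φ, hφ, _⟩ := hl
  have h2 := (hφ w).image_eq
  rw [← (hφ w).injOn.encard_image, h2]
  exact h1 _

theorem twice_edges_le {V : Type} [Finite V] (G : SimpleGraph V) {d : ℕ}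
    (h : ∀ v, (G.neighborSet v).encard ≤ d) : 2 * G.edgeSet.ncard ≤ d * Nat.card V := by
  classical
  have := Fintype.ofFinite V
  have h1 := G.sum_degrees_eq_twice_card_edges
  rw [Set.ncard_eq_toFinset_card', ← SimpleGraph.edgeFinset, ← h1, Nat.card_eq_fintype_card]
  calc ∑ v, G.degree v ≤ ∑ _v : V, d := by
        refine sum_le_sum fun v _ => ?_
        have h2 := h v
        rw [Set.encard_eq_coe_toFinset_card, Nat.cast_le] at h2
        exact h2
    _ = _ := by rw [sum_const, card_univ, smul_eq_mul, mul_comm]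

theorem encard_induce_le {V : Type} (G : SimpleGraph V) (S : Set V) (v : S) :
    ((G.induce S).neighborSet v).encard ≤ (G.neighborSet v.1).encard := by
  rw [← Subtype.val_injective.injOn.encard_image (s := (G.induce S).neighborSet v)]
  refine Set.encard_le_encard ?_
  rintro _ ⟨w, hw, rfl⟩
  exact hw

theorem thrC_Deg {d : ℕ} (hd : 2 ≤ d) (g : ℕ) {t : ℝ} (ht : t ≤ 2 / d) : ThrC t (Deg d g) := by
  rintro V _ G _ ⟨h1, _⟩ S
  have hdr : (2 : ℝ) ≤ d := by exact_mod_cast hd
  have h2 := twice_edges_le (G.induce S) (d := d) fun v => (encard_induce_le G S v).trans (h1 v)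
  rw [Nat.card_coe_set_eq] at h2
  have h3 : (2 : ℝ) * (G.induce S).edgeSet.ncard ≤ d * S.ncard := by exact_mod_cast h2
  have h6 : (((G.induce S).edgeSet.ncard : ℕ) : ℝ) ≤ G.edgeSet.ncard := by
    exact_mod_cast ncard_induce_le G S
  have ht1 : t ≤ 1 := ht.trans (by rw [div_le_one (by linarith)]; exact hdr)
  have h7 : (1 - t) * (G.induce S).edgeSet.ncard ≤ (1 - t) * G.edgeSet.ncard :=
    mul_le_mul_of_nonneg_left h6 (by linarith)
  have h8 : t * (G.induce S).edgeSet.ncard ≤ S.ncard := by
    have h9 : (0 : ℝ) ≤ (G.induce S).edgeSet.ncard := by positivity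
    calc t * (G.induce S).edgeSet.ncard ≤ 2 / d * (G.induce S).edgeSet.ncard := by gcongr
      _ = (2 * (G.induce S).edgeSet.ncard) / d := by ring
      _ ≤ (d * S.ncard) / d := by gcongr
      _ = S.ncard := by field_simp
  linarith

theorem not_thrC_Deg {d : ℕ} (hd : 2 ≤ d) (g : ℕ) {t : ℝ} (ht : 2 / d < t) :
    ¬ ThrC t (Deg d g) := by
  classical
  intro h
  have hdr : (2 : ℝ) ≤ d := by exact_mod_cast hd
  obtain ⟨W, hW, H, n, hn, h1, h2⟩ := exists_lift_girth (⊤ : SimpleGraph (Fin (d + 1))) g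
  have hnb : ∀ v : Fin (d + 1), ((⊤ : SimpleGraph (Fin (d + 1))).neighborSet v).encard ≤ d := by
    intro v
    rw [Set.encard_eq_coe_toFinset_card, Nat.cast_le]
    have h3 := (⊤ : SimpleGraph (Fin (d + 1))).degree_lt_card_verts v
    rw [Fintype.card_fin] at h3
    exact Nat.lt_succ_iff.1 h3
  have hadj : ∀ a : Fin (d + 1), ∃ b, (⊤ : SimpleGraph (Fin (d + 1))).Adj a b := by
    intro a
    by_cases ha : a = 0
    · exact ⟨Fin.last d, by
        rw [SimpleGraph.top_adj, ha]
        intro h0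
        have := congrArg Fin.val h0
        simp at this
        omega⟩
    · exact ⟨0, by rw [SimpleGraph.top_adj]; exact ha⟩
  have hmem : Deg d g W H := by
    refine ⟨fun w => ?_, h2⟩
    obtain ⟨φ, hφ, _⟩ := h1
    rw [← (hφ w).injOn.encard_image, (hφ w).image_eq]
    exact hnb _
  have h3 := h W H (h1.exists_adj hadj) hmem Set.univ
  rw [ncard_induce_univ, Set.ncard_univ, h1.card_edges, h1.card_vertices, Nat.card_fin] at h3
  have h4 : 2 * (⊤ : SimpleGraph (Fin (d + 1))).edgeSet.ncard = (d + 1) * d := by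
    rw [Set.ncard_eq_toFinset_card', ← SimpleGraph.edgeFinset,
      ← (⊤ : SimpleGraph (Fin (d + 1))).sum_degrees_eq_twice_card_edges]
    simp
  have h5 : (2 : ℝ) * (⊤ : SimpleGraph (Fin (d + 1))).edgeSet.ncard = (d + 1) * d := by
    exact_mod_cast h4
  have hnr : (0 : ℝ) < n := by exact_mod_cast hn
  push_cast at h3
  have h6 : t * ((n : ℝ) * (⊤ : SimpleGraph (Fin (d + 1))).edgeSet.ncard) ≤ n * (d + 1) := by
    linarith
  have h7 : (2 : ℝ) < t * d := by rwa [div_lt_iff₀ (by linarith)] at ht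
  have h8 : (n : ℝ) * (d + 1) * 2 < (n : ℝ) * (d + 1) * (t * d) :=
    mul_lt_mul_of_pos_left h7 (by positivity)
  have h9 : t * ((n : ℝ) * ((d + 1) * d)) ≤ (n : ℝ) * (d + 1) * 2 := by
    rw [← h5]
    linarith
  have h10 : (n : ℝ) * (d + 1) * (t * d) = t * ((n : ℝ) * ((d + 1) * d)) := by ring
  linarith

/-- The conjecture and bounded degrees. -/
theorem rugc_iff (g : ℕ) : RUGC (fun _ => True) ↔ ∀ d : ℕ, 2 ≤ d → ∀ t ε : ℝ, 2 / d < t → 0 < ε →
    ∃ q : ℕ, 0 < q ∧ RHard (On (Deg d g)) (Yes q ε) (No q t) := by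
  constructor
  · intro h d hd t ε ht hε
    exact rhard_of_RUGC (liftStable_Deg d g) (not_thrC_Deg hd g ht) h hε
  · intro h ε δ hε hδ _
    obtain ⟨n, hn⟩ := exists_nat_gt (2 / δ)
    have hn2 : (2 : ℝ) / ((n + 2 : ℕ) : ℝ) < δ := by
      rw [div_lt_iff₀ hδ] at hn
      rw [div_lt_iff₀ (by positivity)]
      push_cast
      nlinarith
    obtain ⟨q, hq, h1⟩ := h (n + 2) (by omega) δ ε hn2 hε
    exact ⟨q, hq, h1.mono (fun _ _ => trivial) (fun _ h => h) fun _ h => h⟩

end Pool.Agent.H697.RT
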