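import Pool.Agent.H697.RT.Perf2
import Pool.Agent.H697.RT.Deg
import Pool.Agent.H697.LF.LCLift

/-!
# Random lifts of projection games; perfect completeness
-/

namespace Pool.Agent.H697.RT

open Finset Pool.Agent.NPC Pool.Agent.H697.Exp Pool.Agent.H697.Red
  Pool.Agent.H697.Forest Pool.Agent.H697.LF
open Pool.Agent.H697.UG (Game Edge Simple cgraph)

theorem card_getElem_le (l : List ℕ) (q y : ℕ) :
    (univ.filter fun x : Fin q => l[(x : ℕ)]? = some y).card ≤ l.count y := by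
  have h1 : l.count y = (l.zipIdx.filter fun p => decide (p.1 = y)).length := by
    conv_lhs => rw [← List.zipIdx_map_fst 0 l]
    rw [List.count, List.countP_map, List.countP_eq_length_filter]
    congr 1
  rw [h1]
  refine le_trans ?_ (List.toFinset_card_le _)
  refine card_le_card_of_injOn (fun x : Fin q => (y, (x : ℕ))) ?_ ?_
  · intro x hx
    rw [mem_coe, mem_filter] at hx
    rw [mem_coe, List.mem_toFinset, List.mem_filter]
    refine ⟨?_, by simp⟩
    obtain ⟨h2, h3⟩ := List.getElem?_eq_some_iff.1 hx.2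
    rw [List.mem_iff_getElem]
    refine ⟨x, by simpa using h2, ?_⟩
    simp [h3]
  · intro x _ x' _ h
    exact Fin.ext (Prod.mk.inj h).2

theorem fib_LC {d q₁ q₂ : ℕ} {I : Game} (hI : LC.IsGame d q₁ q₂ I) (q : ℕ) : Fib q d I := by
  intro e he y
  refine le_trans ?_ ((hI.2 e he).2.2 y)
  exact card_getElem_le _ _ _

/-- Hardness for the lifts of a graph. -/
theorem rhard_LC {V0 : Type} [Finite V0] (G0 : SimpleGraph V0) (hG0 : ∀ a, ∃ b, G0.Adj a b)
    {t : ℝ} (ht : ¬ Thr t G0) {d : ℕ} (hd : 0 < d) : ∃ δ : ℝ, 0 < δ ∧ ∀ (q₁ q₂ g : ℕ), 0 < q₁ →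
      0 < q₂ → RHard (fun _ => True) (LC.Yes d q₁ q₂ 0) (LC.No d q₁ q₂ δ) →
        RHard (OnLifts g G0) (LC.Yes d q₁ q₂ 0) (LC.No d q₁ q₂ t) := by
  obtain ⟨δ, hδ, hF⟩ := exists_random G0 hG0 ht hd
  refine ⟨δ, hδ, fun q₁ q₂ g hq₁ hq₂ hhard => hhard.of_random fun c => ?_⟩
  have hq : 0 < max q₁ q₂ := lt_max_of_lt_left hq₁
  obtain ⟨F, M, P, hFpoly, hM, hFI⟩ := hF (max q₁ q₂) 1 g c hq one_pos
  have hgame : ∀ I, LC.IsGame d q₁ q₂ I → ∀ m, M I ≤ m → ∀ rr : Fin m → Bool,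
      LC.IsGame d q₁ q₂ (F I (List.ofFn rr)) := by
    rintro I ⟨hne, hI⟩ m hm rr
    obtain ⟨h2, _, h5, _⟩ := (hFI I hne m hm).1 rr
    refine ⟨h2, fun e he => ?_⟩
    obtain ⟨e', he', heq⟩ := h5 e he
    rw [heq]
    exact hI e' he'
  refine ⟨F, M, P, hFpoly, hM, ?_, ?_⟩
  · rintro I - ⟨hG, L, M', hLM⟩ m hm rr
    obtain ⟨_, h1, _, h6⟩ := (hFI I hG.1 m hm).1 rr
    have hall : ∀ e ∈ I, LC.Sat L M' e := by
      have h1 : LC.numSat I L M' = I.length := by
        have h2 : (I.length : ℝ) ≤ LC.numSat I L M' := by linarith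
        have h3 : I.length ≤ LC.numSat I L M' := by exact_mod_cast h2
        have h4 : LC.numSat I L M' ≤ I.length := List.length_filter_le _ _
        omega
      intro e he
      unfold LC.numSat at h1
      rw [List.length_filter_eq_length_iff] at h1
      exact of_decide_eq_true (h1 e he)
    have h9 : UG.numSat I (fun u => Fin.castLE (le_max_left q₁ q₂) (L u))
        (fun v => Fin.castLE (le_max_right q₁ q₂) (M' v)) = LC.numSat I L M' := rfl
    obtain ⟨L2, M2, _, h10⟩ := h6 (fun u => Fin.castLE (le_max_left q₁ q₂) (L u))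
      (fun v => Fin.castLE (le_max_right q₁ q₂) (M' v)) (by
        intro e he
        obtain ⟨y, hy⟩ := total_table hG he (L e.1.1)
        exact ⟨Fin.castLE (le_max_right q₁ q₂) y, hy⟩)
    have h11 := h10 fun e he => ⟨Fin.castLE (le_max_left q₁ q₂) (L e.1.1), hall e he⟩
    rw [h9] at h11
    obtain ⟨L3, M3, h12⟩ := LC.down hq₁ hq₂ (hgame I hG m hm rr) L2 M2
    refine ⟨h1, hgame I hG m hm rr, L3, M3, ?_⟩
    have h13 : (0 : ℝ) < I.length := by exact_mod_cast List.length_pos_iff.2 hG.1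
    have h14 : (LC.numSat I L M' : ℝ) * (F I (List.ofFn rr)).length ≤
        UG.numSat (F I (List.ofFn rr)) L2 M2 * I.length := by
      exact_mod_cast h11
    have h15 : (0 : ℝ) ≤ (F I (List.ofFn rr)).length := by positivity
    have h16 : ((1 : ℝ) - 0) * (F I (List.ofFn rr)).length * I.length ≤
        UG.numSat (F I (List.ofFn rr)) L2 M2 * I.length := by
      calc ((1 : ℝ) - 0) * ((F I (List.ofFn rr)).length : ℝ) * I.length =
            (1 - 0) * I.length * (F I (List.ofFn rr)).length := by ring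
        _ ≤ LC.numSat I L M' * (F I (List.ofFn rr)).length := mul_le_mul_of_nonneg_right hLM h15
        _ ≤ _ := h14
    have h17 := le_of_mul_le_mul_right h16 h13
    have h18 : (UG.numSat (F I (List.ofFn rr)) L2 M2 : ℝ) ≤
        LC.numSat (F I (List.ofFn rr)) L3 M3 := by exact_mod_cast h12
    exact h17.trans h18
  · rintro I - ⟨hG, hno⟩ m hm
    have h1 := (hFI I hG.1 m hm).2 (fib_LC hG _) (fun L2 M2 => by
      obtain ⟨L3, M3, h11⟩ := LC.down hq₁ hq₂ hG L2 M2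
      have h17 : (UG.numSat I L2 M2 : ℝ) ≤ LC.numSat I L3 M3 := by exact_mod_cast h11
      exact h17.trans (hno L3 M3))
    refine le_trans (Nat.mul_le_mul_left _ ?_) h1
    refine Nat.card_le_card_of_injective (fun r => ⟨r.1, ?_⟩) ?_
    · by_contra hcon
      push Not at hcon
      refine r.2 ⟨((hFI I hG.1 m hm).1 r.1).2.1, hgame I hG m hm r.1, fun L M' => ?_⟩
      obtain ⟨L1, M1, h9⟩ := LC.up (le_max_left q₁ q₂) (le_max_right q₁ q₂)
        (F I (List.ofFn r.1)) L M'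
      rw [← h9]
      exact (hcon L1 M1).le
    · intro r r' hr
      exact Subtype.ext (congrArg (fun y => y.1) hr)

theorem rhard_class_LC {C : GraphClass} (hC : LiftStable C) {t : ℝ} (ht : ¬ ThrC t C) {d : ℕ}
    (hd : 0 < d) : ∃ δ : ℝ, 0 < δ ∧ ∀ (q₁ q₂ : ℕ), 0 < q₁ → 0 < q₂ →
      RHard (fun _ => True) (LC.Yes d q₁ q₂ 0) (LC.No d q₁ q₂ δ) →
        RHard (On C) (LC.Yes d q₁ q₂ 0) (LC.No d q₁ q₂ t) := by
  unfold ThrC at ht
  push Not at ht
  obtain ⟨V, hV, G, hG, hCG, hthr⟩ := ht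
  obtain ⟨δ, hδ, h⟩ := rhard_LC G hG hthr hd
  obtain ⟨g, hg⟩ := hC V G hCG
  refine ⟨δ, hδ, fun q₁ q₂ hq₁ hq₂ hhard =>
    (h q₁ q₂ g hq₁ hq₂ hhard).mono ?_ (fun _ h => h) fun _ h => h⟩
  rintro I ⟨hS, hgI, n, hn, hl⟩
  exact ⟨hS, hg _ _ n hn hl hgI⟩

/-- The condition is closed. -/
theorem exists_lt_thr {C : GraphClass} {t : ℝ} (ht : ¬ ThrC t C) : ∃ t' < t, ¬ ThrC t' C := by
  unfold ThrC at ht
  push Not at ht
  obtain ⟨V, hV, G, hG, hCG, hthr⟩ := ht
  unfold Thr at hthr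
  push Not at hthr
  obtain ⟨S, hS⟩ := hthr
  set gap : ℝ := (G.induce S).edgeSet.ncard - (S.ncard + (1 - t) * G.edgeSet.ncard) with hgap
  have hgap0 : 0 < gap := by linarith
  have hE : (0 : ℝ) ≤ G.edgeSet.ncard := by positivity
  have hpos : 0 < gap / (2 * ((G.edgeSet.ncard : ℝ) + 1)) := by positivity
  refine ⟨t - gap / (2 * ((G.edgeSet.ncard : ℝ) + 1)), by linarith, fun h => ?_⟩
  have h1 := h V G hG hCG S
  have h2 : gap / (2 * ((G.edgeSet.ncard : ℝ) + 1)) * G.edgeSet.ncard < gap := by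
    rw [div_mul_eq_mul_div, div_lt_iff₀ (by positivity)]
    nlinarith
  have h3 : (1 - (t - gap / (2 * ((G.edgeSet.ncard : ℝ) + 1)))) * (G.edgeSet.ncard : ℝ) =
      (1 - t) * G.edgeSet.ncard + gap / (2 * ((G.edgeSet.ncard : ℝ) + 1)) * G.edgeSet.ncard := by
    ring
  rw [h3] at h1
  linarith

end Pool.Agent.H697.RT
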