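import Pool.Agent.H697.RT.Perf1

/-!
# Arc consistency
-/

namespace Pool.Agent.H697.RT

open Finset Pool.Agent.NPC Pool.Agent.H697.Exp Pool.Agent.H697.UG Pool.Agent.H697.Red
  Pool.Agent.H697.Forest Pool.Agent.H697.LF

/-- All pairs of a vertex and a label. -/
def apairs (q : ℕ) (I : Game) : List (ℕ × ℕ) :=
  (keys I).flatMap fun w => (List.range q).map fun x => (w, x)

/-- The label of the vertex has a partner, for every edge at the vertex, which has not been deleted
yet. -/
def supp (q : ℕ) (I : Game) (R : List (ℕ × ℕ)) (p : ℕ × ℕ) : Bool :=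
  I.all fun e =>
    (!(decide (va e = p.1)) || (List.range q).any fun y =>
      !(decide ((vb e, y) ∈ R)) && decide (e.2[p.2]? = some y)) &&
    (!(decide (vb e = p.1)) || (List.range q).any fun x =>
      !(decide ((va e, x) ∈ R)) && decide (e.2[x]? = some p.2))

/-- One round of deletions. -/
def acs (q : ℕ) (I : Game) (R : List (ℕ × ℕ)) : List (ℕ × ℕ) :=
  (apairs q I).filter fun p => decide (p ∈ R) || !(supp q I R p)

/-- The deleted pairs. -/
def ac (q : ℕ) (I : Game) : List (ℕ × ℕ) := (acs q I)^[(apairs q I).length + 1] []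

section
variable {α : Type} [TEnc α]

theorem poly_apairs (q : ℕ) : Poly (apairs q) := by
  unfold apairs
  refine Poly.flatMap (F := fun (_ : Game) (w : ℕ) => (List.range q).map fun x => (w, x))
    poly_keys ?_
  refine NPC.Poly.map (F := fun (p : Game × ℕ) (x : ℕ) => (p.2, x)) (NPC.Poly.const _) ?_
  exact Poly.pair (Poly.snd (Poly.fst Poly.id)) (Poly.snd Poly.id)

theorem poly_pmem {f : α → ℕ × ℕ} {R : α → List (ℕ × ℕ)} (hf : Poly f) (hR : Poly R) :
    Poly (fun a => decide (f a ∈ R a)) :=
  (Poly.decide_mem hf hR).congr fun _ => decide_eq_decide.2 Iff.rfl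

theorem poly_supp (q : ℕ) {I : α → Game} {R : α → List (ℕ × ℕ)} {p : α → ℕ × ℕ} (hI : Poly I)
    (hR : Poly R) (hp : Poly p) : Poly (fun a => supp q (I a) (R a) (p a)) := by
  unfold supp
  refine Poly.all (p := fun a (e : Edge) =>
    (!(decide (va e = (p a).1)) || (List.range q).any fun y =>
      !(decide ((vb e, y) ∈ R a)) && decide (e.2[(p a).2]? = some y)) &&
    (!(decide (vb e = (p a).1)) || (List.range q).any fun x =>
      !(decide ((va e, x) ∈ R a)) && decide (e.2[x]? = some (p a).2))) hI ?_
  have h1 : Poly (fun z : α × Edge => z.2) := Poly.snd Poly.id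
  have h2 : Poly (fun z : α × Edge => p z.1) := hp.comp (Poly.fst Poly.id)
  refine Poly.and (Poly.or (Poly.not (Poly.decide_eq (poly_va.comp h1) (Poly.fst h2))) ?_)
    (Poly.or (Poly.not (Poly.decide_eq (poly_vb.comp h1) (Poly.fst h2))) ?_)
  · refine Poly.any (p := fun (z : α × Edge) (y : ℕ) =>
      !(decide ((vb z.2, y) ∈ R z.1)) && decide (z.2.2[(p z.1).2]? = some y))
      (NPC.Poly.const _) ?_
    have h3 : Poly (fun z : (α × Edge) × ℕ => z.1.1) := Poly.fst (Poly.fst Poly.id)
    have h4 : Poly (fun z : (α × Edge) × ℕ => z.1.2) := Poly.snd (Poly.fst Poly.id)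
    have h5 : Poly (fun z : (α × Edge) × ℕ => z.2) := Poly.snd Poly.id
    exact Poly.and (Poly.not (poly_pmem (Poly.pair (poly_vb.comp h4) h5) (hR.comp h3)))
      (Poly.decide_eq (Poly.getElem? (Poly.snd h4) (Poly.snd (hp.comp h3))) (Poly.some h5))
  · refine Poly.any (p := fun (z : α × Edge) (x : ℕ) =>
      !(decide ((va z.2, x) ∈ R z.1)) && decide (z.2.2[x]? = some (p z.1).2))
      (NPC.Poly.const _) ?_
    have h3 : Poly (fun z : (α × Edge) × ℕ => z.1.1) := Poly.fst (Poly.fst Poly.id)
    have h4 : Poly (fun z : (α × Edge) × ℕ => z.1.2) := Poly.snd (Poly.fst Poly.id)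
    have h5 : Poly (fun z : (α × Edge) × ℕ => z.2) := Poly.snd Poly.id
    exact Poly.and (Poly.not (poly_pmem (Poly.pair (poly_va.comp h4) h5) (hR.comp h3)))
      (Poly.decide_eq (Poly.getElem? (Poly.snd h4) h5) (Poly.some (Poly.snd (hp.comp h3))))

theorem poly_acs (q : ℕ) {I : α → Game} {R : α → List (ℕ × ℕ)} (hI : Poly I) (hR : Poly R) :
    Poly (fun a => acs q (I a) (R a)) := by
  unfold acs
  refine Poly.filter (p := fun a (p : ℕ × ℕ) => decide (p ∈ R a) || !(supp q (I a) (R a) p))
    ((poly_apairs q).comp hI) ?_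
  exact Poly.or (poly_pmem (Poly.snd Poly.id) (hR.comp (Poly.fst Poly.id)))
    (Poly.not (poly_supp q (hI.comp (Poly.fst Poly.id)) (hR.comp (Poly.fst Poly.id))
      (Poly.snd Poly.id)))

end

theorem acs_sublist (q : ℕ) (I : Game) (R : List (ℕ × ℕ)) : (acs q I R).Sublist (apairs q I) :=
  List.filter_sublist

theorem iter_sublist (q : ℕ) (I : Game) (k : ℕ) : ((acs q I)^[k] []).Sublist (apairs q I) := by
  cases k with
  | zero => exact List.nil_sublist _
  | succ k =>
    rw [Function.iterate_succ_apply']
    exact acs_sublist q I _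

theorem poly_ac (q : ℕ) : Poly (ac q) := by
  obtain ⟨r, hr⟩ := (poly_apairs q).sz_le
  have h1 : Poly (fun I : Game => (acs q I)^[((0, 0) :: apairs q I).length] []) :=
    Poly.iterLen (l := fun I : Game => (0, 0) :: apairs q I) (s := fun _ : Game => [])
      (F := fun (I : Game) (R : List (ℕ × ℕ)) => acs q I R)
      (Poly.cons (NPC.Poly.const (0, 0)) (poly_apairs q)) (NPC.Poly.const [])
      (poly_acs q (Poly.fst Poly.id) (Poly.snd Poly.id)) r (fun I k _ =>
        (sz_sublist (iter_sublist q I k)).trans (hr I))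
  exact h1.congr fun I => by rw [List.length_cons]; rfl

theorem supp_mono {q : ℕ} {I : Game} {R R' : List (ℕ × ℕ)} (h : R ⊆ R') {p : ℕ × ℕ}
    (hp : supp q I R' p = true) : supp q I R p = true := by
  unfold supp at hp ⊢
  rw [List.all_eq_true] at hp ⊢
  intro e he
  have h1 := hp e he
  rw [Bool.and_eq_true, Bool.or_eq_true, Bool.or_eq_true] at h1 ⊢
  obtain ⟨h2, h3⟩ := h1
  refine ⟨h2.imp id fun h4 => ?_, h3.imp id fun h4 => ?_⟩
  · rw [List.any_eq_true] at h4 ⊢
    obtain ⟨y, hy, h5⟩ := h4
    refine ⟨y, hy, ?_⟩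
    rw [Bool.and_eq_true, Bool.not_eq_true', decide_eq_false_iff_not] at h5 ⊢
    exact ⟨fun h6 => h5.1 (h h6), h5.2⟩
  · rw [List.any_eq_true] at h4 ⊢
    obtain ⟨y, hy, h5⟩ := h4
    refine ⟨y, hy, ?_⟩
    rw [Bool.and_eq_true, Bool.not_eq_true', decide_eq_false_iff_not] at h5 ⊢
    exact ⟨fun h6 => h5.1 (h h6), h5.2⟩

theorem acs_mono {q : ℕ} {I : Game} {R R' : List (ℕ × ℕ)} (h : R ⊆ R') :
    (acs q I R).Sublist (acs q I R') := by
  unfold acs
  refine List.monotone_filter_right _ fun p hp => ?_
  rw [Bool.or_eq_true, decide_eq_true_eq, Bool.not_eq_true'] at hp ⊢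
  rcases hp with hp | hp
  · exact Or.inl (h hp)
  · right
    by_contra hcon
    rw [Bool.not_eq_false] at hcon
    rw [supp_mono h hcon] at hp
    exact absurd hp (by simp)

theorem iter_mono (q : ℕ) (I : Game) (k : ℕ) :
    ((acs q I)^[k] []).Sublist ((acs q I)^[k + 1] []) := by
  induction k with
  | zero => exact List.nil_sublist _
  | succ k ih =>
    rw [Function.iterate_succ_apply', Function.iterate_succ_apply' _ (k + 1)]
    exact acs_mono ih.subset

theorem ac_fix (q : ℕ) (I : Game) : acs q I (ac q I) = ac q I := by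
  have key : ∀ k, (∃ j ≤ k, (acs q I)^[j + 1] [] = (acs q I)^[j] []) ∨
      k ≤ ((acs q I)^[k] []).length := by
    intro k
    induction k with
    | zero => exact Or.inr (Nat.zero_le _)
    | succ k ih =>
      rcases ih with ⟨j, hj, h⟩ | h
      · exact Or.inl ⟨j, Nat.le_succ_of_le hj, h⟩
      · have h1 := iter_mono q I k
        by_cases h2 : ((acs q I)^[k] []).length = ((acs q I)^[k + 1] []).length
        · exact Or.inl ⟨k, Nat.le_succ k, (h1.eq_of_length h2).symm⟩
        · right
          have h3 := h1.length_le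
          omega
  rcases key ((apairs q I).length + 1) with ⟨j, hj, h⟩ | h
  · have h1 : ∀ m, (acs q I)^[j + m] [] = (acs q I)^[j] [] := by
      intro m
      induction m with
      | zero => rfl
      | succ m ih =>
        rw [← add_assoc, Function.iterate_succ_apply', ih, ← Function.iterate_succ_apply' (acs q I),
          h]
    obtain ⟨m, hm⟩ := Nat.exists_eq_add_of_le hj
    have h2 := h1 (m + 1)
    rw [← add_assoc, Function.iterate_succ_apply'] at h2
    unfold ac
    rw [hm, h2, h1]
  · have h1 := (iter_sublist q I ((apairs q I).length + 1)).length_le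
    omega

/-- The remaining labels. -/
def Dom (q : ℕ) (I : Game) (w : ℕ) (x : Fin q) : Prop := (w, (x : ℕ)) ∉ ac q I

theorem mem_apairs {q : ℕ} {I : Game} {w : ℕ} (hw : w ∈ keys I) (x : Fin q) :
    (w, (x : ℕ)) ∈ apairs q I := by
  unfold apairs
  rw [List.mem_flatMap]
  exact ⟨w, hw, List.mem_map.2 ⟨x, List.mem_range.2 x.2, rfl⟩⟩

theorem cons_Dom (q : ℕ) (I : Game) : Cons I (Dom q I) := by
  have hsupp : ∀ w ∈ keys I, ∀ x : Fin q, Dom q I w x → supp q I (ac q I) (w, (x : ℕ)) = true := by
    intro w hw x hx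
    by_contra hcon
    apply hx
    rw [← ac_fix]
    unfold acs
    rw [List.mem_filter]
    refine ⟨mem_apairs hw x, ?_⟩
    rw [Bool.or_eq_true, Bool.not_eq_true']
    exact Or.inr (by simpa using hcon)
  intro e he
  constructor
  · intro x hx
    have h1 := hsupp _ (mem_keys he).1 x hx
    unfold supp at h1
    rw [List.all_eq_true] at h1
    have h2 := h1 e he
    rw [Bool.and_eq_true, Bool.or_eq_true] at h2
    rcases h2.1 with h3 | h3
    · simp at h3
    · rw [List.any_eq_true] at h3
      obtain ⟨y, hy, h4⟩ := h3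
      rw [Bool.and_eq_true, Bool.not_eq_true', decide_eq_false_iff_not, decide_eq_true_eq] at h4
      exact ⟨⟨y, List.mem_range.1 hy⟩, h4.1, h4.2⟩
  · intro y hy
    have h1 := hsupp _ (mem_keys he).2 y hy
    unfold supp at h1
    rw [List.all_eq_true] at h1
    have h2 := h1 e he
    rw [Bool.and_eq_true, Bool.or_eq_true, Bool.or_eq_true] at h2
    rcases h2.2 with h3 | h3
    · simp at h3
    · rw [List.any_eq_true] at h3
      obtain ⟨x, hx, h4⟩ := h3
      rw [Bool.and_eq_true, Bool.not_eq_true', decide_eq_false_iff_not, decide_eq_true_eq] at h4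
      exact ⟨⟨x, List.mem_range.1 hx⟩, h4.1, h4.2⟩

/-- The labels of a labelling which satisfies all edges are never deleted. -/
theorem Dom_of_sat {q : ℕ} {I : Game} {lam : ℕ → Fin q}
    (h : ∀ e ∈ I, e.2[(lam (va e) : ℕ)]? = some (lam (vb e) : ℕ)) (w : ℕ) :
    Dom q I w (lam w) := by
  have key : ∀ k w, (w, (lam w : ℕ)) ∉ (acs q I)^[k] [] := by
    intro k
    induction k with
    | zero => intro w; simp
    | succ k ih =>
      intro w hw
      rw [Function.iterate_succ_apply'] at hw
      have hw2 := (List.mem_filter.1 hw).2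
      rw [Bool.or_eq_true, decide_eq_true_eq, Bool.not_eq_true'] at hw2
      rcases hw2 with h1 | h1
      · exact ih w h1
      · have h2 : supp q I ((acs q I)^[k] []) (w, (lam w : ℕ)) = true := by
          unfold supp
          rw [List.all_eq_true]
          intro e he
          rw [Bool.and_eq_true, Bool.or_eq_true, Bool.or_eq_true]
          constructor
          · by_cases h3 : va e = w
            · right
              rw [List.any_eq_true]
              refine ⟨lam (vb e), List.mem_range.2 (lam (vb e)).2, ?_⟩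
              rw [Bool.and_eq_true, Bool.not_eq_true', decide_eq_false_iff_not, decide_eq_true_eq]
              refine ⟨ih _, ?_⟩
              rw [← h3]
              exact h e he
            · left
              simpa using h3
          · by_cases h3 : vb e = w
            · right
              rw [List.any_eq_true]
              refine ⟨lam (va e), List.mem_range.2 (lam (va e)).2, ?_⟩
              rw [Bool.and_eq_true, Bool.not_eq_true', decide_eq_false_iff_not, decide_eq_true_eq]
              refine ⟨ih _, ?_⟩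
              rw [← h3]
              exact h e he
            · left
              simpa using h3
        rw [h2] at h1
        exact absurd h1 (by simp)
  exact key _ w

end Pool.Agent.H697.RT
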