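import Pool.Agent.H697.LF.Main
import Pool.Agent.H697.LF.Bound

/-!
# The first reduction: coloured games of large girth
-/

namespace Pool.Agent.H697.RT

open Finset Pool.Agent.NPC Pool.Agent.H697.Exp Pool.Agent.H697.UG Pool.Agent.H697.Red
  Pool.Agent.H697.Forest Pool.Agent.H697.LF

/-- The edges at every vertex have the colours `0, ..., k - 1`, each of them once. -/
structure Colored (k : ℕ) (cf : Edge → ℕ) (J : Game) : Prop where
  lt : ∀ e ∈ J, cf e < k
  ex : ∀ s, ∀ e ∈ J, ∀ a < k, ∃ e' ∈ J, kk s e' = kk s e ∧ cf e' = a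
  inj : ∀ s, ∀ e ∈ J, ∀ e' ∈ J, kk s e = kk s e' → cf e = cf e' → e.1 = e'.1

/-- The complete bipartite graph with `k` vertices on each side. -/
def KB (k : ℕ) : SimpleGraph (Bool × Fin k) where
  Adj x y := x.1 ≠ y.1
  symm := ⟨fun _ _ h => h.symm⟩
  loopless := ⟨fun _ h => h rfl⟩

theorem card_KB (k : ℕ) : (KB k).edgeSet.ncard = k * k := by
  classical
  have hdec : DecidableRel (KB k).Adj := fun x y => inferInstanceAs (Decidable (x.1 ≠ y.1))
  have h1 : ∀ x, (KB k).degree x = k := by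
    intro x
    rw [← (KB k).card_neighborFinset_eq_degree, SimpleGraph.neighborFinset_eq_filter]
    have : (univ.filter fun y : Bool × Fin k => (KB k).Adj x y) =
        ({!x.1} : Finset Bool) ×ˢ (univ : Finset (Fin k)) := by
      ext y
      simp only [mem_filter, mem_univ, true_and, mem_product, mem_singleton, and_true]
      show x.1 ≠ y.1 ↔ y.1 = !x.1
      cases x.1 <;> cases y.1 <;> simp
    rw [this, card_product, card_singleton, card_univ, Fintype.card_fin, one_mul]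
  have h2 := (KB k).sum_degrees_eq_twice_card_edges
  rw [sum_congr rfl fun x _ => h1 x, sum_const, card_univ, Fintype.card_prod, Fintype.card_bool,
    Fintype.card_fin, smul_eq_mul] at h2
  have h3 : (KB k).edgeSet.ncard = (KB k).edgeFinset.card := by
    rw [Set.ncard_eq_toFinset_card', SimpleGraph.edgeFinset]
  rw [h3]
  have h4 : 2 * k * k = 2 * (k * k) := by ring
  omega

theorem mem_support_mk {J : Game} (s : Bool) {e : Edge} (he : e ∈ J) :
    mk s (kk s e) ∈ (cgraph J).support := by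
  have h : (cgraph J).Adj (Sum.inl (kL e)) (Sum.inr (kR e)) :=
    cadj_lr.2 (List.mem_map.2 ⟨e, he, rfl⟩)
  cases s with
  | false => exact (SimpleGraph.mem_support _).2 ⟨_, h⟩
  | true => exact (SimpleGraph.mem_support _).2 ⟨_, h.symm⟩

theorem adj_kk {J : Game} (s : Bool) {e : Edge} (he : e ∈ J) :
    (cgraph J).Adj (mk s (kk s e)) (mk (!s) (kk (!s) e)) := by
  have h : (cgraph J).Adj (Sum.inl (kL e)) (Sum.inr (kR e)) :=
    cadj_lr.2 (List.mem_map.2 ⟨e, he, rfl⟩)
  cases s with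
  | false => exact h
  | true => exact h.symm

theorem exists_edge {J : Game} {s : Bool} {n : ℕ} {w : ℕ ⊕ ℕ}
    (h : (cgraph J).Adj (mk s n) w) : ∃ e ∈ J, kk s e = n ∧ w = mk (!s) (kk (!s) e) := by
  cases s with
  | false =>
    cases w with
    | inl m => exact h.elim
    | inr m =>
      obtain ⟨e, he, h1⟩ := List.mem_map.1 (cadj_lr.1 h)
      exact ⟨e, he, congrArg Prod.fst h1, congrArg Sum.inr (congrArg Prod.snd h1).symm⟩
  | true =>
    cases w with
    | inr m => exact h.elim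
    | inl m =>
      obtain ⟨e, he, h1⟩ := List.mem_map.1 (cadj_rl.1 h)
      exact ⟨e, he, congrArg Prod.snd h1, congrArg Sum.inl (congrArg Prod.fst h1).symm⟩

theorem fst_eq {e e' : Edge} (s : Bool) (h : kk s e = kk s e') (h' : kk (!s) e = kk (!s) e') :
    e.1 = e'.1 := by
  cases s with
  | false => exact Prod.ext h h'
  | true => exact Prod.ext h' h

open Classical in
/-- The second component of the image of the vertex with a given name. -/
noncomputable def tbl {W : Type} {k : ℕ} (name : W → ℕ) (ψ : W → Bool × Fin k) (n : ℕ) : ℕ :=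
  if h : ∃ w, name w = n then ((ψ h.choose).2 : ℕ) else 0

theorem tbl_name {W : Type} {k : ℕ} {name : W → ℕ} (hinj : Function.Injective name)
    (ψ : W → Bool × Fin k) (w : W) : tbl name ψ (name w) = (ψ w).2 := by
  have h : ∃ w', name w' = name w := ⟨w, rfl⟩
  unfold tbl
  rw [dif_pos h, hinj h.choose_spec]

theorem mod_inj {k a b c : ℕ} (hb : b < k) (hc : c < k) (h : (a + b) % k = (a + c) % k) :
    b = c := by
  have h1 : a + b ≡ a + c [MOD k] := h
  have h2 := Nat.ModEq.add_left_cancel' a h1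
  unfold Nat.ModEq at h2
  rwa [Nat.mod_eq_of_lt hb, Nat.mod_eq_of_lt hc] at h2

theorem colored_of_lift {J : Game} {k : ℕ} (hk : 0 < k) {W : Type} {H : SimpleGraph W}
    {name : W → ℕ} (hinj : Function.Injective name) {φ : (cgraph J).support → W}
    (h1 : ∀ w, name (φ w) = (Nat.unpair (nm w)).2)
    (h2 : ∀ w, Set.BijOn φ ((graphOf J).neighborSet w) (H.neighborSet (φ w)))
    {ψ : W → Bool × Fin k}
    (h3 : ∀ w, Set.BijOn ψ (H.neighborSet w) ((KB k).neighborSet (ψ w))) :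
    Colored k (fun e => (tbl name ψ (Nat.unpair e.1.1).2 + tbl name ψ (Nat.unpair e.1.2).2) % k)
      J := by
  set Φ : (cgraph J).support → Bool × Fin k := fun w => ψ (φ w) with hΦ
  have h4 : ∀ w, Set.BijOn Φ ((graphOf J).neighborSet w) ((KB k).neighborSet (Φ w)) :=
    fun w => (h3 _).comp (h2 w)
  have h5 : ∀ w : (cgraph J).support, tbl name ψ (Nat.unpair (nm w)).2 = (Φ w).2 := by
    intro w
    rw [← h1, tbl_name hinj]
  set cf : Edge → ℕ := fun e => (tbl name ψ (Nat.unpair e.1.1).2 +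
    tbl name ψ (Nat.unpair e.1.2).2) % k with hcf
  have h6 : ∀ (s : Bool) (e : Edge) (he : e ∈ J),
      cf e = ((Φ ⟨_, mem_support_mk s he⟩).2 + (Φ ⟨_, mem_support_mk (!s) he⟩).2 : ℕ) % k := by
    intro s e he
    have h7 : ∀ s', ((Φ ⟨_, mem_support_mk s' he⟩).2 : ℕ) =
        tbl name ψ (Nat.unpair (kk s' e)).2 := by
      intro s'
      rw [← h5]
      dsimp only
      rw [nm_mk]
    rw [h7, h7]
    cases s with
    | false => rfl
    | true =>
      rw [add_comm]
      rfl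
  refine ⟨fun e _ => Nat.mod_lt _ hk, fun s e he a ha => ?_, fun s e he e' he' hs hc => ?_⟩
  · set w : (cgraph J).support := ⟨_, mem_support_mk s he⟩ with hw
    set i : ℕ := (a + (k - (Φ w).2)) % k with hi
    have hik : i < k := Nat.mod_lt _ hk
    obtain ⟨w', hw', hw''⟩ := (h4 w).2.2 (show (!(Φ w).1, (⟨i, hik⟩ : Fin k)) ∈
      (KB k).neighborSet (Φ w) by
        show (Φ w).1 ≠ !(Φ w).1
        cases (Φ w).1 <;> simp)
    have hadj : (cgraph J).Adj (mk s (kk s e)) (w' : ℕ ⊕ ℕ) := hw'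
    obtain ⟨e', he', h7, h8⟩ := exists_edge hadj
    refine ⟨e', he', h7, ?_⟩
    rw [h6 s e' he']
    have h9 : (⟨_, mem_support_mk s he'⟩ : (cgraph J).support) = w := by
      apply Subtype.ext
      rw [hw]
      dsimp only
      rw [h7]
    have h10 : (⟨_, mem_support_mk (!s) he'⟩ : (cgraph J).support) = w' := by
      apply Subtype.ext
      dsimp only
      rw [h8]
    rw [h9, h10, hw'']
    dsimp only
    rw [hi]
    have h11 : ((Φ w).2 : ℕ) < k := (Φ w).2.2
    rw [Nat.add_mod_mod]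
    have h12 : ((Φ w).2 : ℕ) + (a + (k - (Φ w).2)) = a + k := by omega
    rw [h12, Nat.add_mod_right, Nat.mod_eq_of_lt ha]
  · rw [h6 s e he, h6 s e' he'] at hc
    have h7 : (⟨_, mem_support_mk s he'⟩ : (cgraph J).support) = ⟨_, mem_support_mk s he⟩ := by
      apply Subtype.ext
      dsimp only
      rw [hs]
    rw [h7] at hc
    have h8 := mod_inj (Φ _).2.2 (Φ _).2.2 hc
    set w : (cgraph J).support := ⟨_, mem_support_mk s he⟩ with hw
    have ha1 : (graphOf J).Adj w ⟨_, mem_support_mk (!s) he⟩ := adj_kk s he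
    have ha2 : (graphOf J).Adj w ⟨_, mem_support_mk (!s) he'⟩ := by
      rw [← h7]
      exact adj_kk s he'
    have h9 : Φ ⟨_, mem_support_mk (!s) he⟩ = Φ ⟨_, mem_support_mk (!s) he'⟩ := by
      apply Prod.ext
      · have e1 : (Φ w).1 ≠ (Φ ⟨_, mem_support_mk (!s) he⟩).1 := (h4 w).1 ha1
        have e2 : (Φ w).1 ≠ (Φ ⟨_, mem_support_mk (!s) he'⟩).1 := (h4 w).1 ha2
        revert e1 e2
        cases (Φ w).1 <;> cases (Φ ⟨_, mem_support_mk (!s) he⟩).1 <;>
          cases (Φ ⟨_, mem_support_mk (!s) he'⟩).1 <;> simp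
      · exact Fin.ext h8
    have h10 := (h4 w).2.1 ha1 ha2 h9
    have h11 := mk_inj (congrArg Subtype.val h10)
    exact fst_eq s hs h11.2

/-- The first reduction. -/
theorem exists_colored {q : ℕ} (hq : 0 < q) {κ δ δ' : ℝ} (hκ : 0 < κ) (h : δ < δ') {T : ℕ}
    (hT : 0 < T) (g : ℕ) :
    ∃ (j : ℕ) (cf : Edge → ℕ) (F : Game → Game), 0 < j ∧ Poly F ∧
      Poly (fun I => (F I).map fun e => (e, cf e)) ∧ ∀ I, I ≠ [] → F I ≠ [] ∧ Simple (F I) ∧
      GirthGT (graphOf (F I)) g ∧ Colored (T * j) cf (F I) ∧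
      (∀ e ∈ F I, ∃ e' ∈ I, e.2 = e'.2) ∧
      (∀ L M : ℕ → Fin q, (∀ e ∈ I, ∃ y : Fin q, e.2[(L e.1.1 : ℕ)]? = some (y : ℕ)) →
        ∃ L' M' : ℕ → Fin q, (numSat I L M : ℝ) * (F I).length ≤
          (1 + κ) * (numSat (F I) L' M' * I.length) ∧
          ((∀ e ∈ I, ∃ x : Fin q, e.2[(x : ℕ)]? = some (M e.1.2 : ℕ)) →
            numSat I L M * (F I).length ≤ numSat (F I) L' M' * I.length)) ∧
      ((∀ L M : ℕ → Fin q, (numSat I L M : ℝ) ≤ δ * I.length) →
        ∀ L M : ℕ → Fin q, (numSat (F I) L M : ℝ) ≤ δ' * (F I).length) := by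
  obtain ⟨d, hd⟩ := exists_reduction_lift_named hq hκ h
  set j := 2 * d + 1 with hj
  have hk : 0 < T * j := Nat.mul_pos hT (by omega)
  obtain ⟨W, hW, H, n, hn, h1, h2⟩ := exists_lift_girth (KB (T * j)) g
  have hKadj : ∀ a, ∃ b, (KB (T * j)).Adj a b := by
    intro a
    refine ⟨(!a.1, a.2), ?_⟩
    show a.1 ≠ !a.1
    cases a.1 <;> simp
  have hcard : d * Nat.card W < H.edgeSet.ncard := by
    rw [h1.card_vertices, h1.card_edges, card_KB, Nat.card_prod, Nat.card_fin,
      Nat.card_eq_fintype_card, Fintype.card_bool]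
    have h3 : 2 * d < T * j := by
      calc 2 * d < j := by omega
        _ ≤ T * j := Nat.le_mul_of_pos_left _ hT
    calc d * (n * (2 * (T * j))) = n * ((2 * d) * (T * j)) := by ring
      _ < n * ((T * j) * (T * j)) :=
          Nat.mul_lt_mul_of_pos_left (Nat.mul_lt_mul_of_pos_right h3 hk) hn
  obtain ⟨name, F, hinj, hF, hF2, hFI⟩ := hd W H (h1.exists_adj hKadj) hcard
  obtain ⟨ψ, hψ, hψ2⟩ := h1
  refine ⟨j, fun e => (tbl name ψ (Nat.unpair e.1.1).2 + tbl name ψ (Nat.unpair e.1.2).2) %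
    (T * j), F, by omega, hF,
    hF2 fun p => (tbl name ψ p.1 + tbl name ψ p.2) % (T * j), fun I hI => ?_⟩
  obtain ⟨h3, h4, ⟨φ, h5, h6, m, hm, h7⟩, h8, h9, h10⟩ := hFI I hI
  refine ⟨h3, h4, ?_, colored_of_lift hk hinj h5 h6 hψ, h8, h9, h10⟩
  have h11 : IsLift m (graphOf (F I)) H := ⟨φ, h6, h7⟩
  exact h11.girth h2

end Pool.Agent.H697.RT
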