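import Pool.Agent.H697.RT.Game

/-!
# The random lift of a game and random permutations
-/

namespace Pool.Agent.H697.RT

open Finset Pool.Agent.NPC Pool.Agent.H697.Exp Pool.Agent.H697.UG Pool.Agent.H697.Red
  Pool.Agent.H697.Forest Pool.Agent.H697.LF

/-! ### Simple facts -/

theorem simple_RL {b : ℕ} {cd : Bool → List Bool × ℕ → ℕ} {cf : Edge → ℕ} {J : Game}
    {r : List Bool} (hS : Simple J) : Simple (RL b cd cf J r) := by
  unfold Simple at hS ⊢
  refine List.Nodup.of_map (fun x : ℕ × ℕ => ((Nat.unpair x.1).1, (Nat.unpair x.2).1)) ?_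
  have h : ((RL b cd cf J r).map Prod.fst).map
      (fun x : ℕ × ℕ => ((Nat.unpair x.1).1, (Nat.unpair x.2).1)) = J.map Prod.fst := by
    unfold RL
    rw [List.map_map, List.map_map]
    refine List.map_congr_left fun e _ => ?_
    simp only [Function.comp, rle, Nat.unpair_pair]
    rfl
  rw [h]
  exact hS

theorem tables_RL {b : ℕ} {cd : Bool → List Bool × ℕ → ℕ} {cf : Edge → ℕ} {J : Game}
    {r : List Bool} {e : Edge} (he : e ∈ RL b cd cf J r) : ∃ e' ∈ J, e.2 = e'.2 := by
  unfold RL at he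
  obtain ⟨e', he', rfl⟩ := List.mem_map.1 he
  exact ⟨e', he', rfl⟩

theorem length_RL {b : ℕ} {cd : Bool → List Bool × ℕ → ℕ} {cf : Edge → ℕ} {J : Game}
    {r : List Bool} : (RL b cd cf J r).length = J.length := by
  unfold RL
  rw [List.length_map]

theorem complete_RL {b : ℕ} {cd : Bool → List Bool × ℕ → ℕ} {cf : Edge → ℕ} {J : Game}
    {r : List Bool} {q : ℕ} (L M : ℕ → Fin q) :
    numSat (RL b cd cf J r) (fun n => L (Nat.unpair n).1) (fun n => M (Nat.unpair n).1) =
      numSat J L M := by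
  unfold numSat RL
  rw [List.filter_map, List.length_map]
  congr 1
  refine List.filter_congr fun e _ => ?_
  simp only [Function.comp]
  apply decide_eq_decide.2
  unfold Sat rle
  simp only [Nat.unpair_pair]
  exact Iff.rfl

/-! ### Codes -/

section
variable {V0 : Type} {T j b : ℕ}

open Classical in
/-- The code of a new vertex, from the block of random bits of the old vertex and the colour. -/
noncomputable def cd (e0 : V0 → ℕ) (src tgt : Fin T → V0) (tb : (Fin b → Bool) → Loc (Fin T) j)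
    (s : Bool) (x : List Bool × ℕ) : ℕ :=
  if h : x.1.length = b ∧ x.2 < T * j ∧ 0 < j then
    e0 ((if s = true then tgt else src) ⟨x.2 / j, by
      rw [Nat.div_lt_iff_lt_mul h.2.2]; exact h.2.1⟩) * j +
      (tb (fun k => x.1[(k : ℕ)]'(by rw [h.1]; exact k.2)) ⟨x.2 / j, by
        rw [Nat.div_lt_iff_lt_mul h.2.2]; exact h.2.1⟩ ⟨x.2 % j, Nat.mod_lt _ h.2.2⟩ : ℕ)
  else 0

theorem poly_cd (e0 : V0 → ℕ) (src tgt : Fin T → V0) (tb : (Fin b → Bool) → Loc (Fin T) j)
    (s : Bool) : Poly (cd e0 src tgt tb s) := by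
  classical
  have hfin : {x : List Bool × ℕ | x.1.length = b ∧ x.2 < T * j}.Finite := by
    have h1 : {x : List Bool × ℕ | x.1.length = b ∧ x.2 < T * j} =
        {l : List Bool | l.length = b} ×ˢ {n : ℕ | n < T * j} := by
      ext x; simp
    rw [h1]
    exact (List.finite_length_eq Bool b).prod (Set.finite_lt_nat _)
  refine (poly_finite hfin.toFinset.toList (cd e0 src tgt tb s) 0).congr fun x => ?_
  split_ifs with h
  · rfl
  · rw [mem_toList, Set.Finite.mem_toFinset] at h
    unfold cd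
    rw [dif_neg]
    rintro ⟨h1, h2, _⟩
    exact h ⟨h1, h2⟩

/-- The number of the block of a vertex. -/
def ix (J : Game) : {n // n ∈ lefts J} ⊕ {n // n ∈ rights J} → ℕ
  | Sum.inl u => fi kL J u
  | Sum.inr v => J.length + fi kR J v

theorem ix_lt (J : Game) (z : {n // n ∈ lefts J} ⊕ {n // n ∈ rights J}) :
    ix J z < 2 * J.length := by
  cases z with
  | inl u =>
    obtain ⟨u, hu⟩ := u
    unfold lefts at hu
    rw [List.mem_toFinset, List.mem_map] at hu
    obtain ⟨h, _⟩ := fi_spec (k := kL) (J := J) hu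
    show fi kL J u < _
    omega
  | inr v =>
    obtain ⟨v, hv⟩ := v
    unfold rights at hv
    rw [List.mem_toFinset, List.mem_map] at hv
    obtain ⟨h, _⟩ := fi_spec (k := kR) (J := J) hv
    show J.length + fi kR J v < _
    omega

theorem ix_inj (J : Game) : Function.Injective (ix J) := by
  intro z z' h
  cases z with
  | inl u =>
    obtain ⟨u, hu⟩ := u
    have hu' := hu
    unfold lefts at hu'
    rw [List.mem_toFinset, List.mem_map] at hu'
    obtain ⟨h1, h2⟩ := fi_spec (k := kL) (J := J) hu'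
    cases z' with
    | inl u' =>
      obtain ⟨u', hu'⟩ := u'
      have hu'' := hu'
      unfold lefts at hu''
      rw [List.mem_toFinset, List.mem_map] at hu''
      obtain ⟨h3, h4⟩ := fi_spec (k := kL) (J := J) hu''
      have h5 : fi kL J u = fi kL J u' := h
      have h6 : u = u' := by
        rw [← h2, ← h4]
        simp only [h5]
      subst h6
      rfl
    | inr v =>
      exfalso
      have h5 : fi kL J u = J.length + fi kR J v := h
      omega
  | inr u =>
    obtain ⟨u, hu⟩ := u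
    have hu' := hu
    unfold rights at hu'
    rw [List.mem_toFinset, List.mem_map] at hu'
    obtain ⟨h1, h2⟩ := fi_spec (k := kR) (J := J) hu'
    cases z' with
    | inr u' =>
      obtain ⟨u', hu'⟩ := u'
      have hu'' := hu'
      unfold rights at hu''
      rw [List.mem_toFinset, List.mem_map] at hu''
      obtain ⟨h3, h4⟩ := fi_spec (k := kR) (J := J) hu''
      have h5' : J.length + fi kR J u = J.length + fi kR J u' := h
      have h5 : fi kR J u = fi kR J u' := by omega
      have h6 : u = u' := by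
        rw [← h2, ← h4]
        simp only [h5]
      subst h6
      rfl
    | inl v =>
      exfalso
      obtain ⟨v, hv⟩ := v
      have hv' := hv
      unfold lefts at hv'
      rw [List.mem_toFinset, List.mem_map] at hv'
      obtain ⟨h3, _⟩ := fi_spec (k := kL) (J := J) hv'
      have h5 : J.length + fi kR J u = fi kL J v := h
      omega

/-- The places of the random bits of a vertex. -/
def pl (J : Game) {m : ℕ} (hm : 2 * J.length * b ≤ m)
    (zk : ({n // n ∈ lefts J} ⊕ {n // n ∈ rights J}) × Fin b) : Fin m :=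
  ⟨ix J zk.1 * b + zk.2, by
    have h := ix_lt J zk.1
    calc ix J zk.1 * b + zk.2 < ix J zk.1 * b + b := Nat.add_lt_add_left zk.2.2 _
      _ = (ix J zk.1 + 1) * b := by ring
      _ ≤ 2 * J.length * b := Nat.mul_le_mul_right _ h
      _ ≤ m := hm⟩

theorem pl_inj (J : Game) {m : ℕ} (hm : 2 * J.length * b ≤ m) :
    Function.Injective (pl (b := b) J hm) := by
  rintro ⟨z, k⟩ ⟨z', k'⟩ h
  have h1 : ix J z * b + k = ix J z' * b + k' := congrArg Fin.val h
  have hb : 0 < b := lt_of_le_of_lt (Nat.zero_le _) k.2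
  have h2 : ix J z = ix J z' := by
    have e1 : (ix J z * b + k) / b = ix J z := by
      rw [mul_comm, Nat.mul_add_div hb, Nat.div_eq_of_lt k.2, add_zero]
    have e2 : (ix J z' * b + k') / b = ix J z' := by
      rw [mul_comm, Nat.mul_add_div hb, Nat.div_eq_of_lt k'.2, add_zero]
    rw [← e1, h1, e2]
  have h3 : (k : ℕ) = k' := by
    rw [h2] at h1
    omega
  rw [ix_inj J h2, Fin.ext h3]

theorem blk_ofFn {m : ℕ} (rr : Fin m → Bool) (i : ℕ) (hi : ∀ k < b, i * b + k < m) :
    blk b (List.ofFn rr) i = List.ofFn fun k : Fin b => rr ⟨i * b + k, hi k k.2⟩ := by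
  unfold blk
  apply List.ext_getElem
  · simp
  · intro k h1 h2
    have hk : k < b := by simpa using h1
    rw [List.getElem_map, List.getElem_range, List.getElem_ofFn, List.getElem?_eq_getElem (by
      rw [List.length_ofFn]; exact hi k hk), List.getElem_ofFn]
    rfl

/-- The names of the new vertices. -/
def nmW (e0 : V0 → ℕ) {U V : Finset ℕ} (w : WW V0 {n // n ∈ U} {n // n ∈ V} j) : ℕ ⊕ ℕ :=
  match w with
  | Sum.inl l => Sum.inl (Nat.pair l.2.1 (e0 l.1 * j + l.2.2))
  | Sum.inr l => Sum.inr (Nat.pair l.2.1 (e0 l.1 * j + l.2.2))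

theorem code_inj {e0 : V0 → ℕ} (he0 : Function.Injective e0) {x x' : V0} {i i' : Fin j}
    (h : e0 x * j + i = e0 x' * j + i') : x = x' ∧ i = i' := by
  have hj : 0 < j := lt_of_le_of_lt (Nat.zero_le _) i.2
  have h2 : e0 x = e0 x' := by
    have e1 : (e0 x * j + i) / j = e0 x := by
      rw [mul_comm, Nat.mul_add_div hj, Nat.div_eq_of_lt i.2, add_zero]
    have e2 : (e0 x' * j + i') / j = e0 x' := by
      rw [mul_comm, Nat.mul_add_div hj, Nat.div_eq_of_lt i'.2, add_zero]
    rw [← e1, h, e2]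
  refine ⟨he0 h2, Fin.ext ?_⟩
  rw [h2] at h
  omega

theorem nmW_inj {e0 : V0 → ℕ} (he0 : Function.Injective e0) {U V : Finset ℕ} :
    Function.Injective (nmW (j := j) e0 (U := U) (V := V)) := by
  intro w w' h
  cases w with
  | inl l =>
    cases w' with
    | inl l' =>
      have h1 := Sum.inl_injective h
      obtain ⟨h2, h3⟩ := Nat.pair_eq_pair.1 h1
      obtain ⟨h4, h5⟩ := code_inj he0 h3
      obtain ⟨x, u, i⟩ := l
      obtain ⟨x', u', i'⟩ := l'
      have h6 : u = u' := Subtype.ext h2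
      have h7 : x = x' := h4
      have h8 : i = i' := h5
      rw [h6, h7, h8]
    | inr l' => cases h
  | inr l =>
    cases w' with
    | inr l' =>
      have h1 := Sum.inr_injective h
      obtain ⟨h2, h3⟩ := Nat.pair_eq_pair.1 h1
      obtain ⟨h4, h5⟩ := code_inj he0 h3
      obtain ⟨x, u, i⟩ := l
      obtain ⟨x', u', i'⟩ := l'
      have h6 : u = u' := Subtype.ext h2
      have h7 : x = x' := h4
      have h8 : i = i' := h5
      rw [h6, h7, h8]
    | inl l' => cases h

variable {e0 : V0 → ℕ} {src tgt : Fin T → V0} {tb : (Fin b → Bool) → Loc (Fin T) j} {J : Game}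
  {cf : Edge → ℕ} {m : ℕ}

/-- The permutations given by the random bits. -/
def gg (tb : (Fin b → Bool) → Loc (Fin T) j) (J : Game) (hm : 2 * J.length * b ≤ m)
    (rr : Fin m → Bool) (z : {n // n ∈ lefts J} ⊕ {n // n ∈ rights J}) : Loc (Fin T) j :=
  tb fun k => rr (pl J hm (z, k))

theorem cd_val (hj : 0 < j) (s : Bool) {β : Fin b → Bool} {a : ℕ} (ha : a < T * j) :
    cd e0 src tgt tb s (List.ofFn β, a) =
      e0 ((if s = true then tgt else src) ⟨a / j, by rwa [Nat.div_lt_iff_lt_mul hj]⟩) * j +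
      (tb β ⟨a / j, by rwa [Nat.div_lt_iff_lt_mul hj]⟩ ⟨a % j, Nat.mod_lt _ hj⟩ : ℕ) := by
  unfold cd
  rw [dif_pos ⟨List.length_ofFn, ha, hj⟩]
  congr 3
  simp only [List.getElem_ofFn]

theorem rle_left (hj : 0 < j) (hc : Colored (T * j) cf J) (hm : 2 * J.length * b ≤ m)
    (rr : Fin m → Bool) (p : Fin J.length) :
    (Sum.inl (kL (rle b (cd e0 src tgt tb) J (List.ofFn rr) (J[p], cf J[p]))) : ℕ ⊕ ℕ) =
      nmW e0 (aa src (uu J) {n // n ∈ rights J} (cc hj hc) p
        (om (uu J) (vv J) (cc hj hc) (gg tb J hm rr) p)) := by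
  have hlt : ∀ k < b, fi kL J (kL J[p]) * b + k < m := fun k hk =>
    (pl J hm (Sum.inl (uu J p), ⟨k, hk⟩)).2
  have h1 := blk_ofFn (b := b) rr (fi kL J (kL J[p])) hlt
  have h2 : kL (rle b (cd e0 src tgt tb) J (List.ofFn rr) (J[p], cf J[p])) =
      Nat.pair (kL J[p]) (cd e0 src tgt tb false
        (blk b (List.ofFn rr) (fi kL J (kL J[p])), cf J[p])) := rfl
  have h3 : cf J[p] < T * j := hc.lt _ (List.getElem_mem _)
  have h4 := cd_val (e0 := e0) (src := src) (tgt := tgt) (tb := tb) hj false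
    (β := fun k : Fin b => rr ⟨fi kL J (kL J[p]) * b + k, hlt k k.2⟩) h3
  rw [h2, h1, h4]
  rfl

theorem rle_right (hj : 0 < j) (hc : Colored (T * j) cf J) (hm : 2 * J.length * b ≤ m)
    (rr : Fin m → Bool) (p : Fin J.length) :
    (Sum.inr (kR (rle b (cd e0 src tgt tb) J (List.ofFn rr) (J[p], cf J[p]))) : ℕ ⊕ ℕ) =
      nmW e0 (bb tgt {n // n ∈ lefts J} (vv J) (cc hj hc) p
        (om (uu J) (vv J) (cc hj hc) (gg tb J hm rr) p)) := by
  have hlt : ∀ k < b, (J.length + fi kR J (kR J[p])) * b + k < m := fun k hk =>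
    (pl J hm (Sum.inr (vv J p), ⟨k, hk⟩)).2
  have h1 := blk_ofFn (b := b) rr (J.length + fi kR J (kR J[p])) hlt
  have h2 : kR (rle b (cd e0 src tgt tb) J (List.ofFn rr) (J[p], cf J[p])) =
      Nat.pair (kR J[p]) (cd e0 src tgt tb true
        (blk b (List.ofFn rr) (J.length + fi kR J (kR J[p])), cf J[p])) := rfl
  have h3 : cf J[p] < T * j := hc.lt _ (List.getElem_mem _)
  have h4 := cd_val (e0 := e0) (src := src) (tgt := tgt) (tb := tb) hj true
    (β := fun k : Fin b => rr ⟨(J.length + fi kR J (kR J[p])) * b + k, hlt k k.2⟩) h3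
  rw [h2, h1, h4]
  rfl

end

end Pool.Agent.H697.RT
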