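import Mathlib

/-!
# Random placements of the constraints: the union bound

There are constraints `p : ι`, and each of them gets a random place `ω p : P`.  The place `x` of `p`
has the ends `a p x` and `b p x`, which are vertices (elements of `W`), and `S p` is the relation
which the labels of the ends have to satisfy.
-/

namespace Pool.Agent.H697.RT

open Finset

variable {ι P W Λ : Type} [Fintype ι] [DecidableEq ι] [Fintype P] [DecidableEq P] [Fintype W]
  [DecidableEq W] [Fintype Λ] [DecidableEq Λ]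

set_option linter.unusedSectionVars false

/-- The graph formed by the constraints in `F`. -/
def gr (a b : ι → P → W) (ω : ι → P) (F : Finset ι) : SimpleGraph W :=
  SimpleGraph.fromRel fun w w' => ∃ p ∈ F, a p (ω p) = w ∧ b p (ω p) = w'

/-- The labels `f` fit to the constraint `p`. -/
def OK (a b : ι → P → W) (S : ι → Λ → Λ → Prop) (ω : ι → P) (f : W → Λ) (p : ι) : Prop :=
  S p (f (a p (ω p))) (f (b p (ω p)))

/-- The vertices joined to `R` by constraints in `F`. -/
def Rch (a b : ι → P → W) (ω : ι → P) (F : Finset ι) (R : Finset W) (w : W) : Prop :=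
  ∃ r ∈ R, (gr a b ω F).Reachable r w

/-- The labels are determined by the labels of `R` and the constraints in `F`. -/
def Cand (a b : ι → P → W) (S : ι → Λ → Λ → Prop) (z : Λ) (ω : ι → P) (F : Finset ι)
    (R : Finset W) (f : W → Λ) : Prop :=
  (∀ w, ¬ Rch a b ω F R w → f w = z) ∧ ∀ p ∈ F, Rch a b ω F R (a p (ω p)) → OK a b S ω f p

variable {a b : ι → P → W} {S : ι → Λ → Λ → Prop} {z : Λ} {ω : ι → P} {F X : Finset ι}
  {R : Finset W}

theorem gr_congr {ω' : ι → P} (h : ∀ p ∈ F, ω p = ω' p) : gr a b ω F = gr a b ω' F := by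
  unfold gr
  congr 1
  funext w w'
  apply propext
  constructor
  · rintro ⟨p, hp, h1, h2⟩
    exact ⟨p, hp, h p hp ▸ h1, h p hp ▸ h2⟩
  · rintro ⟨p, hp, h1, h2⟩
    exact ⟨p, hp, by rw [h p hp]; exact h1, by rw [h p hp]; exact h2⟩

theorem cand_congr {ω' : ι → P} (h : ∀ p ∈ F, ω p = ω' p) (f : W → Λ) :
    Cand a b S z ω F R f ↔ Cand a b S z ω' F R f := by
  unfold Cand Rch OK
  rw [gr_congr h]
  refine and_congr Iff.rfl (forall_congr' fun p => forall_congr' fun hp => ?_)
  rw [h p hp]

theorem cand_inj (hS : ∀ p x y y', S p x y → S p x y' → y = y')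
    (hS' : ∀ p x x' y, S p x y → S p x' y → x = x') {f f' : W → Λ}
    (hf : Cand a b S z ω F R f) (hf' : Cand a b S z ω F R f') (h : ∀ r ∈ R, f r = f' r) :
    f = f' := by
  funext w
  by_cases hw : Rch a b ω F R w
  · obtain ⟨r, hr, hrw⟩ := hw
    rw [SimpleGraph.reachable_iff_reflTransGen] at hrw
    induction hrw with
    | refl => exact h r hr
    | @tail w w' h1 h2 ih =>
      have h3 : Rch a b ω F R w := ⟨r, hr, (SimpleGraph.reachable_iff_reflTransGen _ _).2 h1⟩
      have h4 : Rch a b ω F R w' :=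
        ⟨r, hr, ((SimpleGraph.reachable_iff_reflTransGen _ _).2 h1).trans h2.reachable⟩
      unfold gr at h2
      rw [SimpleGraph.fromRel_adj] at h2
      obtain ⟨_, ⟨p, hp, h5, h6⟩ | ⟨p, hp, h5, h6⟩⟩ := h2
      · have e1 := hf.2 p hp (h5 ▸ h3)
        have e2 := hf'.2 p hp (h5 ▸ h3)
        unfold OK at e1 e2
        rw [h5, h6] at e1 e2
        rw [ih] at e1
        exact hS p _ _ _ e1 e2
      · have e1 := hf.2 p hp (h5 ▸ h4)
        have e2 := hf'.2 p hp (h5 ▸ h4)
        unfold OK at e1 e2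
        rw [h5, h6] at e1 e2
        rw [ih] at e1
        exact hS' p _ _ _ e1 e2
  · rw [hf.1 w hw, hf'.1 w hw]

open Classical in
theorem card_cand (hS : ∀ p x y y', S p x y → S p x y' → y = y')
    (hS' : ∀ p x x' y, S p x y → S p x' y → x = x') :
    (univ.filter fun f : W → Λ => Cand a b S z ω F R f).card ≤ Fintype.card Λ ^ R.card := by
  have h1 : Set.InjOn (fun (f : W → Λ) (r : R) => f r)
      (univ.filter fun f : W → Λ => Cand a b S z ω F R f : Finset (W → Λ)) := by
    intro f hf f' hf' h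
    exact cand_inj hS hS' (mem_filter.1 hf).2 (mem_filter.1 hf').2 fun r hr => congrFun h ⟨r, hr⟩
  calc (univ.filter fun f : W → Λ => Cand a b S z ω F R f).card
      = ((univ.filter fun f : W → Λ => Cand a b S z ω F R f).image
        fun (f : W → Λ) (r : R) => f r).card := (card_image_of_injOn h1).symm
    _ ≤ (univ : Finset (R → Λ)).card := card_le_card (subset_univ _)
    _ = Fintype.card Λ ^ R.card := by rw [card_univ, Fintype.card_fun, Fintype.card_coe]

open Classical in
/-- The number of places of `p` which fit to the labels. -/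
noncomputable def cnt (a b : ι → P → W) (S : ι → Λ → Λ → Prop) (f : W → Λ) (p : ι) : ℕ :=
  (univ.filter fun x => S p (f (a p x)) (f (b p x))).card

/-- Resampling. -/
theorem resample (X : Finset ι) (Q : (ι → P) → Prop) [DecidablePred Q] :
    (univ.filter Q).card * Fintype.card (ι → P) =
      ∑ ω : ι → P, (univ.filter fun ξ : ι → P => Q (X.piecewise ξ ω)).card := by
  have h1 : ∑ ω : ι → P, (univ.filter fun ξ : ι → P => Q (X.piecewise ξ ω)).card =
      (univ.filter fun ωξ : (ι → P) × (ι → P) => Q (X.piecewise ωξ.2 ωξ.1)).card := by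
    rw [card_filter, Fintype.sum_prod_type]
    exact sum_congr rfl fun ω _ => card_filter _ _
  have h2 : (univ.filter fun ωξ : (ι → P) × (ι → P) => Q ωξ.1).card =
      (univ.filter Q).card * Fintype.card (ι → P) := by
    have h3 : (univ.filter fun ωξ : (ι → P) × (ι → P) => Q ωξ.1) =
        (univ.filter Q) ×ˢ (univ : Finset (ι → P)) := by
      ext ωξ
      simp only [mem_filter, mem_univ, true_and, mem_product, and_true]
    rw [h3, card_product, card_univ]
  rw [h1, ← h2]
  refine card_bij' (fun ωξ _ => (X.piecewise ωξ.2 ωξ.1, X.piecewise ωξ.1 ωξ.2))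
    (fun ωξ _ => (X.piecewise ωξ.2 ωξ.1, X.piecewise ωξ.1 ωξ.2)) ?_ ?_ ?_ ?_
  · rintro ⟨ω, ξ⟩ h
    rw [mem_filter] at h ⊢
    refine ⟨mem_univ _, ?_⟩
    have : X.piecewise (X.piecewise ω ξ) (X.piecewise ξ ω) = ω := by
      funext p
      by_cases hp : p ∈ X <;> simp [hp]
    dsimp only at h ⊢
    rw [this]
    exact h.2
  · rintro ⟨ω, ξ⟩ h
    rw [mem_filter] at h ⊢
    exact ⟨mem_univ _, h.2⟩
  · rintro ⟨ω, ξ⟩ _
    apply Prod.ext <;> funext p <;> by_cases hp : p ∈ X <;> simp [hp]
  · rintro ⟨ω, ξ⟩ _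
    apply Prod.ext <;> funext p <;> by_cases hp : p ∈ X <;> simp [hp]

open Classical in
theorem card_sat (f : W → Λ) (X : Finset ι) :
    ((univ.filter fun ξ : ι → P => ∀ p ∈ X, S p (f (a p (ξ p))) (f (b p (ξ p)))).card : ℝ) *
      (Fintype.card P : ℝ) ^ X.card = (∏ p ∈ X, (cnt a b S f p : ℝ)) *
      (Fintype.card P : ℝ) ^ Fintype.card ι := by
  have h1 : (univ.filter fun ξ : ι → P => ∀ p ∈ X, S p (f (a p (ξ p))) (f (b p (ξ p)))) =
      Fintype.piFinset fun p => if p ∈ X then
        (univ.filter fun x => S p (f (a p x)) (f (b p x))) else univ := by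
    ext ξ
    rw [mem_filter, Fintype.mem_piFinset]
    constructor
    · rintro ⟨_, h⟩ p
      split_ifs with hp
      · exact mem_filter.2 ⟨mem_univ _, h p hp⟩
      · exact mem_univ _
    · intro h
      refine ⟨mem_univ _, fun p hp => ?_⟩
      have h2 := h p
      rw [if_pos hp] at h2
      exact (mem_filter.1 h2).2
  rw [h1, Fintype.card_piFinset]
  have h2 : ∀ p : ι, ((if p ∈ X then (univ.filter fun x => S p (f (a p x)) (f (b p x)))
      else univ).card) = if p ∈ X then cnt a b S f p else Fintype.card P := by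
    intro p
    split_ifs
    · rfl
    · rfl
  simp only [h2]
  push_cast
  rw [prod_ite, prod_const]
  have h3 : (univ.filter fun p : ι => p ∈ X) = X := by ext p; simp
  rw [h3]
  have h4 : (univ.filter fun p : ι => ¬ p ∈ X).card + X.card = Fintype.card ι := by
    have h5 := card_filter_add_card_filter_not (s := (univ : Finset ι)) (fun p => p ∈ X)
    rw [h3, card_univ] at h5
    omega
  rw [mul_assoc, ← pow_add, h4]

/-- The product over a large set of numbers with small sum is small. -/
theorem prod_small {c : ι → ℝ} (h0 : ∀ p, 0 ≤ c p) {l : ℝ} (hl : 0 < l) (X : Finset ι)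
    (h : ∑ p ∈ X, c p ≤ l * X.card) : ∏ p ∈ X, c p ≤ l ^ X.card := by
  have h1 : ∀ p ∈ X, c p ≤ l * Real.exp (c p / l - 1) := by
    intro p _
    have h2 := Real.add_one_le_exp (c p / l - 1)
    have h3 := mul_le_mul_of_nonneg_left h2 hl.le
    have h4 : l * (c p / l - 1 + 1) = c p := by field_simp; ring
    linarith
  refine (prod_le_prod (fun p _ => h0 p) h1).trans ?_
  rw [prod_mul_distrib, prod_const, ← Real.exp_sum]
  refine mul_le_of_le_one_right (by positivity) ?_
  rw [Real.exp_le_one_iff, sum_sub_distrib, ← sum_div, sum_const, nsmul_eq_mul, mul_one,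
    sub_nonpos, div_le_iff₀ hl]
  linarith

/-- Some labels are determined by few of them and by constraints, and satisfy many other
constraints. -/
def Bad (a b : ι → P → W) (S : ι → Λ → Λ → Prop) (z : Λ) (s x : ℕ) (ω : ι → P) : Prop :=
  ∃ X F : Finset ι, Disjoint X F ∧ x ≤ X.card ∧ ∃ R : Finset W, s * R.card ≤ Fintype.card W ∧
    ∃ f : W → Λ, Cand a b S z ω F R f ∧ ∀ p ∈ X, OK a b S ω f p

open Classical in
theorem card_bad_one (hP : 0 < Fintype.card P) (hS : ∀ p x y y', S p x y → S p x y' → y = y')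
    (hS' : ∀ p x x' y, S p x y → S p x' y → x = x') {s : ℕ} (hs : Fintype.card Λ ≤ 2 ^ s)
    {l η : ℝ} (hl0 : 0 < l) (hl1 : l ≤ 1)
    (hcnt : ∀ f : W → Λ, (∑ p, (cnt a b S f p : ℝ)) ≤
      l * η * Fintype.card ι * Fintype.card P)
    (hXF : Disjoint X F) {x : ℕ} (hx : η * Fintype.card ι ≤ x) (hX : x ≤ X.card)
    (hR : s * R.card ≤ Fintype.card W) :
    ((univ.filter fun ω : ι → P => ∃ f : W → Λ, Cand a b S z ω F R f ∧
      ∀ p ∈ X, OK a b S ω f p).card : ℝ) ≤
      2 ^ Fintype.card W * l ^ x * (Fintype.card P : ℝ) ^ Fintype.card ι := by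
  have hPr : (0 : ℝ) < Fintype.card P := by exact_mod_cast hP
  set Q : (ι → P) → Prop := fun ω => ∃ f : W → Λ, Cand a b S z ω F R f ∧
      ∀ p ∈ X, OK a b S ω f p with hQ
  -- one labelling
  have h1 : ∀ f : W → Λ, ((univ.filter fun ξ : ι → P => ∀ p ∈ X,
      S p (f (a p (ξ p))) (f (b p (ξ p)))).card : ℝ) ≤
      l ^ x * (Fintype.card P : ℝ) ^ Fintype.card ι := by
    intro f
    have h2 := card_sat (a := a) (b := b) (S := S) f X
    have h3 : ∏ p ∈ X, ((cnt a b S f p : ℝ) / Fintype.card P) ≤ l ^ X.card := by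
      refine prod_small (fun p => by positivity) hl0 X ?_
      rw [← sum_div, div_le_iff₀ hPr]
      have h4 : ∑ p ∈ X, (cnt a b S f p : ℝ) ≤ ∑ p, (cnt a b S f p : ℝ) :=
        sum_le_sum_of_subset_of_nonneg (subset_univ _) fun _ _ _ => by positivity
      have h5 : (x : ℝ) ≤ X.card := by exact_mod_cast hX
      calc ∑ p ∈ X, (cnt a b S f p : ℝ) ≤ l * (η * Fintype.card ι) * Fintype.card P := by
            have := hcnt f
            nlinarith
        _ ≤ l * X.card * Fintype.card P := by
            gcongr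
            exact hx.trans h5
    rw [prod_div_distrib, prod_const, div_le_iff₀ (by positivity)] at h3
    have h6 : (0 : ℝ) < (Fintype.card P : ℝ) ^ X.card := by positivity
    refine le_of_mul_le_mul_right ?_ h6
    rw [h2]
    calc (∏ p ∈ X, (cnt a b S f p : ℝ)) * (Fintype.card P : ℝ) ^ Fintype.card ι
        ≤ (l ^ X.card * (Fintype.card P : ℝ) ^ X.card) *
          (Fintype.card P : ℝ) ^ Fintype.card ι :=
          mul_le_mul_of_nonneg_right h3 (by positivity)
      _ ≤ (l ^ x * (Fintype.card P : ℝ) ^ X.card) *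
          (Fintype.card P : ℝ) ^ Fintype.card ι := by
          have h7 := pow_le_pow_of_le_one hl0.le hl1 hX
          exact mul_le_mul_of_nonneg_right (mul_le_mul_of_nonneg_right h7 (by positivity))
            (by positivity)
      _ = _ := by ring
  -- the labels are determined by few of them
  have h2 : ((Fintype.card Λ ^ R.card : ℕ) : ℝ) ≤ 2 ^ Fintype.card W := by
    have : Fintype.card Λ ^ R.card ≤ 2 ^ Fintype.card W :=
      calc Fintype.card Λ ^ R.card ≤ (2 ^ s) ^ R.card := Nat.pow_le_pow_left hs _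
        _ = 2 ^ (s * R.card) := by rw [pow_mul]
        _ ≤ 2 ^ Fintype.card W := Nat.pow_le_pow_right (by norm_num) hR
    exact_mod_cast this
  -- resampling
  have h3 : ∀ ω : ι → P, ((univ.filter fun ξ : ι → P => Q (X.piecewise ξ ω)).card : ℝ) ≤
      2 ^ Fintype.card W * (l ^ x * (Fintype.card P : ℝ) ^ Fintype.card ι) := by
    intro ω
    have h4 : (univ.filter fun ξ : ι → P => Q (X.piecewise ξ ω)) ⊆
        (univ.filter fun f : W → Λ => Cand a b S z ω F R f).biUnion fun f =>
          univ.filter fun ξ : ι → P => ∀ p ∈ X, S p (f (a p (ξ p))) (f (b p (ξ p))) := by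
      intro ξ hξ
      obtain ⟨f, hf, hf'⟩ := (mem_filter.1 hξ).2
      rw [mem_biUnion]
      refine ⟨f, mem_filter.2 ⟨mem_univ _, (cand_congr (fun p hp => ?_) f).1 hf⟩,
        mem_filter.2 ⟨mem_univ _, fun p hp => ?_⟩⟩
      · rw [piecewise_eq_of_notMem _ _ _ (disjoint_right.1 hXF hp)]
      · have h5 := hf' p hp
        unfold OK at h5
        rwa [piecewise_eq_of_mem _ _ _ hp] at h5
    have h5 : ((univ.filter fun ξ : ι → P => Q (X.piecewise ξ ω)).card : ℝ) ≤
        ∑ f ∈ univ.filter fun f : W → Λ => Cand a b S z ω F R f,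
          ((univ.filter fun ξ : ι → P => ∀ p ∈ X,
            S p (f (a p (ξ p))) (f (b p (ξ p)))).card : ℝ) := by
      exact_mod_cast (card_le_card h4).trans card_biUnion_le
    refine h5.trans ((sum_le_sum fun f _ => h1 f).trans ?_)
    rw [sum_const, nsmul_eq_mul]
    refine mul_le_mul_of_nonneg_right ?_ (by positivity)
    refine le_trans ?_ h2
    exact_mod_cast card_cand hS hS'
  have h4 := resample X Q
  have h5 : ((univ.filter Q).card : ℝ) * Fintype.card (ι → P) ≤
      Fintype.card (ι → P) * (2 ^ Fintype.card W * (l ^ x *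
        (Fintype.card P : ℝ) ^ Fintype.card ι)) := by
    have h6 : ((univ.filter Q).card : ℝ) * Fintype.card (ι → P) =
        ∑ ω : ι → P, ((univ.filter fun ξ : ι → P => Q (X.piecewise ξ ω)).card : ℝ) := by
      exact_mod_cast h4
    rw [h6]
    refine (sum_le_sum fun ω _ => h3 ω).trans ?_
    rw [sum_const, card_univ, nsmul_eq_mul]
  have h6 : (0 : ℝ) < Fintype.card (ι → P) := by
    have : 0 < Fintype.card (ι → P) := by
      rw [Fintype.card_fun]
      exact Nat.pow_pos hP
    exact_mod_cast this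
  have h7 : ((univ.filter Q).card : ℝ) ≤ 2 ^ Fintype.card W * (l ^ x *
        (Fintype.card P : ℝ) ^ Fintype.card ι) := by
    refine le_of_mul_le_mul_right ?_ h6
    linarith
  linarith

open Classical in
/-- The union bound. -/
theorem card_bad (hP : 0 < Fintype.card P) (hS : ∀ p x y y', S p x y → S p x y' → y = y')
    (hS' : ∀ p x x' y, S p x y → S p x' y → x = x') {s : ℕ} (hs : Fintype.card Λ ≤ 2 ^ s)
    {l η : ℝ} (hl0 : 0 < l) (hl1 : l ≤ 1)
    (hcnt : ∀ f : W → Λ, (∑ p, (cnt a b S f p : ℝ)) ≤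
      l * η * Fintype.card ι * Fintype.card P) {x : ℕ} (hx : η * Fintype.card ι ≤ x) :
    ((univ.filter fun ω : ι → P => Bad a b S z s x ω).card : ℝ) ≤
      4 ^ Fintype.card ι * 4 ^ Fintype.card W * l ^ x *
        (Fintype.card P : ℝ) ^ Fintype.card ι := by
  have h1 : (univ.filter fun ω : ι → P => Bad a b S z s x ω) ⊆
      ((univ : Finset ((Finset ι × Finset ι) × Finset W)).filter fun t =>
        Disjoint t.1.1 t.1.2 ∧ x ≤ t.1.1.card ∧ s * t.2.card ≤ Fintype.card W).biUnion fun t =>
        univ.filter fun ω : ι → P => ∃ f : W → Λ, Cand a b S z ω t.1.2 t.2 f ∧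
          ∀ p ∈ t.1.1, OK a b S ω f p := by
    intro ω hω
    obtain ⟨X, F, hXF, hX, R, hR, f, hf, hf'⟩ := (mem_filter.1 hω).2
    rw [mem_biUnion]
    exact ⟨((X, F), R), mem_filter.2 ⟨mem_univ _, hXF, hX, hR⟩,
      mem_filter.2 ⟨mem_univ _, f, hf, hf'⟩⟩
  have h2 : ((univ.filter fun ω : ι → P => Bad a b S z s x ω).card : ℝ) ≤
      ∑ t ∈ (univ : Finset ((Finset ι × Finset ι) × Finset W)).filter fun t =>
        Disjoint t.1.1 t.1.2 ∧ x ≤ t.1.1.card ∧ s * t.2.card ≤ Fintype.card W,
        ((univ.filter fun ω : ι → P => ∃ f : W → Λ, Cand a b S z ω t.1.2 t.2 f ∧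
          ∀ p ∈ t.1.1, OK a b S ω f p).card : ℝ) := by
    exact_mod_cast (card_le_card h1).trans card_biUnion_le
  refine h2.trans ((sum_le_sum fun t ht => ?_).trans
    (sum_le_sum_of_subset_of_nonneg (f := fun _ : (Finset ι × Finset ι) × Finset W =>
      2 ^ Fintype.card W * l ^ x * (Fintype.card P : ℝ) ^ Fintype.card ι)
      (subset_univ _) fun _ _ _ => by positivity) |>.trans ?_)
  · obtain ⟨_, h3, h4, h5⟩ := mem_filter.1 ht
    exact card_bad_one hP hS hS' hs hl0 hl1 hcnt h3 hx h4 h5
  · rw [sum_const, card_univ, nsmul_eq_mul, Fintype.card_prod, Fintype.card_prod,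
      Fintype.card_finset, Fintype.card_finset]
    push_cast
    refine le_of_eq ?_
    have e1 : (4 : ℝ) ^ Fintype.card ι = 2 ^ Fintype.card ι * 2 ^ Fintype.card ι := by
      rw [← mul_pow]; norm_num
    have e2 : (4 : ℝ) ^ Fintype.card W = 2 ^ Fintype.card W * 2 ^ Fintype.card W := by
      rw [← mul_pow]; norm_num
    rw [e1, e2]
    ring

end Pool.Agent.H697.RT
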