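import Pool.Agent.H697.RT.LiftAbs

/-!
# Soundness of random lifts
-/

namespace Pool.Agent.H697.RT

open Finset Pool.Agent.H697.Exp Pool.Agent.H697.LF

set_option linter.unusedSectionVars false

variable {V0 T ι U V Λ : Type} {j : ℕ} [Fintype V0] [DecidableEq V0] [Fintype T] [DecidableEq T]
  [Fintype ι] [DecidableEq ι] [Fintype U] [DecidableEq U] [Fintype V] [DecidableEq V]
  [Fintype Λ] [DecidableEq Λ]
  {G0 : SimpleGraph V0} {src tgt : T → V0} {u : ι → U} {v : ι → V} {col : ι → T × Fin j}

theorem cnt_mono {P W : Type} [Fintype P] {a b : ι → P → W} {S S' : ι → Λ → Λ → Prop} {p : ι}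
    (h : ∀ x y, S' p x y → S p x y) (f : W → Λ) : cnt a b S' f p ≤ cnt a b S f p := by
  classical
  unfold cnt
  exact card_le_card fun x hx => mem_filter.2 ⟨mem_univ _, h _ _ (mem_filter.1 hx).2⟩

open Classical in
theorem sum_cnt (S : ι → Λ → Λ → Prop) {δ : ℝ} (hval : ∀ (L : U → Λ) (M : V → Λ),
      ((univ.filter fun p => S p (L (u p)) (M (v p))).card : ℝ) ≤ δ * Fintype.card ι)
    (f : WW V0 U V j → Λ) :
    (∑ p, (cnt (aa src u V col) (bb tgt U v col) S f p : ℝ)) ≤
      Fintype.card T * δ * Fintype.card ι * Fintype.card (Fin j × Fin j) := by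
  have h1 : (∑ p, (cnt (aa src u V col) (bb tgt U v col) S f p : ℝ)) =
      ∑ x : Fin j × Fin j, ∑ t : T, ((univ.filter fun p => (col p).1 = t ∧
        S p (f (Sum.inl (src t, u p, x.1))) (f (Sum.inr (tgt t, v p, x.2)))).card : ℝ) := by
    have h2 : ∀ p, (cnt (aa src u V col) (bb tgt U v col) S f p : ℝ) =
        ∑ x : Fin j × Fin j, ∑ t : T, (if (col p).1 = t ∧
        S p (f (Sum.inl (src t, u p, x.1))) (f (Sum.inr (tgt t, v p, x.2))) then 1 else 0) := by
      intro p
      unfold cnt
      rw [card_filter]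
      push_cast
      refine sum_congr rfl fun x _ => ?_
      rw [sum_eq_single (col p).1]
      · unfold aa bb
        simp only [true_and]
      · intro t _ ht
        rw [if_neg]
        rintro ⟨h, _⟩
        exact ht h.symm
      · intro h
        exact absurd (mem_univ _) h
    rw [sum_congr rfl fun p _ => h2 p, sum_comm]
    refine sum_congr rfl fun x _ => ?_
    rw [sum_comm]
    refine sum_congr rfl fun t _ => ?_
    rw [card_filter]
    push_cast
    rfl
  rw [h1]
  have h2 : ∀ (x : Fin j × Fin j) (t : T), ((univ.filter fun p => (col p).1 = t ∧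
      S p (f (Sum.inl (src t, u p, x.1))) (f (Sum.inr (tgt t, v p, x.2)))).card : ℝ) ≤
      δ * Fintype.card ι := by
    intro x t
    refine le_trans ?_ (hval (fun z => f (Sum.inl (src t, z, x.1)))
      (fun z => f (Sum.inr (tgt t, z, x.2))))
    have : (univ.filter fun p => (col p).1 = t ∧
        S p (f (Sum.inl (src t, u p, x.1))) (f (Sum.inr (tgt t, v p, x.2)))) ⊆
        univ.filter fun p => S p (f (Sum.inl (src t, u p, x.1)))
          (f (Sum.inr (tgt t, v p, x.2))) := by
      intro p hp
      exact mem_filter.2 ⟨mem_univ _, (mem_filter.1 hp).2.2⟩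
    exact_mod_cast card_le_card this
  refine (sum_le_sum fun x _ => sum_le_sum fun t _ => h2 x t).trans (le_of_eq ?_)
  rw [sum_const, sum_const, card_univ, card_univ, nsmul_eq_mul, nsmul_eq_mul]
  ring

/-- The number of constraints of one type. -/
theorem card_type (hc : ColSys u v col) (t : T) :
    (univ.filter fun p => (col p).1 = t).card = Fintype.card U * j := by
  have h1 : (univ.filter fun p => (col p).1 = t).card =
      (univ : Finset (U × Fin j)).card := by
    refine card_bij (fun p _ => (u p, (col p).2)) (fun _ _ => mem_univ _) ?_ ?_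
    · intro p hp p' hp' h
      simp only [Prod.mk.injEq] at h
      exact hc.injL _ _ h.1 (Prod.ext ((mem_filter.1 hp).2.trans (mem_filter.1 hp').2.symm) h.2)
    · rintro ⟨z, i⟩ _
      obtain ⟨p, h1, h2⟩ := hc.exL z (t, i)
      exact ⟨p, mem_filter.2 ⟨mem_univ _, by rw [h2]⟩, by rw [h1, h2]⟩
  rw [h1, card_univ, Fintype.card_prod, Fintype.card_fin]

theorem card_typeR (hc : ColSys u v col) (t : T) :
    (univ.filter fun p => (col p).1 = t).card = Fintype.card V * j := by
  have h1 : (univ.filter fun p => (col p).1 = t).card =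
      (univ : Finset (V × Fin j)).card := by
    refine card_bij (fun p _ => (v p, (col p).2)) (fun _ _ => mem_univ _) ?_ ?_
    · intro p hp p' hp' h
      simp only [Prod.mk.injEq] at h
      exact hc.injR _ _ h.1 (Prod.ext ((mem_filter.1 hp).2.trans (mem_filter.1 hp').2.symm) h.2)
    · rintro ⟨z, i⟩ _
      obtain ⟨p, h1, h2⟩ := hc.exR z (t, i)
      exact ⟨p, mem_filter.2 ⟨mem_univ _, by rw [h2]⟩, by rw [h1, h2]⟩
  rw [h1, card_univ, Fintype.card_prod, Fintype.card_fin]

theorem card_types (hc : ColSys u v col) (Q : Finset T) :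
    (univ.filter fun p => (col p).1 ∈ Q).card = Q.card * (Fintype.card U * j) := by
  have h1 : (univ.filter fun p => (col p).1 ∈ Q) =
      Q.biUnion fun t => univ.filter fun p => (col p).1 = t := by
    ext p
    simp
  rw [h1, card_biUnion]
  · rw [sum_congr rfl fun t _ => card_type hc t, sum_const, smul_eq_mul]
  · intro t _ t' _ hne
    rw [Function.onFun, disjoint_left]
    intro p hp hp'
    exact hne ((mem_filter.1 hp).2.symm.trans (mem_filter.1 hp').2)

theorem card_all (hc : ColSys u v col) :
    Fintype.card U * (Fintype.card T * j) = Fintype.card ι := by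
  have h := card_types hc (univ : Finset T)
  have h1 : (univ.filter fun p => (col p).1 ∈ (univ : Finset T)) = (univ : Finset ι) := by
    ext p; simp
  rw [h1, card_univ, card_univ] at h
  rw [h]
  ring

theorem card_UV (hc : ColSys u v col) (hT : Nonempty T) :
    Fintype.card V * j = Fintype.card U * j := by
  obtain ⟨t⟩ := hT
  rw [← card_type hc t, ← card_typeR hc t]

open Classical in
/-- The soundness of random lifts. -/
theorem sound (hc : ColSys u v col) (hT : Nonempty T) (hj : 0 < j)
    (hι : Nonempty ι) (hsrc : Function.Surjective src)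
    {Y : Type} {K : SimpleGraph Y} {s : ℕ} (hK : GirthGT K s) (fU : U → Y) (fV : V → Y)
    (hfV : Function.Injective fV) (hfU : Function.Injective fU)
    (hadj : ∀ p, K.Adj (fU (u p)) (fV (v p))) (hs : Fintype.card Λ ≤ 2 ^ s)
    (S : ι → Λ → Λ → Prop) {D : ℕ} (hD0 : 0 < D) (rk : ι → Λ → Fin D)
    (hS : ∀ p x y y', S p x y → S p x y' → y = y')
    (hS' : ∀ p x x' y, S p x y → S p x' y → rk p x = rk p x' → x = x')
    {δ η : ℝ} (hη : 0 < η) {κ : ℕ} (hκ : 1 ≤ κ * η)
    (hδ : Fintype.card T * δ ≤ (1 / (4096 * D)) ^ κ * η)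
    (hval : ∀ (L : U → Λ) (M : V → Λ),
      ((univ.filter fun p => S p (L (u p)) (M (v p))).card : ℝ) ≤ δ * Fintype.card ι)
    (S0 : Finset V0) (z : Λ)
    {m b : ℕ} (e : (U ⊕ V) × Fin b → Fin m) (he : Function.Injective e)
    {tb : (Fin b → Bool) → Loc T j} (htb : ∀ l : Loc T j,
      (univ.filter fun a => tb a = l).card * Fintype.card (Loc T j) ≤ 2 * 2 ^ b) :
    (univ.filter fun r : Fin m → Bool => ∃ f : WW V0 U V j → Λ,
      ((2 * S0.card + (univ.filter fun t => ¬ (src t ∈ S0 ∧ tgt t ∈ S0)).card : ℝ) /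
        Fintype.card T + η) * Fintype.card ι ≤
      ((univ.filter fun p => OK (aa src u V col) (bb tgt U v col) S
        (om u v col fun w => tb fun k => r (e (w, k))) f p).card : ℝ)).card *
          2 ^ Fintype.card ι ≤ 2 ^ m := by
  set N := Fintype.card ι with hN
  have hNpos : 0 < N := Fintype.card_pos
  have hNr : (0 : ℝ) < N := by exact_mod_cast hNpos
  have hTpos : 0 < Fintype.card T := Fintype.card_pos
  have hTr : (0 : ℝ) < Fintype.card T := by exact_mod_cast hTpos
  have hDr : (1 : ℝ) ≤ D := by exact_mod_cast hD0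
  set x := ⌈η * N⌉₊ with hx
  have hx1 : η * N ≤ x := Nat.le_ceil _
  set l : ℝ := (1 / (4096 * D)) ^ κ with hl
  have hl0 : 0 < l := by positivity
  have hl1 : l ≤ 1 := by
    refine pow_le_one₀ (by positivity) ?_
    rw [div_le_one (by positivity)]
    linarith
  have hcU := card_all hc
  have hcUV := card_UV hc hT
  have hcV : Fintype.card V * (Fintype.card T * j) = N := by
    calc Fintype.card V * (Fintype.card T * j) = (Fintype.card V * j) * Fintype.card T := by ring
      _ = (Fintype.card U * j) * Fintype.card T := by rw [hcUV]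
      _ = N := by rw [hN, ← hcU]; ring
  have hTj : 1 ≤ Fintype.card T * j := Nat.mul_pos hTpos hj
  have hU1 : Fintype.card U ≤ N := by
    rw [hN, ← hcU]; exact Nat.le_mul_of_pos_right _ hTj
  have hV1 : Fintype.card V ≤ N := by
    calc Fintype.card V ≤ Fintype.card V * (Fintype.card T * j) := Nat.le_mul_of_pos_right _ hTj
      _ = N := hcV
  have hV0T : Fintype.card V0 ≤ Fintype.card T := Fintype.card_le_of_surjective _ hsrc
  have hWcard : Fintype.card (WW V0 U V j) ≤ 2 * N := by
    rw [Fintype.card_sum, Fintype.card_prod, Fintype.card_prod, Fintype.card_prod,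
      Fintype.card_prod, Fintype.card_fin]
    have h1 : Fintype.card V0 * (Fintype.card U * j) ≤ N := by
      calc Fintype.card V0 * (Fintype.card U * j) ≤ Fintype.card T * (Fintype.card U * j) :=
            Nat.mul_le_mul_right _ hV0T
        _ = N := by rw [hN, ← hcU]; ring
    rw [hcUV]
    omega
  -- hints
  set Sh : (ι → Fin D) → ι → Λ → Λ → Prop := fun h p x y => S p x y ∧ rk p x = h p with hSh
  set B : (ι → Fin j × Fin j) → Prop := fun ω => ∃ h : ι → Fin D,
    Bad (aa src u V col) (bb tgt U v col) (Sh h) z s x ω with hB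
  have hP : 0 < Fintype.card (Fin j × Fin j) := by
    rw [Fintype.card_prod, Fintype.card_fin]
    exact Nat.mul_pos hj hj
  have hone : ∀ h : ι → Fin D, ((univ.filter fun ω : ι → Fin j × Fin j =>
      Bad (aa src u V col) (bb tgt U v col) (Sh h) z s x ω).card : ℝ) ≤
      4 ^ N * 4 ^ Fintype.card (WW V0 U V j) * l ^ x *
        (Fintype.card (Fin j × Fin j) : ℝ) ^ N := by
    intro h
    refine card_bad (a := aa src u V col) (b := bb tgt U v col) (S := Sh h) (η := η) hP
      (fun p x y y' h1 h2 => hS p x y y' h1.1 h2.1)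
      (fun p x x' y h1 h2 => hS' p x x' y h1.1 h2.1 (h1.2.trans h2.2.symm)) hs hl0 hl1 ?_ hx1
    intro f
    have h1 := sum_cnt (src := src) (tgt := tgt) (u := u) (v := v) (col := col) S hval f
    have h2 : (∑ p, (cnt (aa src u V col) (bb tgt U v col) (Sh h) f p : ℝ)) ≤
        ∑ p, (cnt (aa src u V col) (bb tgt U v col) S f p : ℝ) := by
      refine sum_le_sum fun p _ => ?_
      have h3 : cnt (aa src u V col) (bb tgt U v col) (Sh h) f p ≤
          cnt (aa src u V col) (bb tgt U v col) S f p :=
        cnt_mono (S := S) (S' := Sh h) (fun x y h' => h'.1) f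
      exact_mod_cast h3
    refine h2.trans (h1.trans ?_)
    gcongr
  have hBcard : ((univ.filter B).card : ℝ) ≤ ((64 * D) ^ N * l ^ x) *
      (Fintype.card (Fin j × Fin j) : ℝ) ^ N := by
    have h1 : univ.filter B ⊆ (univ : Finset (ι → Fin D)).biUnion fun h =>
        univ.filter fun ω : ι → Fin j × Fin j =>
          Bad (aa src u V col) (bb tgt U v col) (Sh h) z s x ω := by
      intro ω hω
      obtain ⟨h, hh⟩ := (mem_filter.1 hω).2
      exact mem_biUnion.2 ⟨h, mem_univ _, mem_filter.2 ⟨mem_univ _, hh⟩⟩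
    have h2 : ((univ.filter B).card : ℝ) ≤ ∑ h : ι → Fin D,
        ((univ.filter fun ω : ι → Fin j × Fin j =>
          Bad (aa src u V col) (bb tgt U v col) (Sh h) z s x ω).card : ℝ) := by
      exact_mod_cast (card_le_card h1).trans card_biUnion_le
    refine h2.trans ((sum_le_sum fun h _ => hone h).trans ?_)
    rw [sum_const, card_univ, Fintype.card_fun, Fintype.card_fin, nsmul_eq_mul]
    push_cast
    have h3 : (4 : ℝ) ^ Fintype.card (WW V0 U V j) ≤ 16 ^ N := by
      calc (4 : ℝ) ^ Fintype.card (WW V0 U V j) ≤ 4 ^ (2 * N) :=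
            pow_le_pow_right₀ (by norm_num) hWcard
        _ = 16 ^ N := by rw [pow_mul]; norm_num
    calc (D : ℝ) ^ N * (4 ^ N * 4 ^ Fintype.card (WW V0 U V j) * l ^ x *
          (Fintype.card (Fin j × Fin j) : ℝ) ^ N)
        ≤ (D : ℝ) ^ N * (4 ^ N * 16 ^ N * l ^ x *
          (Fintype.card (Fin j × Fin j) : ℝ) ^ N) := by gcongr
      _ = _ := by
          have e64 : (64 * (D : ℝ)) ^ N = 4 ^ N * 16 ^ N * D ^ N := by
            rw [← mul_pow, ← mul_pow]; norm_num
          rw [e64]
          ring
  have hfin := card_bits (u := u) (v := v) (col := col) e he htb hc.exL hc.exR hcU hcV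
    (by omega) hj B hBcard (by positivity)
  -- many satisfied constraints imply that the event holds
  have hsub : (univ.filter fun r : Fin m → Bool => ∃ f : WW V0 U V j → Λ,
      ((2 * S0.card + (univ.filter fun t => ¬ (src t ∈ S0 ∧ tgt t ∈ S0)).card : ℝ) /
        Fintype.card T + η) * Fintype.card ι ≤
      ((univ.filter fun p => OK (aa src u V col) (bb tgt U v col) S
        (om u v col fun w => tb fun k => r (e (w, k))) f p).card : ℝ)) ⊆
      univ.filter fun r : Fin m → Bool => B (om u v col fun w => tb fun k => r (e (w, k))) := by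
    intro r hr
    obtain ⟨f, hf⟩ := (mem_filter.1 hr).2
    refine mem_filter.2 ⟨mem_univ _, ?_⟩
    set g : U ⊕ V → Loc T j := fun w => tb fun k => r (e (w, k)) with hg
    refine ⟨fun p => rk p (f (aa src u V col p (om u v col g p))), ?_⟩
    set Hall := univ.filter fun p => OK (aa src u V col) (bb tgt U v col) S (om u v col g) f p
    set Tin : Finset T := univ.filter fun t => src t ∈ S0 ∧ tgt t ∈ S0 with hTin
    set Tout : Finset T := univ.filter fun t => ¬ (src t ∈ S0 ∧ tgt t ∈ S0) with hTout
    set H := Hall.filter fun p => (col p).1 ∈ Tin with hH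
    set W0 : Finset (WW V0 U V j) := univ.filter fun w => base w ∈ S0 with hW0
    have hW0card : W0.card = 2 * S0.card * (Fintype.card U * j) := by
      have h1 : W0 = (S0 ×ˢ (univ : Finset (U × Fin j))).disjSum
          (S0 ×ˢ (univ : Finset (V × Fin j))) := by
        ext w
        rw [hW0, mem_filter]
        cases w with
        | inl l => simp [base]
        | inr l => simp [base]
      rw [h1, card_disjSum, card_product, card_product, card_univ, card_univ, Fintype.card_prod,
        Fintype.card_prod, Fintype.card_fin, hcUV]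
      ring
    have hH1 : Hall.card ≤ H.card + Tout.card * (Fintype.card U * j) := by
      have h1 : H.card + (Hall.filter fun p => ¬ (col p).1 ∈ Tin).card = Hall.card :=
        card_filter_add_card_filter_not (s := Hall) (fun p => (col p).1 ∈ Tin)
      have h2 : (Hall.filter fun p => ¬ (col p).1 ∈ Tin).card ≤
          (univ.filter fun p => (col p).1 ∈ Tout).card := by
        refine card_le_card fun p hp => ?_
        rw [mem_filter]
        refine ⟨mem_univ _, ?_⟩
        have h3 := (mem_filter.1 hp).2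
        rw [hTin, mem_filter] at h3
        rw [hTout, mem_filter]
        exact ⟨mem_univ _, fun h => h3 ⟨mem_univ _, h⟩⟩
      rw [card_types hc Tout] at h2
      omega
    have hH2 : W0.card + x ≤ H.card := by
      have h1 : ((2 * S0.card + Tout.card : ℝ) / Fintype.card T + η) * N ≤ Hall.card := hf
      have h2 : (N : ℝ) = Fintype.card T * (Fintype.card U * j) := by
        rw [hN, ← hcU]; push_cast; ring
      have h3 : ((2 * S0.card + Tout.card : ℝ) / Fintype.card T) * N =
          (2 * S0.card + Tout.card) * (Fintype.card U * j) := by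
        rw [h2]
        field_simp
      rw [add_mul, h3] at h1
      have h4 : (Hall.card : ℝ) ≤ H.card + Tout.card * (Fintype.card U * j) := by
        exact_mod_cast hH1
      have h5 : η * N ≤ (H.card : ℝ) - W0.card := by
        rw [hW0card]
        push_cast
        linarith
      have h6 : W0.card ≤ H.card := by
        have : (W0.card : ℝ) ≤ H.card := by
          have : 0 ≤ η * (N : ℝ) := by positivity
          linarith
        exact_mod_cast this
      have h7 : x ≤ H.card - W0.card := by
        rw [hx]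
        apply Nat.ceil_le.2
        rw [Nat.cast_sub h6]
        exact h5
      omega
    refine exists_bad (f := f) (H := H) (W0 := W0) ?_ ?_ (gr_girth hc g hK fU fV hfV hfU hadj)
      ?_ hH2 ?_
    · intro p h
      unfold aa bb at h
      cases h
    · intro p p' h
      rw [Sym2.eq_iff] at h
      rcases h with ⟨h1, h2⟩ | ⟨h1, _⟩
      · unfold aa at h1
        unfold bb at h2
        have h3 := congrArg (fun l : V0 × U × Fin j => l.2.1) (Sum.inl_injective h1)
        have h4 := congrArg (fun l : V0 × V × Fin j => l.2.1) (Sum.inr_injective h2)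
        exact hc.simple _ _ h3 h4
      · unfold aa bb at h1
        cases h1
    · intro p hp
      have h1 := (mem_filter.1 hp).2
      rw [hTin, mem_filter] at h1
      exact ⟨mem_filter.2 ⟨mem_univ _, h1.2.1⟩, mem_filter.2 ⟨mem_univ _, h1.2.2⟩⟩
    · intro p hp
      exact ⟨(mem_filter.1 (mem_filter.1 hp).1).2, rfl⟩
  have hle : ((univ.filter fun r : Fin m → Bool => ∃ f : WW V0 U V j → Λ,
      ((2 * S0.card + (univ.filter fun t => ¬ (src t ∈ S0 ∧ tgt t ∈ S0)).card : ℝ) /
        Fintype.card T + η) * Fintype.card ι ≤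
      ((univ.filter fun p => OK (aa src u V col) (bb tgt U v col) S
        (om u v col fun w => tb fun k => r (e (w, k))) f p).card : ℝ)).card : ℝ) ≤
      32 ^ N * ((64 * D) ^ N * l ^ x) * 2 ^ m := by
    refine le_trans ?_ hfin
    exact_mod_cast card_le_card hsub
  have hlx : l ^ x ≤ (1 / (4096 * D)) ^ N := by
    rw [hl, ← pow_mul]
    refine pow_le_pow_of_le_one (by positivity) ?_ ?_
    · rw [div_le_one (by positivity)]
      linarith
    · have h1 : (N : ℝ) ≤ κ * x := by
        calc (N : ℝ) = 1 * N := (one_mul _).symm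
          _ ≤ κ * η * N := by gcongr
          _ = κ * (η * N) := by ring
          _ ≤ κ * x := by gcongr
      exact_mod_cast h1
  have hhalf : (32 : ℝ) ^ N * ((64 * D) ^ N * l ^ x) ≤ (1 / 2) ^ N := by
    calc (32 : ℝ) ^ N * ((64 * D) ^ N * l ^ x) ≤ 32 ^ N * ((64 * D) ^ N *
          (1 / (4096 * D)) ^ N) := by gcongr
      _ = (1 / 2) ^ N := by
          rw [← mul_pow, ← mul_pow]
          congr 1
          field_simp
          norm_num
  have hfin2 : ((univ.filter fun r : Fin m → Bool => ∃ f : WW V0 U V j → Λ,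
      ((2 * S0.card + (univ.filter fun t => ¬ (src t ∈ S0 ∧ tgt t ∈ S0)).card : ℝ) /
        Fintype.card T + η) * Fintype.card ι ≤
      ((univ.filter fun p => OK (aa src u V col) (bb tgt U v col) S
        (om u v col fun w => tb fun k => r (e (w, k))) f p).card : ℝ)).card : ℝ) *
          2 ^ N ≤ 2 ^ m := by
    have h2m : (0 : ℝ) < 2 ^ m := by positivity
    calc _ ≤ 32 ^ N * ((64 * D) ^ N * l ^ x) * 2 ^ m * 2 ^ N := by gcongr
      _ ≤ (1 / 2) ^ N * 2 ^ m * 2 ^ N := by gcongr
      _ = (1 / 2 * 2) ^ N * 2 ^ m := by rw [mul_pow]; ring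
      _ = 2 ^ m := by norm_num
  exact_mod_cast hfin2

theorem natCard_filter {α : Type} [Fintype α] (Q : α → Prop) [DecidablePred Q] :
    Nat.card {a // Q a} = (univ.filter Q).card := by
  rw [Nat.card_eq_fintype_card, Fintype.card_subtype]

/-- The soundness of random lifts. -/
theorem sound' (hc : ColSys u v col) (hT : Nonempty T) (hj : 0 < j)
    (hι : Nonempty ι) (hsrc : Function.Surjective src)
    {Y : Type} {K : SimpleGraph Y} {s : ℕ} (hK : GirthGT K s) (fU : U → Y) (fV : V → Y)
    (hfV : Function.Injective fV) (hfU : Function.Injective fU)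
    (hadj : ∀ p, K.Adj (fU (u p)) (fV (v p))) (hs : Fintype.card Λ ≤ 2 ^ s)
    (S : ι → Λ → Λ → Prop) {D : ℕ} (hD0 : 0 < D) (rk : ι → Λ → Fin D)
    (hS : ∀ p x y y', S p x y → S p x y' → y = y')
    (hS' : ∀ p x x' y, S p x y → S p x' y → rk p x = rk p x' → x = x')
    {δ η : ℝ} (hη : 0 < η) {κ : ℕ} (hκ : 1 ≤ κ * η)
    (hδ : Fintype.card T * δ ≤ (1 / (4096 * D)) ^ κ * η)
    (hval : ∀ (L : U → Λ) (M : V → Λ),
      (Nat.card {p // S p (L (u p)) (M (v p))} : ℝ) ≤ δ * Fintype.card ι)
    (S0 : Finset V0) {nout : ℕ} (hnout : Nat.card {t // ¬ (src t ∈ S0 ∧ tgt t ∈ S0)} = nout)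
    (z : Λ) {m b : ℕ} (e : (U ⊕ V) × Fin b → Fin m) (he : Function.Injective e)
    {tb : (Fin b → Bool) → Loc T j} (htb : ∀ l : Loc T j,
      Nat.card {a // tb a = l} * Fintype.card (Loc T j) ≤ 2 * 2 ^ b) :
    2 ^ Fintype.card ι * Nat.card {r : Fin m → Bool // ∃ f : WW V0 U V j → Λ,
      ((2 * S0.card + nout : ℝ) / Fintype.card T + η) * Fintype.card ι ≤
      (Nat.card {p // OK (aa src u V col) (bb tgt U v col) S
        (om u v col fun w => tb fun k => r (e (w, k))) f p} : ℝ)} ≤ 2 ^ m := by
  classical
  have h := sound (src := src) (tgt := tgt) hc hT hj hι hsrc hK fU fV hfV hfU hadj hs S hD0 rk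
    hS hS' hη hκ hδ (fun L M => by
      have h1 := hval L M
      rw [natCard_filter] at h1
      convert h1) S0 z e he (tb := tb) (fun l => by
      have h1 := htb l
      rw [natCard_filter] at h1
      exact h1)
  rw [mul_comm, natCard_filter]
  refine le_trans (Nat.mul_le_mul_right _ (card_le_card fun r hr => ?_)) h
  obtain ⟨f, hf⟩ := (mem_filter.1 hr).2
  refine mem_filter.2 ⟨mem_univ _, f, ?_⟩
  rw [natCard_filter] at hf
  rw [natCard_filter] at hnout
  rw [← hnout] at hf
  convert hf

end Pool.Agent.H697.RT
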