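import Pool.Agent.H697.RT.Base
import Pool.Agent.H697.RT.Sound

/-!
# The random lift of a coloured game
-/

namespace Pool.Agent.H697.RT

open Finset Pool.Agent.NPC Pool.Agent.H697.Exp Pool.Agent.H697.UG Pool.Agent.H697.Red
  Pool.Agent.H697.Forest Pool.Agent.H697.LF

/-- A block of `b` bits. -/
def blk (b : ℕ) (r : List Bool) (i : ℕ) : List Bool :=
  (List.range b).map fun k => (r[i * b + k]?).getD false

/-- The first edge at a vertex. -/
def fi (k : Edge → ℕ) (J : Game) (n : ℕ) : ℕ :=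
  (((J.zipIdx.filter fun ep => decide (k ep.1 = n)).map Prod.snd).head?).getD 0

/-- The new edge. -/
def rle (b : ℕ) (cd : Bool → List Bool × ℕ → ℕ) (J : Game) (r : List Bool) (x : Edge × ℕ) : Edge :=
  ((Nat.pair (kL x.1) (cd false (blk b r (fi kL J (kL x.1)), x.2)),
    Nat.pair (kR x.1) (cd true (blk b r (J.length + fi kR J (kR x.1)), x.2))), x.1.2)

/-- The new game. -/
def RL (b : ℕ) (cd : Bool → List Bool × ℕ → ℕ) (cf : Edge → ℕ) (J : Game) (r : List Bool) :
    Game := J.map fun e => rle b cd J r (e, cf e)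

/-! ### Running time -/

/-- Finite functions. -/
theorem poly_finite {α β : Type} [TEnc α] [TEnc β] [DecidableEq α] (S : List α) (g : α → β)
    (b0 : β) : Poly (fun x => if x ∈ S then g x else b0) := by
  induction S with
  | nil => exact (NPC.Poly.const b0).congr fun x => by simp
  | cons a S ih =>
    refine (Poly.ite (p := fun x => x = a) (Poly.decide_eq Poly.id (NPC.Poly.const a))
      (NPC.Poly.const (g a)) ih).congr fun x => ?_
    by_cases h : x = a
    · subst h; simp
    · simp [h]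

section
variable {α : Type} [TEnc α]

theorem poly_blk (b : ℕ) {r : α → List Bool} {i : α → ℕ} (hr : Poly r) (hi : Poly i) :
    Poly (fun a => blk b (r a) (i a)) := by
  unfold blk
  refine NPC.Poly.map (F := fun (a : α) (k : ℕ) => ((r a)[i a * b + k]?).getD false)
    (NPC.Poly.const (List.range b)) ?_
  have h1 : Poly (fun p : α × ℕ => i p.1 * b + p.2) :=
    Poly.add (Poly.mul (hi.comp (Poly.fst Poly.id)) (NPC.Poly.const b)) (Poly.snd Poly.id)
  have h2 : Poly (fun p : α × ℕ => (r p.1)[i p.1 * b + p.2]?) :=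
    Poly.getElem? (hr.comp (Poly.fst Poly.id)) h1
  refine (Poly.optCases (g := fun _ => false) (h := fun _ c => c) h2 (NPC.Poly.const false)
    (Poly.snd Poly.id)).congr fun p => ?_
  cases (r p.1)[i p.1 * b + p.2]? <;> rfl

theorem poly_fi {k : Edge → ℕ} (hk : Poly k) {J : α → Game} {n : α → ℕ} (hJ : Poly J)
    (hn : Poly n) : Poly (fun a => fi k (J a) (n a)) := by
  unfold fi
  refine Poly.head?_getD (NPC.Poly.map (F := fun (_ : α) (ep : Edge × ℕ) => ep.2) ?_ ?_) 0
  · refine Poly.filter (p := fun a (ep : Edge × ℕ) => decide (k ep.1 = n a)) (Poly.zipIdx hJ) ?_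
    exact Poly.decide_eq (hk.comp (Poly.fst (Poly.snd Poly.id))) (hn.comp (Poly.fst Poly.id))
  · exact Poly.snd (Poly.snd Poly.id)

theorem poly_rle (b : ℕ) {cd : Bool → List Bool × ℕ → ℕ} (hcd : ∀ s, Poly (cd s))
    {J : α → Game} {r : α → List Bool} {x : α → Edge × ℕ} (hJ : Poly J) (hr : Poly r)
    (hx : Poly x) : Poly (fun a => rle b cd (J a) (r a) (x a)) := by
  unfold rle
  have hL : Poly (fun a => kL (x a).1) := poly_kL.comp (Poly.fst hx)
  have hR : Poly (fun a => kR (x a).1) := poly_kR.comp (Poly.fst hx)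
  refine Poly.pair (Poly.pair (poly_pair hL ((hcd false).comp (Poly.pair
    (poly_blk b hr (poly_fi poly_kL hJ hL)) (Poly.snd hx)))) (poly_pair hR ((hcd true).comp
    (Poly.pair (poly_blk b hr (Poly.add (Poly.length hJ) (poly_fi poly_kR hJ hR)))
      (Poly.snd hx))))) (Poly.snd (Poly.fst hx))

theorem poly_RL (b : ℕ) {cd : Bool → List Bool × ℕ → ℕ} (hcd : ∀ s, Poly (cd s)) {cf : Edge → ℕ}
    {F : Game → Game} (hF : Poly fun I => (F I).map fun e => (e, cf e)) :
    Poly (fun p : Game × List Bool => RL b cd cf (F p.1) p.2) := by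
  have h1 : Poly F := by
    refine (NPC.Poly.map (F := fun (_ : Game) (x : Edge × ℕ) => x.1) hF
      (Poly.fst (Poly.snd Poly.id))).congr fun I => ?_
    simp [Function.comp_def]
  have h2 := NPC.Poly.map (F := fun (p : Game × List Bool) (x : Edge × ℕ) =>
    rle b cd (F p.1) p.2 x) (hF.comp (Poly.fst (Poly.id (α := Game × List Bool)))) (poly_rle b hcd
      (h1.comp (Poly.fst (Poly.fst Poly.id))) (Poly.snd (Poly.fst Poly.id)) (Poly.snd Poly.id))
  refine h2.congr fun p => ?_
  unfold RL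
  rw [List.map_map]
  rfl

end

/-! ### First edges -/

theorem fi_spec {k : Edge → ℕ} {J : Game} {n : ℕ} (h : ∃ e ∈ J, k e = n) :
    ∃ h : fi k J n < J.length, k J[fi k J n] = n := by
  obtain ⟨e, he, hn⟩ := h
  obtain ⟨i, hi, rfl⟩ := List.mem_iff_getElem.1 he
  set l := J.zipIdx.filter fun ep => decide (k ep.1 = n) with hl
  have hne : l ≠ [] := by
    intro h0
    have h1 : (J[i], i) ∈ l := by
      rw [hl, List.mem_filter]
      refine ⟨?_, by simp [hn]⟩
      rw [List.mem_iff_getElem]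
      exact ⟨i, by simpa using hi, by simp⟩
    rw [h0] at h1
    simp at h1
  obtain ⟨ep, t, ht⟩ := List.exists_cons_of_ne_nil hne
  have hmem : ep ∈ l := by rw [ht]; simp
  have hfi : fi k J n = ep.2 := by
    unfold fi
    rw [← hl, ht]
    rfl
  rw [hl, List.mem_filter] at hmem
  obtain ⟨h1, h2⟩ := hmem
  obtain ⟨e, p⟩ := ep
  obtain ⟨h3, h4⟩ := List.mem_zipIdx' h1
  rw [decide_eq_true_eq] at h2
  have h3' : fi k J n < J.length := by rw [hfi]; exact h3
  refine ⟨h3', ?_⟩
  have h5 : J[fi k J n] = e := by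
    simp only [hfi]
    exact h4.symm
  rw [h5]
  exact h2

/-! ### The coloured constraint graph -/

section
variable {J : Game} {T j : ℕ} {cf : Edge → ℕ}

/-- The left end of an edge. -/
def uu (J : Game) (p : Fin J.length) : {n // n ∈ lefts J} :=
  ⟨kL J[p], by unfold lefts; rw [List.mem_toFinset]; exact List.mem_map_of_mem (List.getElem_mem _)⟩

/-- The right end of an edge. -/
def vv (J : Game) (p : Fin J.length) : {n // n ∈ rights J} :=
  ⟨kR J[p], by unfold rights; rw [List.mem_toFinset]; exact List.mem_map_of_mem (List.getElem_mem _)⟩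

/-- The colour of an edge. -/
def cc (hj : 0 < j) (hc : Colored (T * j) cf J) (p : Fin J.length) : Fin T × Fin j :=
  (⟨cf J[p] / j, by
    have h := hc.lt J[p] (List.getElem_mem _)
    rwa [Nat.div_lt_iff_lt_mul hj]⟩, ⟨cf J[p] % j, Nat.mod_lt _ hj⟩)

theorem cc_eq (hj : 0 < j) (hc : Colored (T * j) cf J) {p p' : Fin J.length}
    (h : cc hj hc p = cc hj hc p') : cf J[p] = cf J[p'] := by
  unfold cc at h
  simp only [Prod.mk.injEq, Fin.mk.injEq] at h
  rw [← Nat.div_add_mod (cf J[p]) j, ← Nat.div_add_mod (cf J[p']) j, h.1, h.2]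

theorem pos_eq (hS : Simple J) {p p' : Fin J.length} (h : (J[p]).1 = (J[p']).1) : p = p' := by
  have h7 := List.nodup_iff_injective_get.1 hS
  have h8 : (⟨(p : ℕ), by simp⟩ : Fin (J.map Prod.fst).length) = ⟨(p' : ℕ), by simp⟩ :=
    h7 (by
      simp only [List.get_eq_getElem, List.getElem_map]
      exact h)
  exact Fin.ext (Fin.mk.inj h8)

theorem colSys (hS : Simple J) (hj : 0 < j) (hc : Colored (T * j) cf J) :
    ColSys (uu J) (vv J) (cc hj hc) := by
  have hex : ∀ (s : Bool) (n : ℕ), (∃ e ∈ J, kk s e = n) → ∀ c : Fin T × Fin j,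
      ∃ p : Fin J.length, kk s J[p] = n ∧ cc hj hc p = c := by
    rintro s n ⟨e, he, rfl⟩ ⟨t, i⟩
    have hlt : (t : ℕ) * j + i < T * j := by
      calc (t : ℕ) * j + i < t * j + j := Nat.add_lt_add_left i.2 _
        _ = (t + 1) * j := by ring
        _ ≤ T * j := Nat.mul_le_mul_right _ t.2
    obtain ⟨e', he', h1, h2⟩ := hc.ex s e he _ hlt
    obtain ⟨p, hp, rfl⟩ := List.mem_iff_getElem.1 he'
    refine ⟨⟨p, hp⟩, h1, ?_⟩
    unfold cc
    apply Prod.ext
    · apply Fin.ext
      show cf J[p] / j = t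
      rw [h2, mul_comm, Nat.mul_add_div hj, Nat.div_eq_of_lt i.2, add_zero]
    · apply Fin.ext
      show cf J[p] % j = i
      rw [h2, mul_comm, Nat.mul_add_mod, Nat.mod_eq_of_lt i.2]
  refine ⟨?_, ?_, ?_, ?_, ?_⟩
  · rintro ⟨n, hn⟩ c
    have h1 : ∃ e ∈ J, kk false e = n := by
      unfold lefts at hn
      rw [List.mem_toFinset, List.mem_map] at hn
      exact hn
    obtain ⟨p, h2, h3⟩ := hex false n h1 c
    exact ⟨p, Subtype.ext h2, h3⟩
  · rintro ⟨n, hn⟩ c
    have h1 : ∃ e ∈ J, kk true e = n := by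
      unfold rights at hn
      rw [List.mem_toFinset, List.mem_map] at hn
      exact hn
    obtain ⟨p, h2, h3⟩ := hex true n h1 c
    exact ⟨p, Subtype.ext h2, h3⟩
  · intro p p' h1 h2
    exact pos_eq hS (hc.inj false _ (List.getElem_mem _) _ (List.getElem_mem _)
      (congrArg Subtype.val h1) (cc_eq hj hc h2))
  · intro p p' h1 h2
    exact pos_eq hS (hc.inj true _ (List.getElem_mem _) _ (List.getElem_mem _)
      (congrArg Subtype.val h1) (cc_eq hj hc h2))
  · intro p p' h1 h2
    exact pos_eq hS (Prod.ext (congrArg Subtype.val h1) (congrArg Subtype.val h2))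

end

end Pool.Agent.H697.RT
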