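import Pool.Agent.H697.RT.Red

/-!
# The greedy forest: the classes of the vertices and their labellings
-/

namespace Pool.Agent.H697.RT

open Finset Pool.Agent.NPC Pool.Agent.H697.Exp Pool.Agent.H697.UG Pool.Agent.H697.Red
  Pool.Agent.H697.Forest Pool.Agent.H697.LF

/-- The code of the left end. -/
def va (e : Edge) : ℕ := 2 * kL e

/-- The code of the right end. -/
def vb (e : Edge) : ℕ := 2 * kR e + 1

/-- The state: the representative of the class of every vertex, the table of every vertex (number
`i` is the label in the labelling number `i` of the class), and the edges of the forest. -/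
structure GS (q : ℕ) where
  /-- The representatives. -/
  r : ℕ → ℕ
  /-- The tables. -/
  σ : ℕ → Equiv.Perm (Fin q)
  /-- The forest. -/
  F : Game

/-- The first state. -/
def GS.init (q : ℕ) : GS q := ⟨fun w => w, fun _ => 1, []⟩

/-- Add an edge. -/
def GS.step {q : ℕ} (π : Edge → Equiv.Perm (Fin q)) (s : GS q) (e : Edge) : GS q :=
  if s.r (va e) = s.r (vb e) then s else
    ⟨fun w => if s.r w = s.r (vb e) then s.r (va e) else s.r w,
      fun w => if s.r w = s.r (vb e) then
        s.σ w * ((s.σ (vb e))⁻¹ * (π e * s.σ (va e))) else s.σ w,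
      e :: s.F⟩

/-- The invariant. -/
structure GInv {q : ℕ} (π : Edge → Equiv.Perm (Fin q)) (l : Game) (s : GS q) : Prop where
  same : ∀ e ∈ l, s.r (va e) = s.r (vb e)
  sub : s.F.Sublist l.reverse
  frst : ∀ e ∈ s.F, π e * s.σ (va e) = s.σ (vb e)
  cnt : ∀ (K : Finset ℕ) (ρ : ℕ), (K.filter fun w => s.r w = ρ).card ≤
    (s.F.filter fun e => decide (s.r (va e) = ρ)).length + 1
  lab : ∀ (lam : ℕ → Fin q) (ρ : ℕ), (∀ e ∈ s.F, s.r (va e) = ρ → π e (lam (va e)) = lam (vb e)) →
    ∃ i, ∀ w, s.r w = ρ → lam w = s.σ w i

variable {q : ℕ} {π : Edge → Equiv.Perm (Fin q)}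

theorem GInv.init : GInv π [] (GS.init q) := by
  refine ⟨by simp, by simp [GS.init], by simp [GS.init], ?_, ?_⟩
  · intro K ρ
    simp only [GS.init, List.filter_nil, List.length_nil, zero_add]
    rw [card_le_one]
    intro x hx y hy
    rw [(mem_filter.1 hx).2, (mem_filter.1 hy).2]
  · intro lam ρ _
    refine ⟨lam ρ, fun w hw => ?_⟩
    simp only [GS.init] at hw ⊢
    rw [hw]
    rfl

theorem GInv.step {l : Game} {s : GS q} (h : GInv π l s) (e : Edge) :
    GInv π (l ++ [e]) (s.step π e) := by
  unfold GS.step
  by_cases heq : s.r (va e) = s.r (vb e)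
  · rw [if_pos heq]
    refine ⟨?_, ?_, h.frst, h.cnt, h.lab⟩
    · intro e' he'
      rw [List.mem_append, List.mem_singleton] at he'
      rcases he' with he' | rfl
      · exact h.same e' he'
      · exact heq
    · rw [List.reverse_append]
      exact h.sub.trans (List.sublist_append_right _ _)
  rw [if_neg heq]
  have hsub : ∀ e' ∈ s.F, e' ∈ l := fun e' he' => List.mem_reverse.1 (h.sub.subset he')
  have hcases : ∀ w ρ, (if s.r w = s.r (vb e) then s.r (va e) else s.r w) = ρ ↔
      (s.r w = ρ ∧ ρ ≠ s.r (vb e)) ∨ (s.r w = s.r (vb e) ∧ ρ = s.r (va e)) := by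
    intro w ρ
    split_ifs with h1
    · constructor
      · rintro rfl
        exact Or.inr ⟨h1, rfl⟩
      · rintro (⟨h2, h3⟩ | ⟨_, h3⟩)
        · exact absurd (h2.symm.trans h1) h3
        · exact h3.symm
    · constructor
      · rintro rfl
        exact Or.inl ⟨rfl, h1⟩
      · rintro (⟨h2, _⟩ | ⟨h3, _⟩)
        · exact h2
        · exact absurd h3 h1
  refine ⟨?_, ?_, ?_, ?_, ?_⟩
  · intro e' he'
    rw [List.mem_append, List.mem_singleton] at he'
    dsimp only
    rcases he' with he' | rfl
    · rw [h.same e' he']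
    · rw [if_neg heq, if_pos rfl]
  · dsimp only
    rw [List.reverse_append]
    exact h.sub.cons_cons e
  · intro e' he'
    dsimp only at he' ⊢
    rw [List.mem_cons] at he'
    rcases he' with rfl | he'
    · rw [if_neg heq, if_pos rfl, mul_inv_cancel_left]
    · rw [h.same e' (hsub e' he')]
      split_ifs with h1
      · rw [← mul_assoc, h.frst e' he']
      · exact h.frst e' he'
  · intro K ρ
    dsimp only
    simp only [hcases]
    rw [List.filter_cons]
    by_cases hρ : ρ = s.r (va e)
    · subst hρ
      have h1 : (K.filter fun w => (s.r w = s.r (va e) ∧ s.r (va e) ≠ s.r (vb e)) ∨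
          (s.r w = s.r (vb e) ∧ s.r (va e) = s.r (va e))) =
          (K.filter fun w => s.r w = s.r (va e)) ∪ (K.filter fun w => s.r w = s.r (vb e)) := by
        ext w
        simp only [mem_filter, mem_union]
        tauto
      rw [h1, if_pos (by simp [heq]), List.length_cons]
      have h2 := card_union_le (K.filter fun w => s.r w = s.r (va e))
        (K.filter fun w => s.r w = s.r (vb e))
      have h3 := h.cnt K (s.r (va e))
      have h4 := h.cnt K (s.r (vb e))
      have h5 : (s.F.filter fun e' => decide ((s.r (va e') = s.r (va e) ∧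
          s.r (va e) ≠ s.r (vb e)) ∨ (s.r (va e') = s.r (vb e) ∧
          s.r (va e) = s.r (va e)))).length =
          (s.F.filter fun e' => decide (s.r (va e') = s.r (va e))).length +
          (s.F.filter fun e' => decide (s.r (va e') = s.r (vb e))).length := by
        rw [← List.countP_eq_length_filter, ← List.countP_eq_length_filter,
          ← List.countP_eq_length_filter]
        generalize s.F = l'
        induction l' with
        | nil => rfl
        | cons e' l' ih =>
          rw [List.countP_cons, List.countP_cons, List.countP_cons, ih]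
          have h8 : (if decide ((s.r (va e') = s.r (va e) ∧ s.r (va e) ≠ s.r (vb e)) ∨
              (s.r (va e') = s.r (vb e) ∧ s.r (va e) = s.r (va e))) = true then 1 else 0) =
              (if decide (s.r (va e') = s.r (va e)) = true then 1 else 0) +
              (if decide (s.r (va e') = s.r (vb e)) = true then 1 else 0) := by
            simp only [decide_eq_true_eq]
            by_cases h6 : s.r (va e') = s.r (va e)
            · have h7 : ¬ s.r (va e') = s.r (vb e) := fun h7 => heq (h6.symm.trans h7)
              rw [if_pos (Or.inl ⟨h6, heq⟩), if_pos h6, if_neg h7]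
            · by_cases h7 : s.r (va e') = s.r (vb e)
              · rw [if_pos (Or.inr ⟨h7, trivial⟩), if_neg h6, if_pos h7]
              · rw [if_neg (by tauto), if_neg h6, if_neg h7]
          rw [h8]
          ring
      omega
    · have hva : ¬ (s.r (va e) = ρ ∧ ρ ≠ s.r (vb e) ∨
          s.r (va e) = s.r (vb e) ∧ ρ = s.r (va e)) := by
        rintro (⟨h1, _⟩ | ⟨_, h1⟩)
        · exact hρ h1.symm
        · exact hρ h1
      rw [if_neg (by simpa using hva)]
      by_cases hρ' : ρ = s.r (vb e)
      · subst hρ'
        have h1 : (K.filter fun w => (s.r w = s.r (vb e) ∧ s.r (vb e) ≠ s.r (vb e)) ∨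
          (s.r w = s.r (vb e) ∧ s.r (vb e) = s.r (va e))) = ∅ := by
          rw [filter_eq_empty_iff]
          rintro w _ (⟨_, h1⟩ | ⟨_, h1⟩)
          · exact h1 rfl
          · exact hρ h1
        rw [h1]
        simp
      · have h1 : (K.filter fun w => (s.r w = ρ ∧ ρ ≠ s.r (vb e)) ∨
          (s.r w = s.r (vb e) ∧ ρ = s.r (va e))) = K.filter fun w => s.r w = ρ := by
          ext w
          simp only [mem_filter]
          tauto
        have h2 : (s.F.filter fun e' => decide ((s.r (va e') = ρ ∧ ρ ≠ s.r (vb e)) ∨
          (s.r (va e') = s.r (vb e) ∧ ρ = s.r (va e)))) =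
          s.F.filter fun e' => decide (s.r (va e') = ρ) := by
          refine List.filter_congr fun e' _ => ?_
          apply decide_eq_decide.2
          tauto
        rw [h1, h2]
        exact h.cnt K ρ
  · intro lam ρ hlam
    dsimp only at hlam ⊢
    by_cases hρ : ρ = s.r (va e)
    · subst hρ
      obtain ⟨i, hi⟩ := h.lab lam (s.r (va e)) fun e' he' h1 => by
        refine hlam e' (List.mem_cons_of_mem _ he') ?_
        rw [hcases]
        exact Or.inl ⟨h1, heq⟩
      obtain ⟨j, hj⟩ := h.lab lam (s.r (vb e)) fun e' he' h1 => by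
        refine hlam e' (List.mem_cons_of_mem _ he') ?_
        rw [hcases]
        exact Or.inr ⟨h1, rfl⟩
      refine ⟨i, fun w hw => ?_⟩
      rw [hcases] at hw
      rcases hw with ⟨h1, h2⟩ | ⟨h1, _⟩
      · rw [if_neg (by rw [h1]; exact h2)]
        exact hi w h1
      · rw [if_pos h1]
        have h2 := hlam e List.mem_cons_self (by rw [if_neg heq])
        rw [hi (va e) rfl, hj (vb e) rfl] at h2
        simp only [Equiv.Perm.mul_apply]
        rw [h2]
        rw [show (s.σ (vb e))⁻¹ ((s.σ (vb e)) j) = j from (s.σ (vb e)).symm_apply_apply j]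
        exact hj w h1
    · by_cases hρ' : ρ = s.r (vb e)
      · refine ⟨lam 0, fun w hw => ?_⟩
        rw [hcases] at hw
        rcases hw with ⟨_, h2⟩ | ⟨_, h2⟩
        · exact absurd hρ' h2
        · exact absurd h2 hρ
      · obtain ⟨i, hi⟩ := h.lab lam ρ fun e' he' h1 => by
          refine hlam e' (List.mem_cons_of_mem _ he') ?_
          rw [hcases]
          exact Or.inl ⟨h1, hρ'⟩
        refine ⟨i, fun w hw => ?_⟩
        rw [hcases] at hw
        rcases hw with ⟨h1, h2⟩ | ⟨_, h2⟩
        · rw [if_neg (by rw [h1]; exact h2)]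
          exact hi w h1
        · exact absurd h2 hρ

/-- The last state. -/
def GS.run (π : Edge → Equiv.Perm (Fin q)) (I : Game) : GS q := I.foldl (GS.step π) (GS.init q)

theorem GInv.run (I : Game) : GInv π I (GS.run π I) := by
  induction I using List.reverseRecOn with
  | nil => exact GInv.init
  | append_singleton l e ih =>
    unfold GS.run at ih ⊢
    rw [List.foldl_append]
    exact ih.step e

/-- Some labelling of the class `ρ` satisfies all its edges. -/
def GOk (π : Edge → Equiv.Perm (Fin q)) (I : Game) (s : GS q) (ρ : ℕ) : Prop :=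
  ∃ i : Fin q, ∀ e ∈ I, s.r (va e) = ρ → π e (s.σ (va e) i) = s.σ (vb e) i

open Classical in
/-- The number of edges which the algorithm satisfies. -/
noncomputable def GLB (π : Edge → Equiv.Perm (Fin q)) (I : Game) (s : GS q) : ℕ :=
  (I.filter fun e => decide (GOk π I s (s.r (va e)))).length +
    (s.F.filter fun e => decide (¬ GOk π I s (s.r (va e)))).length

theorem sat_iff {I : Game} (hπ : ∀ e ∈ I, ∀ x : Fin q, e.2[(x : ℕ)]? = some ((π e x : Fin q) : ℕ))
    {L M : ℕ → Fin q} {e : Edge} (he : e ∈ I) : Sat L M e ↔ π e (L (kL e)) = M (kR e) := by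
  unfold Sat
  rw [show e.1.1 = kL e from rfl, show e.1.2 = kR e from rfl, hπ e he, Option.some_inj]
  exact ⟨fun h => Fin.ext h, fun h => by rw [h]⟩

open Classical in
/-- The upper bound. -/
theorem GLB_le (hq : 0 < q) {I : Game} {s : GS q} (h : GInv π I s)
    (hπ : ∀ e ∈ I, ∀ x : Fin q, e.2[(x : ℕ)]? = some ((π e x : Fin q) : ℕ)) :
    ∃ L M : ℕ → Fin q, GLB π I s ≤ numSat I L M := by
  let i : ℕ → Fin q := fun ρ => if h : GOk π I s ρ then h.choose else ⟨0, hq⟩
  have hi : ∀ ρ, GOk π I s ρ → ∀ e ∈ I, s.r (va e) = ρ →
      π e (s.σ (va e) (i ρ)) = s.σ (vb e) (i ρ) := by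
    intro ρ hρ
    have : i ρ = hρ.choose := dif_pos hρ
    rw [this]
    exact hρ.choose_spec
  refine ⟨fun u => s.σ (2 * u) (i (s.r (2 * u))), fun v => s.σ (2 * v + 1) (i (s.r (2 * v + 1))), ?_⟩
  have hsat1 : ∀ e ∈ I, GOk π I s (s.r (va e)) → Sat (fun u => s.σ (2 * u) (i (s.r (2 * u))))
      (fun v => s.σ (2 * v + 1) (i (s.r (2 * v + 1)))) e := by
    intro e he hok
    rw [sat_iff hπ he]
    have h1 := hi _ hok e he rfl
    show π e (s.σ (va e) (i (s.r (va e)))) = s.σ (vb e) (i (s.r (vb e)))
    rw [h1, h.same e he]
  have hmem : ∀ e ∈ s.F, e ∈ I := fun e he => List.mem_reverse.1 (h.sub.subset he)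
  have hsat2 : ∀ e ∈ s.F, Sat (fun u => s.σ (2 * u) (i (s.r (2 * u))))
      (fun v => s.σ (2 * v + 1) (i (s.r (2 * v + 1)))) e := by
    intro e he
    rw [sat_iff hπ (hmem e he)]
    have h1 := h.frst e he
    show π e (s.σ (va e) (i (s.r (va e)))) = s.σ (vb e) (i (s.r (vb e)))
    rw [← h1, h.same e (hmem e he)]
    rfl
  set L := fun u => s.σ (2 * u) (i (s.r (2 * u)))
  set M := fun v => s.σ (2 * v + 1) (i (s.r (2 * v + 1)))
  have h1 : (s.F.filter fun e => decide (¬ GOk π I s (s.r (va e)))).length ≤
      (I.filter fun e => decide (¬ GOk π I s (s.r (va e))) && decide (Sat L M e)).length := by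
    have h2 : (s.F.filter fun e => decide (¬ GOk π I s (s.r (va e)))) =
        s.F.filter fun e => decide (¬ GOk π I s (s.r (va e))) && decide (Sat L M e) := by
      refine List.filter_congr fun e he => ?_
      simp [hsat2 e he]
    rw [h2]
    refine (h.sub.filter _).length_le.trans ?_
    rw [List.filter_reverse, List.length_reverse]
  have h2 : (I.filter fun e => decide (GOk π I s (s.r (va e)))) =
      I.filter fun e => decide (GOk π I s (s.r (va e))) && decide (Sat L M e) := by
    refine List.filter_congr fun e he => ?_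
    by_cases h3 : GOk π I s (s.r (va e))
    · simp [h3, hsat1 e he h3]
    · simp [h3]
  have h3 : numSat I L M =
      (I.filter fun e => decide (GOk π I s (s.r (va e))) && decide (Sat L M e)).length +
      (I.filter fun e => decide (¬ GOk π I s (s.r (va e))) && decide (Sat L M e)).length := by
    unfold numSat
    rw [← List.countP_eq_length_filter, ← List.countP_eq_length_filter,
      ← List.countP_eq_length_filter]
    clear h1 h2 hsat1 hsat2 hmem hi hπ h
    generalize hP : (fun e : Edge => decide (GOk π I s (s.r (va e)))) = P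
    have hP' : (fun e : Edge => decide (¬ GOk π I s (s.r (va e))) && decide (Sat L M e)) =
        fun e => !(P e) && decide (Sat L M e) := by
      funext e
      rw [← hP]
      simp
    have hP'' : (fun e : Edge => decide (GOk π I s (s.r (va e))) && decide (Sat L M e)) =
        fun e => P e && decide (Sat L M e) := by
      funext e
      rw [← hP]
    rw [hP', hP'']
    clear hP hP' hP''
    generalize I = l
    induction l with
    | nil => rfl
    | cons e l ih =>
      simp only [List.countP_cons, ih]
      cases P e <;> cases decide (Sat L M e) <;> simp <;> omega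
  unfold GLB
  rw [h2, h3]
  exact Nat.add_le_add_left h1 _

theorem sum_filter_length (g : Edge → ℕ) (N : Finset ℕ) (F : Game) :
    ∑ ρ ∈ N, (F.filter fun e => decide (g e = ρ)).length =
      (F.filter fun e => decide (g e ∈ N)).length := by
  induction F with
  | nil => simp
  | cons e F ih =>
    have h1 : ∀ ρ, ((e :: F).filter fun e => decide (g e = ρ)).length =
        (F.filter fun e => decide (g e = ρ)).length + if g e = ρ then 1 else 0 := by
      intro ρ
      rw [List.filter_cons]
      by_cases h : g e = ρ <;> simp [h]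
    rw [sum_congr rfl fun ρ _ => h1 ρ, sum_add_distrib, ih, sum_ite_eq, List.filter_cons]
    by_cases h : g e ∈ N <;> simp [h]

/-- The code of a vertex. -/
def vcode : ℕ ⊕ ℕ → ℕ
  | Sum.inl u => 2 * u
  | Sum.inr v => 2 * v + 1

theorem vcode_inj : Function.Injective vcode := by
  intro z z' h
  cases z with
  | inl u =>
    cases z' with
    | inl u' =>
      have h' : 2 * u = 2 * u' := h
      rw [show u = u' by omega]
    | inr v' =>
      have h' : 2 * u = 2 * v' + 1 := h
      omega
  | inr u =>
    cases z' with
    | inl u' =>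
      have h' : 2 * u + 1 = 2 * u' := h
      omega
    | inr v' =>
      have h' : 2 * u + 1 = 2 * v' + 1 := h
      rw [show u = v' by omega]

theorem ncard_filter_le {I : Game} (hS : Simple I) (P : ℕ → Prop) [DecidablePred P]
    (hP : ∀ e ∈ I, (P (va e) ↔ P (vb e))) :
    (I.filter fun e => decide (P (va e))).length ≤
      ((graphOf I).induce {z | P (vcode z.1)}).edgeSet.ncard := by
  set J := I.filter fun e => decide (P (va e)) with hJ
  have hJS : Simple J := by
    unfold Simple at hS ⊢
    exact hS.sublist (List.filter_sublist.map _)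
  have hadj : ∀ z z', (cgraph J).Adj z z' → (cgraph I).Adj z z' ∧ P (vcode z) ∧ P (vcode z') := by
    have key : ∀ u v, (u, v) ∈ J.map Prod.fst → (u, v) ∈ I.map Prod.fst ∧ P (2 * u) ∧
        P (2 * v + 1) := by
      intro u v huv
      obtain ⟨e, he, h⟩ := List.mem_map.1 huv
      rw [hJ, List.mem_filter, decide_eq_true_eq] at he
      have h1 : kL e = u := congrArg Prod.fst h
      have h2 : kR e = v := congrArg Prod.snd h
      have h3 := (hP e he.1).1 he.2
      have h4 := he.2
      unfold va at h4
      unfold vb at h3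
      rw [h1] at h4
      rw [h2] at h3
      exact ⟨List.mem_map.2 ⟨e, he.1, h⟩, h4, h3⟩
    intro z z' h
    cases z with
    | inl u =>
      cases z' with
      | inl u' => exact h.elim
      | inr v' => exact key u v' (cadj_lr.1 h)
    | inr u =>
      cases z' with
      | inl u' =>
        obtain ⟨h1, h2, h3⟩ := key u' u (cadj_rl.1 h)
        exact ⟨h1, h3, h2⟩
      | inr v' => exact h.elim
  have hsupp : ∀ z, z ∈ (cgraph J).support → z ∈ (cgraph I).support ∧ P (vcode z) := by
    rintro z ⟨z', h⟩
    obtain ⟨h1, h2, _⟩ := hadj z z' h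
    exact ⟨⟨z', h1⟩, h2⟩
  let f : graphOf J →g (graphOf I).induce {z | P (vcode z.1)} :=
    { toFun := fun z => ⟨⟨z.1, (hsupp z.1 z.2).1⟩, (hsupp z.1 z.2).2⟩
      map_rel' := fun {a b} h => (hadj _ _ h).1 }
  have hf : Function.Injective f := by
    intro a b h
    apply Subtype.ext
    exact congrArg (fun x : {z : (cgraph I).support | P (vcode z.1)} => x.1.1) h
  rw [← ncard_edges hJS, ← Nat.card_coe_set_eq, ← Nat.card_coe_set_eq]
  exact Nat.card_le_card_of_injective _ (SimpleGraph.Hom.mapEdgeSet.injective f hf)

open Classical in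
/-- The lower bound. -/
theorem le_GLB {I : Game} {s : GS q} (h : GInv π I s) (hS : Simple I)
    (hπ : ∀ e ∈ I, ∀ x : Fin q, e.2[(x : ℕ)]? = some ((π e x : Fin q) : ℕ))
    {t : ℝ} (ht : Thr t (graphOf I)) (L M : ℕ → Fin q) :
    t * I.length + numSat I L M ≤ GLB π I s + I.length := by
  set K : Finset ℕ := (I.map va).toFinset ∪ (I.map vb).toFinset with hK
  set N : Finset ℕ := ((I.filter fun e => decide (¬ GOk π I s (s.r (va e)))).map
    fun e => s.r (va e)).toFinset with hN
  have hKN : ∀ w ∈ K, ¬ GOk π I s (s.r w) → s.r w ∈ N := by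
    intro w hw hok
    rw [hK, mem_union, List.mem_toFinset, List.mem_toFinset, List.mem_map, List.mem_map] at hw
    rw [hN, List.mem_toFinset, List.mem_map]
    rcases hw with ⟨e, he, rfl⟩ | ⟨e, he, rfl⟩
    · exact ⟨e, by rw [List.mem_filter]; exact ⟨he, by simpa using hok⟩, rfl⟩
    · rw [← h.same e he] at hok ⊢
      exact ⟨e, by rw [List.mem_filter]; exact ⟨he, by simpa using hok⟩, rfl⟩
  have hNok : ∀ ρ ∈ N, ¬ GOk π I s ρ := by
    intro ρ hρ
    rw [hN, List.mem_toFinset, List.mem_map] at hρ
    obtain ⟨e, he, rfl⟩ := hρ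
    rw [List.mem_filter] at he
    simpa using he.2
  -- the number of the classes
  have hNcard : N.card + numSat I L M ≤ I.length := by
    have h1 : N ⊆ ((I.filter fun e => !decide (Sat L M e)).map fun e => s.r (va e)).toFinset := by
      intro ρ hρ
      rw [List.mem_toFinset, List.mem_map]
      by_contra hcon
      push Not at hcon
      apply hNok ρ hρ
      have hsat : ∀ e ∈ I, s.r (va e) = ρ → Sat L M e := by
        intro e he hr
        by_contra hns
        exact hcon e (by rw [List.mem_filter]; exact ⟨he, by simpa using hns⟩) hr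
      have hlam : ∀ e ∈ I, s.r (va e) = ρ →
          π e ((fun w => if w % 2 = 0 then L (w / 2) else M (w / 2)) (va e)) =
            (fun w => if w % 2 = 0 then L (w / 2) else M (w / 2)) (vb e) := by
        intro e he hr
        have h2 := (sat_iff hπ he).1 (hsat e he hr)
        have e1 : va e % 2 = 0 := by unfold va; omega
        have e2 : va e / 2 = kL e := by unfold va; omega
        have e3 : ¬ vb e % 2 = 0 := by unfold vb; omega
        have e4 : vb e / 2 = kR e := by unfold vb; omega
        beta_reduce
        rw [if_pos e1, if_neg e3, e2, e4]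
        exact h2
      obtain ⟨i, hi⟩ := h.lab (fun w => if w % 2 = 0 then L (w / 2) else M (w / 2)) ρ
        fun e he => hlam e (List.mem_reverse.1 (h.sub.subset he))
      refine ⟨i, fun e he hr => ?_⟩
      have h3 := hlam e he hr
      beta_reduce at h3
      rw [hi (va e) hr, hi (vb e) (by rw [← h.same e he]; exact hr)] at h3
      exact h3
    have h2 := card_le_card h1
    have h3 := List.toFinset_card_le ((I.filter fun e => !decide (Sat L M e)).map
      fun e => s.r (va e))
    rw [List.length_map] at h3
    have h4 : (I.filter fun e => decide (Sat L M e)).length +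
        (I.filter fun e => !decide (Sat L M e)).length = I.length :=
      (List.length_eq_length_filter_add _).symm
    unfold numSat
    omega
  -- the number of the vertices
  have hverts : (K.filter fun w => ¬ GOk π I s (s.r w)).card ≤
      (s.F.filter fun e => decide (¬ GOk π I s (s.r (va e)))).length + N.card := by
    have h1 : (K.filter fun w => ¬ GOk π I s (s.r w)) ⊆
        N.biUnion fun ρ => K.filter fun w => s.r w = ρ := by
      intro w hw
      obtain ⟨h2, h3⟩ := mem_filter.1 hw
      exact mem_biUnion.2 ⟨s.r w, hKN w h2 h3, mem_filter.2 ⟨h2, rfl⟩⟩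
    refine (card_le_card h1).trans (card_biUnion_le.trans ?_)
    refine (sum_le_sum fun ρ _ => h.cnt K ρ).trans ?_
    rw [sum_add_distrib, sum_const, smul_eq_mul, mul_one, sum_filter_length (fun e => s.r (va e))]
    refine Nat.add_le_add_right ?_ _
    rw [← List.countP_eq_length_filter, ← List.countP_eq_length_filter]
    refine List.countP_mono_left fun e _ he => ?_
    rw [decide_eq_true_eq] at he ⊢
    exact hNok _ he
  -- the number of the edges
  have hedges := ncard_filter_le hS (fun w => ¬ GOk π I s (s.r w)) fun e he => by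
    rw [h.same e he]
  have hthr := ht {z | ¬ GOk π I s (s.r (vcode z.1))}
  rw [ncard_edges hS] at hthr
  have hset : ({z | ¬ GOk π I s (s.r (vcode z.1))} : Set (cgraph I).support).ncard ≤
      (K.filter fun w => ¬ GOk π I s (s.r w)).card := by
    rw [← Set.ncard_coe_finset]
    refine Set.ncard_le_ncard_of_injOn (fun z => vcode z.1) ?_ ?_ (Finset.finite_toSet _)
    · rintro ⟨z, hz⟩ hz'
      rw [mem_coe, mem_filter]
      refine ⟨?_, hz'⟩
      rw [support_eq, mem_coe, mem_union, mem_map, mem_map] at hz
      unfold lefts rights at hz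
      simp only [List.mem_toFinset, List.mem_map, Function.Embedding.coeFn_mk] at hz
      rw [hK, mem_union, List.mem_toFinset, List.mem_toFinset, List.mem_map, List.mem_map]
      rcases hz with ⟨u, ⟨e, he, rfl⟩, rfl⟩ | ⟨u, ⟨e, he, rfl⟩, rfl⟩
      · exact Or.inl ⟨e, he, rfl⟩
      · exact Or.inr ⟨e, he, rfl⟩
    · intro z _ z' _ hzz
      exact Subtype.ext (vcode_inj hzz)
  have hlen : (I.filter fun e => decide (GOk π I s (s.r (va e)))).length +
      (I.filter fun e => decide (¬ GOk π I s (s.r (va e)))).length = I.length := by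
    have h1 : (fun e : Edge => decide (¬ GOk π I s (s.r (va e)))) =
        fun e => !decide (GOk π I s (s.r (va e))) := by
      funext e
      simp
    rw [h1]
    exact (List.length_eq_length_filter_add _).symm
  unfold GLB
  have h1 : (((I.filter fun e => decide (¬ GOk π I s (s.r (va e)))).length : ℕ) : ℝ) ≤
      (({z | ¬ GOk π I s (s.r (vcode z.1))} : Set (cgraph I).support).ncard : ℝ) +
        (1 - t) * I.length := by
    refine le_trans ?_ hthr
    exact_mod_cast hedges
  have h2 : ((({z | ¬ GOk π I s (s.r (vcode z.1))} : Set (cgraph I).support).ncard : ℕ) : ℝ) ≤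
      (K.filter fun w => ¬ GOk π I s (s.r w)).card := by exact_mod_cast hset
  have h3 : (((K.filter fun w => ¬ GOk π I s (s.r w)).card : ℕ) : ℝ) ≤
      ((s.F.filter fun e => decide (¬ GOk π I s (s.r (va e)))).length : ℝ) + N.card := by
    exact_mod_cast hverts
  have h4 : ((N.card : ℕ) : ℝ) + numSat I L M ≤ I.length := by exact_mod_cast hNcard
  have h5 : (((I.filter fun e => decide (GOk π I s (s.r (va e)))).length : ℕ) : ℝ) +
      (I.filter fun e => decide (¬ GOk π I s (s.r (va e)))).length = I.length := by
    exact_mod_cast hlen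
  push_cast
  linarith

end Pool.Agent.H697.RT
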