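import Pool.Agent.H697.RT.RHard

/-!
# Random lifts of unique games
-/

namespace Pool.Agent.H697.RT

open Finset Pool.Agent.NPC Pool.Agent.H697.Exp Pool.Agent.H697.UG Pool.Agent.H697.Red
  Pool.Agent.H697.Forest Pool.Agent.H697.LF

theorem fib_UG {q : ℕ} {I : Game} (hI : IsGame q I) : Fib q 1 I := by
  intro e he y
  obtain ⟨h1, h2, h3⟩ := hI.2 e he
  rw [card_le_one]
  intro x hx x' hx'
  have h4 := (mem_filter.1 hx).2
  have h5 := (mem_filter.1 hx').2
  have hlx : (x : ℕ) < e.2.length := by rw [h1]; exact x.2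
  have hlx' : (x' : ℕ) < e.2.length := by rw [h1]; exact x'.2
  rw [List.getElem?_eq_getElem hlx] at h4
  rw [List.getElem?_eq_getElem hlx'] at h5
  have h6 : e.2[(x : ℕ)] = e.2[(x' : ℕ)] := Option.some_injective _ (h4.trans h5.symm)
  exact Fin.ext ((List.Nodup.getElem_inj_iff h3).1 h6)

/-- Hardness for the lifts of a graph. -/
theorem rhard_UG {V0 : Type} [Finite V0] (G0 : SimpleGraph V0) (hG0 : ∀ a, ∃ b, G0.Adj a b)
    {t : ℝ} (ht : ¬ Thr t G0) : ∃ δ : ℝ, 0 < δ ∧ ∀ (q : ℕ) (ε : ℝ) (g : ℕ), 0 < q →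
      RHard (fun _ => True) (Yes q ε) (No q δ) → RHard (OnLifts g G0) (Yes q ε) (No q t) := by
  obtain ⟨δ, hδ, hF⟩ := exists_random G0 hG0 ht one_pos
  refine ⟨δ, hδ, fun q ε g hq hhard => hhard.of_random fun c => ?_⟩
  obtain ⟨F, M, P, hFpoly, hM, hFI⟩ := hF q 1 g c hq one_pos
  have hgame : ∀ I, IsGame q I → ∀ m, M I ≤ m → ∀ rr : Fin m → Bool,
      IsGame q (F I (List.ofFn rr)) := by
    rintro I ⟨hne, hI⟩ m hm rr
    obtain ⟨h2, _, h5, _⟩ := (hFI I hne m hm).1 rr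
    refine ⟨h2, fun e he => ?_⟩
    obtain ⟨e', he', heq⟩ := h5 e he
    rw [heq]
    exact hI e' he'
  refine ⟨F, M, P, hFpoly, hM, ?_, ?_⟩
  · rintro I - ⟨hG, L, M', hLM⟩ m hm rr
    obtain ⟨_, h1, _, h6⟩ := (hFI I hG.1 m hm).1 rr
    have htab : ∀ e ∈ I, (∀ x : Fin q, ∃ y : Fin q, e.2[(x : ℕ)]? = some (y : ℕ)) ∧
        ∀ y : Fin q, ∃ x : Fin q, e.2[(x : ℕ)]? = some (y : ℕ) := fun e he =>
      perm_table (hG.2 e he).1 (hG.2 e he).2.1 (hG.2 e he).2.2
    obtain ⟨L', M'', _, h8⟩ := h6 L M' fun e he => (htab e he).1 _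
    have h9 := h8 fun e he => (htab e he).2 _
    refine ⟨h1, hgame I hG m hm rr, L', M'', ?_⟩
    have h10 : (0 : ℝ) < I.length := by exact_mod_cast List.length_pos_iff.2 hG.1
    have h11 : (numSat I L M' : ℝ) * (F I (List.ofFn rr)).length ≤
        numSat (F I (List.ofFn rr)) L' M'' * I.length := by
      exact_mod_cast h9
    have h12 : (0 : ℝ) ≤ (F I (List.ofFn rr)).length := by positivity
    have h13 : (1 - ε) * (F I (List.ofFn rr)).length * I.length ≤
        numSat (F I (List.ofFn rr)) L' M'' * I.length := by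
      calc (1 - ε) * (F I (List.ofFn rr)).length * I.length =
            (1 - ε) * I.length * (F I (List.ofFn rr)).length := by ring
        _ ≤ numSat I L M' * (F I (List.ofFn rr)).length := mul_le_mul_of_nonneg_right hLM h12
        _ ≤ _ := h11
    exact le_of_mul_le_mul_right h13 h10
  · rintro I - ⟨hG, hno⟩ m hm
    have h1 := (hFI I hG.1 m hm).2 (fib_UG hG) hno
    refine le_trans (Nat.mul_le_mul_left _ ?_) h1
    refine Nat.card_le_card_of_injective (fun r => ⟨r.1, ?_⟩) ?_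
    · by_contra hcon
      push Not at hcon
      refine r.2 ⟨((hFI I hG.1 m hm).1 r.1).2.1, hgame I hG m hm r.1, fun L M' => ?_⟩
      exact (hcon L M').le
    · intro r r' hr
      exact Subtype.ext (congrArg (fun y => y.1) hr)

/-- Every finite member `G` of the class has a number `g` such that the class contains all finite
lifts of `G` in which all cycles are longer than `g`. -/
def LiftStable (C : GraphClass) : Prop :=
  ∀ (V : Type) [Finite V] (G : SimpleGraph V), C V G → ∃ g : ℕ, ∀ (W : Type) [Finite W]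
    (H : SimpleGraph W) (n : ℕ), 0 < n → IsLift n H G → GirthGT H g → C W H

/-- All finite members of the class without isolated vertices satisfy the condition `Thr t`. -/
def ThrC (t : ℝ) (C : GraphClass) : Prop :=
  ∀ (V : Type) [Finite V] (G : SimpleGraph V), (∀ a, ∃ b, G.Adj a b) → C V G → Thr t G

theorem rhard_class {C : GraphClass} (hC : LiftStable C) {t : ℝ} (ht : ¬ ThrC t C) :
    ∃ δ : ℝ, 0 < δ ∧ ∀ (q : ℕ) (ε : ℝ), 0 < q →
      RHard (fun _ => True) (Yes q ε) (No q δ) → RHard (On C) (Yes q ε) (No q t) := by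
  unfold ThrC at ht
  push Not at ht
  obtain ⟨V, hV, G, hG, hCG, hthr⟩ := ht
  obtain ⟨δ, hδ, h⟩ := rhard_UG G hG hthr
  obtain ⟨g, hg⟩ := hC V G hCG
  refine ⟨δ, hδ, fun q ε hq hhard => (h q ε g hq hhard).mono ?_ (fun _ h => h) fun _ h => h⟩
  rintro I ⟨hS, hgI, n, hn, hl⟩
  exact ⟨hS, hg _ _ n hn hl hgI⟩

theorem Yes_mono {q : ℕ} {ε ε' : ℝ} (h : ε ≤ ε') {I : Game} (hI : Yes q ε I) : Yes q ε' I := by
  obtain ⟨h7, L', M', h8⟩ := hI
  refine ⟨h7, L', M', le_trans ?_ h8⟩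
  exact mul_le_mul_of_nonneg_right (by linarith) (by positivity)

theorem No_mono {q : ℕ} {δ δ' : ℝ} (h : δ ≤ δ') {I : Game} (hI : No q δ I) : No q δ' I := by
  obtain ⟨h7, h8⟩ := hI
  refine ⟨h7, fun L' M' => (h8 L' M').trans ?_⟩
  exact mul_le_mul_of_nonneg_right h (by positivity)

/-- The Unique Games Conjecture for the games with the property `Cl`, with hardness under randomised
reductions. -/
def RUGC (Cl : Game → Prop) : Prop :=
  ∀ ε δ : ℝ, 0 < ε → 0 < δ → ε + δ < 1 → ∃ q : ℕ, 0 < q ∧ RHard Cl (Yes q ε) (No q δ)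

theorem rugc_of_ugc {Cl : Game → Prop} (h : UGC Cl) : RUGC Cl := by
  intro ε δ hε hδ h1
  obtain ⟨q, hq, h2⟩ := h ε δ hε hδ h1
  exact ⟨q, hq, rhard_of_hard h2⟩

theorem rhard_of_RUGC {C : GraphClass} (hC : LiftStable C) {t : ℝ} (ht : ¬ ThrC t C)
    (hU : RUGC fun _ => True) {ε : ℝ} (hε : 0 < ε) :
    ∃ q : ℕ, 0 < q ∧ RHard (On C) (Yes q ε) (No q t) := by
  obtain ⟨δ, hδ, h⟩ := rhard_class hC ht
  obtain ⟨q, hq, hhard⟩ := hU (min ε (1 / 4)) (min δ (1 / 4)) (by positivity) (by positivity)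
    (by linarith [min_le_right ε (1 / 4), min_le_right δ (1 / 4)])
  exact ⟨q, hq, h q ε hq (hhard.mono (fun _ h => h) (fun _ => Yes_mono (min_le_left _ _))
    fun _ => No_mono (min_le_left _ _))⟩

end Pool.Agent.H697.RT
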