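import Pool.Agent.H697.RT.Greedy
import Pool.Agent.H697.RT.UGHard

/-!
# The greedy forest: the algorithm
-/

namespace Pool.Agent.H697.RT

open Finset Pool.Agent.NPC Pool.Agent.H697.Exp Pool.Agent.H697.UG Pool.Agent.H697.Red
  Pool.Agent.H697.Forest Pool.Agent.H697.LF

variable {q : ℕ}

/-! ### Tables of permutations -/

/-- The table of a permutation. -/
def enc (p : Equiv.Perm (Fin q)) : List ℕ := List.ofFn fun i => ((p i : Fin q) : ℕ)

theorem enc_get (p : Equiv.Perm (Fin q)) (i : Fin q) : (enc p)[(i : ℕ)]? = some ((p i : Fin q) : ℕ) := by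
  unfold enc
  rw [List.getElem?_ofFn, dif_pos i.2]

theorem enc_inj : Function.Injective (enc : Equiv.Perm (Fin q) → List ℕ) := by
  intro p p' h
  ext i
  have h1 := enc_get p i
  rw [h, enc_get p' i, Option.some_inj] at h1
  exact h1.symm

open Classical in
/-- The permutation with the given table. -/
noncomputable def dec (q : ℕ) (l : List ℕ) : Equiv.Perm (Fin q) :=
  if h : ∃ p, enc p = l then h.choose else 1

theorem dec_enc (p : Equiv.Perm (Fin q)) : dec q (enc p) = p := by
  have h : ∃ p', enc p' = enc p := ⟨p, rfl⟩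
  unfold dec
  rw [dif_pos h]
  exact enc_inj h.choose_spec

theorem enc_dec {I : Game} (hI : IsGame q I) {e : Edge} (he : e ∈ I) : enc (dec q e.2) = e.2 := by
  obtain ⟨h1, h2, h3⟩ := hI.2 e he
  obtain ⟨h4, h5⟩ := perm_table h1 h2 h3
  choose f hf using h4
  have hinj : Function.Injective f := by
    intro x x' hx
    have h6 := hf x
    rw [hx, ← hf x', List.getElem?_eq_getElem (by rw [h1]; exact x.2),
      List.getElem?_eq_getElem (by rw [h1]; exact x'.2), Option.some_inj] at h6
    exact Fin.ext ((List.Nodup.getElem_inj_iff h3).1 h6)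
  have h : ∃ p : Equiv.Perm (Fin q), enc p = e.2 := by
    refine ⟨Equiv.ofBijective f (Finite.injective_iff_bijective.1 hinj), ?_⟩
    apply List.ext_getElem?
    intro i
    by_cases hi : i < q
    · rw [enc_get _ ⟨i, hi⟩]
      exact (hf ⟨i, hi⟩).symm
    · rw [List.getElem?_eq_none, List.getElem?_eq_none]
      · omega
      · unfold enc
        rw [List.length_ofFn]
        omega
  unfold dec
  rw [dif_pos h]
  exact h.choose_spec

theorem dec_get {I : Game} (hI : IsGame q I) {e : Edge} (he : e ∈ I) (x : Fin q) :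
    e.2[(x : ℕ)]? = some ((dec q e.2 x : Fin q) : ℕ) := by
  rw [← enc_get, enc_dec hI he]

/-! ### Composition of tables -/

/-- The composition of tables. -/
noncomputable def cm0 (q : ℕ) (x : (List ℕ × List ℕ) × (List ℕ × List ℕ)) : List ℕ :=
  enc (dec q x.2.2 * ((dec q x.1.2)⁻¹ * (dec q x.2.1 * dec q x.1.1)))

/-- The quadruples of tables. -/
noncomputable def quads (q : ℕ) : List ((List ℕ × List ℕ) × (List ℕ × List ℕ)) :=
  (univ : Finset ((Equiv.Perm (Fin q) × Equiv.Perm (Fin q)) ×
    (Equiv.Perm (Fin q) × Equiv.Perm (Fin q)))).toList.map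
      fun p => ((enc p.1.1, enc p.1.2), (enc p.2.1, enc p.2.2))

/-- The composition of tables. -/
noncomputable def cm (q : ℕ) (x : (List ℕ × List ℕ) × (List ℕ × List ℕ)) : List ℕ :=
  if x ∈ quads q then cm0 q x else enc (1 : Equiv.Perm (Fin q))

theorem poly_cm (q : ℕ) : Poly (cm q) := by
  unfold cm
  refine (poly_finite (quads q) (cm0 q) (enc (1 : Equiv.Perm (Fin q)))).congr fun x => ?_
  by_cases h : x ∈ quads q
  · rw [if_pos h, if_pos h]
  · rw [if_neg h, if_neg h]

theorem cm_enc (a b c d : Equiv.Perm (Fin q)) :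
    cm q ((enc a, enc b), (enc c, enc d)) = enc (d * (b⁻¹ * (c * a))) := by
  have h : ((enc a, enc b), (enc c, enc d)) ∈ quads q := by
    unfold quads
    rw [List.mem_map]
    exact ⟨((a, b), (c, d)), by simp, rfl⟩
  unfold cm
  rw [if_pos h]
  unfold cm0
  simp only [dec_enc]

theorem exists_cm (q : ℕ) (x : (List ℕ × List ℕ) × (List ℕ × List ℕ)) :
    ∃ p : Equiv.Perm (Fin q), cm q x = enc p := by
  unfold cm
  split_ifs
  · exact ⟨_, rfl⟩
  · exact ⟨_, rfl⟩

theorem exists_bound (q : ℕ) : ∃ B, ∀ p : Equiv.Perm (Fin q), sz (enc p) ≤ B :=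
  ⟨univ.sup fun p => sz (enc p), fun p => le_sup (f := fun p : Equiv.Perm (Fin q) => sz (enc p))
    (mem_univ p)⟩

/-! ### The algorithm -/

/-- A vertex, the representative of its class and its table. -/
abbrev Ent : Type := ℕ × (ℕ × List ℕ)

/-- Look up a vertex. -/
def lk (l : List Ent) (w : ℕ) : ℕ × List ℕ :=
  ((l.filter fun x => decide (x.1 = w)).head?.getD (0, (0, []))).2

/-- Add an edge. -/
noncomputable def cstep (q : ℕ) (s : List Ent × Game) (e : Edge) : List Ent × Game :=
  if (lk s.1 (va e)).1 = (lk s.1 (vb e)).1 then s else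
    (s.1.map fun x => (x.1, if x.2.1 = (lk s.1 (vb e)).1 then ((lk s.1 (va e)).1,
      cm q (((lk s.1 (va e)).2, (lk s.1 (vb e)).2), (e.2, x.2.2))) else x.2), e :: s.2)

/-- The vertices. -/
def keys (I : Game) : List ℕ := I.flatMap fun e => [va e, vb e]

/-- The first state. -/
def cinit (q : ℕ) (I : Game) : List Ent × Game :=
  ((keys I).map fun w => (w, (w, enc (1 : Equiv.Perm (Fin q)))), [])

/-- The last state. -/
noncomputable def crun (q : ℕ) (I : Game) : List Ent × Game := I.foldl (cstep q) (cinit q I)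

/-- The edge is satisfied by the labelling number `i` of its class. -/
def csat (l : List Ent) (i : ℕ) (e : Edge) : Bool :=
  decide (((lk l (va e)).2[i]?.bind fun x => e.2[x]?) = (lk l (vb e)).2[i]?)

/-- Some labelling satisfies all edges of the class. -/
def cok (q : ℕ) (I : Game) (l : List Ent) (ρ : ℕ) : Bool :=
  (List.range q).any fun i => I.all fun e => !(decide ((lk l (va e)).1 = ρ)) || csat l i e

/-- The number of edges which the algorithm satisfies. -/
noncomputable def clb (q : ℕ) (I : Game) : ℕ :=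
  (I.filter fun e => cok q I (crun q I).1 (lk (crun q I).1 (va e)).1).length +
    ((crun q I).2.filter fun e => !cok q I (crun q I).1 (lk (crun q I).1 (va e)).1).length

/-- The answer. -/
noncomputable def cacc (q A B : ℕ) (I : Game) : Bool := decide (B * I.length ≤ A * clb q I)

/-! ### Running time -/

theorem poly_va : Poly va := Poly.mul (NPC.Poly.const 2) poly_kL

theorem poly_vb : Poly vb := Poly.add (Poly.mul (NPC.Poly.const 2) poly_kR) (NPC.Poly.const 1)

section
variable {α : Type} [TEnc α]

theorem poly_lk {l : α → List Ent} {w : α → ℕ} (hl : Poly l) (hw : Poly w) :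
    Poly (fun a => lk (l a) (w a)) := by
  unfold lk
  refine Poly.snd (Poly.head?_getD (Poly.filter (p := fun a (x : Ent) => decide (x.1 = w a)) hl ?_) _)
  exact Poly.decide_eq (Poly.fst (Poly.snd Poly.id)) (hw.comp (Poly.fst Poly.id))

theorem poly_cstep (q : ℕ) {s : α → List Ent × Game} {e : α → Edge} (hs : Poly s) (he : Poly e) :
    Poly (fun a => cstep q (s a) (e a)) := by
  unfold cstep
  have h1 : Poly (fun a => (s a).1) := Poly.fst hs
  have ha : Poly (fun a => lk (s a).1 (va (e a))) := poly_lk h1 (poly_va.comp he)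
  have hb : Poly (fun a => lk (s a).1 (vb (e a))) := poly_lk h1 (poly_vb.comp he)
  refine Poly.ite (p := fun a => (lk (s a).1 (va (e a))).1 = (lk (s a).1 (vb (e a))).1)
    (Poly.decide_eq (Poly.fst ha) (Poly.fst hb)) hs ?_
  refine Poly.pair (NPC.Poly.map (F := fun a (x : Ent) =>
    (x.1, if x.2.1 = (lk (s a).1 (vb (e a))).1 then ((lk (s a).1 (va (e a))).1,
      cm q (((lk (s a).1 (va (e a))).2, (lk (s a).1 (vb (e a))).2), ((e a).2, x.2.2))) else x.2))
      h1 ?_) (Poly.cons he (Poly.snd hs))
  have i1 : Poly (fun p : α × Ent => p.2) := Poly.snd Poly.id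
  have ha' : Poly (fun p : α × Ent => lk (s p.1).1 (va (e p.1))) := ha.comp (Poly.fst Poly.id)
  have hb' : Poly (fun p : α × Ent => lk (s p.1).1 (vb (e p.1))) := hb.comp (Poly.fst Poly.id)
  refine Poly.pair (Poly.fst i1) (Poly.ite
    (p := fun p : α × Ent => p.2.2.1 = (lk (s p.1).1 (vb (e p.1))).1)
    (Poly.decide_eq (Poly.fst (Poly.snd i1)) (Poly.fst hb')) ?_ (Poly.snd i1))
  exact Poly.pair (Poly.fst ha') ((poly_cm q).comp (Poly.pair (Poly.pair (Poly.snd ha')
    (Poly.snd hb')) (Poly.pair (Poly.snd (he.comp (Poly.fst Poly.id))) (Poly.snd (Poly.snd i1)))))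

theorem poly_keys : Poly keys := by
  unfold keys
  refine Poly.flatMap (F := fun (_ : Game) (e : Edge) => [va e, vb e]) Poly.id ?_
  have i1 : Poly (fun p : Game × Edge => p.2) := Poly.snd Poly.id
  exact Poly.cons (poly_va.comp i1) (Poly.cons (poly_vb.comp i1) (NPC.Poly.const []))

theorem poly_cinit (q : ℕ) : Poly (cinit q) := by
  unfold cinit
  refine Poly.pair (NPC.Poly.map (F := fun (_ : Game) (w : ℕ) =>
    (w, (w, enc (1 : Equiv.Perm (Fin q))))) poly_keys ?_) (NPC.Poly.const [])
  have i1 : Poly (fun p : Game × ℕ => p.2) := Poly.snd Poly.id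
  exact Poly.pair i1 (Poly.pair i1 (NPC.Poly.const _))

end

theorem lk_cases (l : List Ent) (w : ℕ) : (∃ x ∈ l, lk l w = x.2) ∨ lk l w = (0, []) := by
  unfold lk
  cases h : (l.filter fun x => decide (x.1 = w)).head? with
  | none => right; rfl
  | some x =>
    left
    have h1 : x ∈ l.filter fun x => decide (x.1 = w) := List.mem_of_head? h
    exact ⟨x, (List.mem_filter.1 h1).1, rfl⟩

/-- The states are small. -/
theorem small (q : ℕ) (I : Game) {B : ℕ} (hB : ∀ p : Equiv.Perm (Fin q), sz (enc p) ≤ B) (l : Game)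
    (hl : ∀ e ∈ l, e ∈ I) :
    (l.foldl (cstep q) (cinit q I)).1.length = (keys I).length ∧
      (∀ x ∈ (l.foldl (cstep q) (cinit q I)).1, x.1 ∈ keys I ∧ (x.2.1 ∈ keys I ∨ x.2.1 = 0) ∧
        sz x.2.2 ≤ B) ∧
      (l.foldl (cstep q) (cinit q I)).2.length ≤ l.length ∧
      ∀ e ∈ (l.foldl (cstep q) (cinit q I)).2, e ∈ I := by
  induction l using List.reverseRecOn with
  | nil =>
    refine ⟨by simp [cinit], ?_, by simp [cinit], by simp [cinit]⟩
    intro x hx
    simp only [List.foldl_nil, cinit, List.mem_map] at hx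
    obtain ⟨w, hw, rfl⟩ := hx
    exact ⟨hw, Or.inl hw, hB 1⟩
  | append_singleton l e ih =>
    obtain ⟨h1, h2, h3, h4⟩ := ih fun e he => hl e (by simp [he])
    rw [List.foldl_append, List.foldl_cons, List.foldl_nil]
    set s := l.foldl (cstep q) (cinit q I)
    unfold cstep
    split_ifs with h5
    · refine ⟨h1, h2, ?_, h4⟩
      rw [List.length_append]
      omega
    · refine ⟨by rw [List.length_map, h1], ?_, ?_, ?_⟩
      · intro x hx
        rw [List.mem_map] at hx
        obtain ⟨y, hy, rfl⟩ := hx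
        obtain ⟨h6, h7, h8⟩ := h2 y hy
        refine ⟨h6, ?_⟩
        dsimp only
        split_ifs with h9
        · refine ⟨?_, ?_⟩
          · rcases lk_cases s.1 (va e) with ⟨z, hz, hz'⟩ | h10
            · rw [hz']
              exact (h2 z hz).2.1
            · rw [h10]
              exact Or.inr rfl
          · obtain ⟨p, hp⟩ := exists_cm q (((lk s.1 (va e)).2, (lk s.1 (vb e)).2), (e.2, y.2.2))
            rw [hp]
            exact hB p
        · exact ⟨h7, h8⟩
      · rw [List.length_cons, List.length_append, List.length_singleton]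
        omega
      · intro e' he'
        rw [List.mem_cons] at he'
        rcases he' with rfl | he'
        · exact hl _ (by simp)
        · exact h4 e' he'

theorem poly_crun (q : ℕ) : Poly (crun q) := by
  obtain ⟨B, hB⟩ := exists_bound q
  obtain ⟨r, hr⟩ := poly_keys.sz_le
  unfold crun
  refine Poly.foldl (l := fun I : Game => I) (s := cinit q) (F := fun _ s e => cstep q s e) Poly.id
    (poly_cinit q) (poly_cstep q (Poly.fst (Poly.snd Poly.id)) (Poly.snd (Poly.snd Poly.id)))
    (r * (r + r + Polynomial.C (B + 10)) + Polynomial.X * (Polynomial.X + Polynomial.C 1) +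
      Polynomial.C 10) ?_
  intro I k _
  obtain ⟨h1, h2, h3, h4⟩ := small q I hB (I.take k) fun e he => List.mem_of_mem_take he
  set s := (I.take k).foldl (cstep q) (cinit q I)
  have hK := hr I
  have hlen : (keys I).length ≤ r.eval (sz I) := by
    have := length_lt_sz (keys I)
    omega
  have h5 : sz s.1 ≤ (keys I).length * ((r.eval (sz I) + r.eval (sz I) + (B + 9)) + 1) + 1 := by
    rw [← h1]
    refine sz_le_length_mul _ _ fun x hx => ?_
    obtain ⟨h6, h7, h8⟩ := h2 x hx
    obtain ⟨w, ρ, t⟩ := x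
    have h9 := sz_le_of_mem h6
    have h10 : sz ρ ≤ r.eval (sz I) + 1 := by
      rcases h7 with h7 | h7
      · have := sz_le_of_mem h7
        dsimp only at this
        omega
      · dsimp only at h7
        rw [h7]
        have : sz (0 : ℕ) = 1 := by simp [sz_nat]
        omega
    simp only [sz_pair] at h8 h9 ⊢
    omega
  have h6 : sz s.2 ≤ sz I * (sz I + 1) + 1 := by
    refine (sz_le_length_mul s.2 (sz I) fun e he => (sz_le_of_mem (h4 e he)).le).trans ?_
    have h7 : s.2.length ≤ sz I := by
      have h8 := length_lt_sz I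
      have h9 : (I.take k).length ≤ I.length := by
        rw [List.length_take]
        exact min_le_right _ _
      omega
    have := Nat.mul_le_mul_right (sz I + 1) h7
    omega
  have h7 : sz s = sz s.1 + sz s.2 + 1 := by
    obtain ⟨s1, s2⟩ := s
    simp only [sz_pair]
  rw [h7]
  simp only [Polynomial.eval_add, Polynomial.eval_mul, Polynomial.eval_X, Polynomial.eval_C]
  have h8 := Nat.mul_le_mul_right ((r.eval (sz I) + r.eval (sz I) + (B + 9)) + 1) hlen
  have h9 : (r.eval (sz I) + r.eval (sz I) + (B + 9)) + 1 =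
    r.eval (sz I) + r.eval (sz I) + (B + 10) := by ring
  rw [h9] at h8 h5
  omega

section
variable {α : Type} [TEnc α]

theorem poly_csat {l : α → List Ent} {i : α → ℕ} {e : α → Edge} (hl : Poly l) (hi : Poly i)
    (he : Poly e) : Poly (fun a => csat (l a) (i a) (e a)) := by
  unfold csat
  refine Poly.decide_eq (Poly.optBind (o := fun a => (lk (l a) (va (e a))).2[i a]?)
    (f := fun a x => (e a).2[x]?) (Poly.getElem? (Poly.snd (poly_lk hl (poly_va.comp he))) hi) ?_)
    (Poly.getElem? (Poly.snd (poly_lk hl (poly_vb.comp he))) hi)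
  exact Poly.getElem? (Poly.snd (he.comp (Poly.fst Poly.id))) (Poly.snd Poly.id)

theorem poly_cok (q : ℕ) {I : α → Game} {l : α → List Ent} {ρ : α → ℕ} (hI : Poly I) (hl : Poly l)
    (hρ : Poly ρ) : Poly (fun a => cok q (I a) (l a) (ρ a)) := by
  unfold cok
  refine Poly.any (p := fun a i => (I a).all fun e => !(decide ((lk (l a) (va e)).1 = ρ a)) ||
    csat (l a) i e) (NPC.Poly.const (List.range q)) ?_
  refine Poly.all (p := fun (x : α × ℕ) e => !(decide ((lk (l x.1) (va e)).1 = ρ x.1)) ||
    csat (l x.1) x.2 e) (hI.comp (Poly.fst Poly.id)) ?_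
  have h1 : Poly (fun p : (α × ℕ) × Edge => p.1.1) := Poly.fst (Poly.fst Poly.id)
  have h2 : Poly (fun p : (α × ℕ) × Edge => p.2) := Poly.snd Poly.id
  exact Poly.or (Poly.not (Poly.decide_eq (Poly.fst (poly_lk (hl.comp h1) (poly_va.comp h2)))
    (hρ.comp h1))) (poly_csat (hl.comp h1) (Poly.snd (Poly.fst Poly.id)) h2)

end

theorem poly_clb (q : ℕ) : Poly (clb q) := by
  unfold clb
  have hr : Poly (fun p : Game × Edge => (crun q p.1).1) :=
    (Poly.fst (poly_crun q)).comp (Poly.fst Poly.id)
  have hI : Poly (fun p : Game × Edge => p.1) := Poly.fst Poly.id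
  have hok : Poly (fun p : Game × Edge =>
      cok q p.1 (crun q p.1).1 (lk (crun q p.1).1 (va p.2)).1) :=
    poly_cok q hI hr (Poly.fst (poly_lk hr (poly_va.comp (Poly.snd Poly.id))))
  exact Poly.add (Poly.length (Poly.filter (p := fun (I : Game) (e : Edge) =>
      cok q I (crun q I).1 (lk (crun q I).1 (va e)).1) Poly.id hok))
    (Poly.length (Poly.filter (p := fun (I : Game) (e : Edge) =>
      !cok q I (crun q I).1 (lk (crun q I).1 (va e)).1) (Poly.snd (poly_crun q)) (Poly.not hok)))

theorem poly_cacc (q A B : ℕ) : Poly (cacc q A B) := by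
  unfold cacc
  exact Poly.decide_le (Poly.mul (NPC.Poly.const B) (Poly.length Poly.id))
    (Poly.mul (NPC.Poly.const A) (poly_clb q))

/-! ### Correctness -/

/-- The list of the algorithm describes the state. -/
structure Rep (K : List ℕ) (c : List Ent × Game) (s : GS q) : Prop where
  keys : c.1.map Prod.fst = K
  val : ∀ w ∈ K, lk c.1 w = (s.r w, enc (s.σ w))
  frst : c.2 = s.F

theorem lk_map (l : List Ent) (f : ℕ × List ℕ → ℕ × List ℕ) {w : ℕ} (hw : w ∈ l.map Prod.fst) :
    lk (l.map fun x => (x.1, f x.2)) w = f (lk l w) := by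
  unfold lk
  have h1 : ((l.map fun x => (x.1, f x.2)).filter fun x => decide (x.1 = w)) =
      (l.filter fun x => decide (x.1 = w)).map fun x => (x.1, f x.2) := by
    rw [List.filter_map]
    rfl
  rw [h1, List.head?_map]
  cases h : (l.filter fun x => decide (x.1 = w)).head? with
  | none =>
    exfalso
    rw [List.head?_eq_none_iff, List.filter_eq_nil_iff] at h
    obtain ⟨x, hx, hxw⟩ := List.mem_map.1 hw
    exact h x hx (by simpa using hxw)
  | some x => rfl

theorem rep_init (I : Game) : Rep (keys I) (cinit q I) (GS.init q) := by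
  refine ⟨?_, ?_, rfl⟩
  · unfold cinit
    rw [List.map_map]
    exact List.map_id _
  · intro w hw
    unfold lk cinit
    cases h : ((((keys I).map fun w => (w, (w, enc (1 : Equiv.Perm (Fin q)))))).filter
        fun x => decide (x.1 = w)).head? with
    | none =>
      exfalso
      rw [List.head?_eq_none_iff, List.filter_eq_nil_iff] at h
      exact h (w, (w, enc 1)) (List.mem_map.2 ⟨w, hw, rfl⟩) (by simp)
    | some x =>
      have h1 : x ∈ ((((keys I).map fun w => (w, (w, enc (1 : Equiv.Perm (Fin q)))))).filter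
        fun x => decide (x.1 = w)) := List.mem_of_head? h
      rw [List.mem_filter, List.mem_map, decide_eq_true_eq] at h1
      obtain ⟨⟨w', _, rfl⟩, h2⟩ := h1
      dsimp only at h2
      subst h2
      rfl

theorem rep_step {K : List ℕ} {c : List Ent × Game} {s : GS q} (h : Rep K c s) {e : Edge}
    (ha : va e ∈ K) (hb : vb e ∈ K) (he : enc (dec q e.2) = e.2) :
    Rep K (cstep q c e) (s.step (fun e => dec q e.2) e) := by
  unfold cstep GS.step
  rw [h.val _ ha, h.val _ hb]
  dsimp only
  by_cases heq : s.r (va e) = s.r (vb e)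
  · rw [if_pos heq, if_pos heq]
    exact h
  · rw [if_neg heq, if_neg heq]
    refine ⟨?_, ?_, ?_⟩
    · dsimp only
      rw [List.map_map]
      exact h.keys
    · intro w hw
      dsimp only
      rw [lk_map c.1 (fun y => if y.1 = s.r (vb e) then (s.r (va e),
        cm q ((enc (s.σ (va e)), enc (s.σ (vb e))), (e.2, y.2))) else y)
        (by rw [h.keys]; exact hw), h.val w hw]
      dsimp only
      by_cases h1 : s.r w = s.r (vb e)
      · rw [if_pos h1, if_pos h1, if_pos h1]
        conv_lhs => rw [← he]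
        rw [cm_enc]
      · rw [if_neg h1, if_neg h1, if_neg h1]
    · dsimp only
      rw [h.frst]

theorem rep_run {I : Game} (hI : IsGame q I) :
    Rep (keys I) (crun q I) (GS.run (fun e => dec q e.2) I) := by
  have key : ∀ l : Game, (∀ e ∈ l, e ∈ I) →
      Rep (keys I) (l.foldl (cstep q) (cinit q I))
        (l.foldl (GS.step fun e => dec q e.2) (GS.init q)) := by
    intro l
    induction l using List.reverseRecOn with
    | nil => exact fun _ => rep_init I
    | append_singleton l e ih =>
      intro hl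
      rw [List.foldl_append, List.foldl_append]
      have he : e ∈ I := hl e (by simp)
      refine rep_step (ih fun e he => hl e (by simp [he])) ?_ ?_ (enc_dec hI he)
      · unfold keys
        rw [List.mem_flatMap]
        exact ⟨e, he, by simp⟩
      · unfold keys
        rw [List.mem_flatMap]
        exact ⟨e, he, by simp⟩
  exact key I fun e he => he

theorem mem_keys {I : Game} {e : Edge} (he : e ∈ I) : va e ∈ keys I ∧ vb e ∈ keys I := by
  unfold keys
  rw [List.mem_flatMap, List.mem_flatMap]
  exact ⟨⟨e, he, by simp⟩, ⟨e, he, by simp⟩⟩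

theorem cok_iff {I : Game} (hI : IsGame q I) (ρ : ℕ) :
    cok q I (crun q I).1 ρ = true ↔
      GOk (fun e => dec q e.2) I (GS.run (fun e => dec q e.2) I) ρ := by
  have hrep := rep_run hI
  set s := GS.run (fun e => dec q e.2) I
  unfold cok GOk
  have hsat : ∀ e ∈ I, ∀ i : Fin q, csat (crun q I).1 i e = true ↔
      dec q e.2 (s.σ (va e) i) = s.σ (vb e) i := by
    intro e he i
    unfold csat
    rw [decide_eq_true_eq, hrep.val _ (mem_keys he).1, hrep.val _ (mem_keys he).2]
    dsimp only
    rw [enc_get, enc_get, Option.bind_some, dec_get hI he, Option.some_inj]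
    exact ⟨fun h => Fin.ext h, fun h => by rw [h]⟩
  rw [List.any_eq_true]
  constructor
  · rintro ⟨i, hi, h⟩
    rw [List.mem_range] at hi
    rw [List.all_eq_true] at h
    refine ⟨⟨i, hi⟩, fun e he hr => ?_⟩
    have h1 := h e he
    rw [Bool.or_eq_true] at h1
    rcases h1 with h1 | h1
    · exfalso
      rw [hrep.val _ (mem_keys he).1] at h1
      simp [hr] at h1
    · exact (hsat e he ⟨i, hi⟩).1 h1
  · rintro ⟨i, hi⟩
    refine ⟨i, List.mem_range.2 i.2, ?_⟩
    rw [List.all_eq_true]
    intro e he
    rw [Bool.or_eq_true]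
    by_cases hr : s.r (va e) = ρ
    · exact Or.inr ((hsat e he i).2 (hi e he hr))
    · left
      rw [hrep.val _ (mem_keys he).1]
      simpa using hr

open Classical in
theorem clb_eq {I : Game} (hI : IsGame q I) :
    clb q I = GLB (fun e => dec q e.2) I (GS.run (fun e => dec q e.2) I) := by
  have hrep := rep_run hI
  have hinv := GInv.run (π := fun e => dec q e.2) I
  unfold clb GLB
  set s := GS.run (fun e => dec q e.2) I
  have h1 : ∀ e ∈ I, cok q I (crun q I).1 (lk (crun q I).1 (va e)).1 =
      decide (GOk (fun e => dec q e.2) I s (s.r (va e))) := by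
    intro e he
    rw [hrep.val _ (mem_keys he).1, Bool.eq_iff_iff, cok_iff hI, decide_eq_true_eq]
  rw [List.filter_congr h1, hrep.frst]
  congr 2
  refine List.filter_congr fun e he => ?_
  rw [h1 e (List.mem_reverse.1 (hinv.sub.subset he))]
  simp

/-- If all members of the class satisfy the condition `Thr t`, the problem is easy. -/
theorem easy_thr (hq : 0 < q) {C : GraphClass} {t ε δ : ℝ} (hC : ThrC t C) (h : ε + δ < t) :
    UG.Easy (On C) q ε δ := by
  classical
  have hpos : ∀ J : Game, J ≠ [] → (0 : ℝ) < J.length := fun J hJ => by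
    exact_mod_cast List.length_pos_iff.2 hJ
  rcases lt_or_ge δ 0 with hδ | hδ
  · refine ⟨fun _ => True, inPP_of (P := fun _ : Game => True) (d := fun _ : Game => true)
      (NPC.Poly.const true) fun _ => by simp, fun J _ => ⟨fun _ => trivial, ?_⟩⟩
    rintro ⟨hG, hno⟩ -
    have h1 := hno (fun _ => ⟨0, hq⟩) (fun _ => ⟨0, hq⟩)
    have h2 := hpos J hG.1
    have h3 : (0 : ℝ) ≤ numSat J (fun _ => (⟨0, hq⟩ : Fin q)) (fun _ => (⟨0, hq⟩ : Fin q)) := by
      positivity
    nlinarith
  obtain ⟨r, hr1, hr2⟩ := exists_rat_btwn (show δ < t - ε by linarith)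
  have hr0 : (0 : ℝ) < r := lt_of_le_of_lt hδ hr1
  have hr0' : 0 < r := by exact_mod_cast hr0
  set A := r.den with hA
  set B := r.num.toNat with hB
  have hAB : (A : ℝ) * r = B := by
    have h1 : (B : ℤ) = r.num := Int.toNat_of_nonneg (Rat.num_nonneg.2 hr0'.le)
    have h2 : (B : ℝ) = (r.num : ℝ) := by exact_mod_cast h1
    rw [h2]
    have h3 := Rat.den_mul_eq_num r
    exact_mod_cast h3
  have hApos : (0 : ℝ) < A := by exact_mod_cast r.den_pos
  refine ⟨fun J => cacc q A B J = true, inPP_of (poly_cacc q A B) fun _ => Iff.rfl, ?_⟩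
  rintro J ⟨hS, hCJ⟩
  constructor
  · rintro ⟨hG, L, M, hLM⟩
    have h1 := le_GLB (GInv.run J) hS (fun e he => dec_get hG he)
      (hC _ _ (no_isolated J) hCJ) L M
    rw [← clb_eq hG] at h1
    have h2 : (t - ε) * J.length ≤ clb q J := by nlinarith
    unfold cacc
    rw [decide_eq_true_eq]
    have h3 : ((B * J.length : ℕ) : ℝ) ≤ ((A * clb q J : ℕ) : ℝ) := by
      push_cast
      have h4 := hpos J hG.1
      calc (B : ℝ) * J.length = A * (r * J.length) := by rw [← hAB]; ring
        _ ≤ A * ((t - ε) * J.length) := by gcongr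
        _ ≤ _ := by gcongr
    exact_mod_cast h3
  · rintro ⟨hG, hno⟩ hacc
    obtain ⟨L, M, hLM⟩ := GLB_le hq (GInv.run (π := fun e => dec q e.2) J)
      fun e he => dec_get hG he
    rw [← clb_eq hG] at hLM
    have h1 := hno L M
    unfold cacc at hacc
    rw [decide_eq_true_eq] at hacc
    have h2 : ((B * J.length : ℕ) : ℝ) ≤ ((A * clb q J : ℕ) : ℝ) := by exact_mod_cast hacc
    push_cast at h2
    have h3 : (clb q J : ℝ) ≤ numSat J L M := by exact_mod_cast hLM
    have h4 := hpos J hG.1
    have h5 : (A : ℝ) * (r * J.length) ≤ A * (δ * J.length) := by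
      calc (A : ℝ) * (r * J.length) = B * J.length := by rw [← hAB]; ring
        _ ≤ A * clb q J := h2
        _ ≤ A * (δ * J.length) := by
            gcongr
            exact h3.trans h1
    have h6 := le_of_mul_le_mul_left h5 hApos
    have h7 := le_of_mul_le_mul_right h6 h4
    linarith

end Pool.Agent.H697.RT
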