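import Pool.Agent.H697.RT.Code

/-!
# The constraint graph of the random lift of a game
-/

namespace Pool.Agent.H697.RT

open Finset Pool.Agent.NPC Pool.Agent.H697.Exp Pool.Agent.H697.UG Pool.Agent.H697.Red
  Pool.Agent.H697.Forest Pool.Agent.H697.LF

theorem isLift_iso {V W W' : Type} {G : SimpleGraph V} {H : SimpleGraph W} {H' : SimpleGraph W'}
    {n : ℕ} (h : IsLift n H G) (f : H' ≃g H) : IsLift n H' G := by
  obtain ⟨φ, h1, h2⟩ := h
  refine ⟨fun w => φ (f w), fun w => ?_, fun v => ?_⟩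
  · have h3 : Set.BijOn f (H'.neighborSet w) (H.neighborSet (f w)) := by
      refine ⟨fun w' h => f.map_adj_iff.2 h, f.injective.injOn, fun y hy => ?_⟩
      refine ⟨f.symm y, ?_, f.apply_symm_apply y⟩
      have h4 : H.Adj (f w) (f (f.symm y)) := by rw [f.apply_symm_apply]; exact hy
      exact f.map_adj_iff.1 h4
    exact (h1 _).comp h3
  · rw [← h2 v]
    exact Nat.card_congr (f.toEquiv.subtypeEquiv fun w => Iff.rfl)

variable {V0 : Type} {T j b : ℕ} {e0 : V0 → ℕ} {src tgt : Fin T → V0}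
  {tb : (Fin b → Bool) → Loc (Fin T) j} {J : Game} {cf : Edge → ℕ} {m : ℕ}

/-- The random lift. -/
noncomputable abbrev RJ (e0 : V0 → ℕ) (src tgt : Fin T → V0) (tb : (Fin b → Bool) → Loc (Fin T) j)
    (J : Game) (cf : Edge → ℕ) (rr : Fin m → Bool) : Game :=
  RL b (cd e0 src tgt tb) cf J (List.ofFn rr)

/-- The abstract graph. -/
abbrev GJ (src tgt : Fin T → V0) (tb : (Fin b → Bool) → Loc (Fin T) j) (J : Game)
    (hj : 0 < j) (hc : Colored (T * j) cf J) (hm : 2 * J.length * b ≤ m) (rr : Fin m → Bool) :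
    SimpleGraph (WW V0 {n // n ∈ lefts J} {n // n ∈ rights J} j) :=
  gr (aa src (uu J) {n // n ∈ rights J} (cc hj hc)) (bb tgt {n // n ∈ lefts J} (vv J) (cc hj hc))
    (om (uu J) (vv J) (cc hj hc) (gg tb J hm rr)) univ

theorem mem_RJ {rr : Fin m → Bool} {n n' : ℕ} :
    (n, n') ∈ (RJ e0 src tgt tb J cf rr).map Prod.fst ↔ ∃ p : Fin J.length,
      (Sum.inl n : ℕ ⊕ ℕ) = Sum.inl (kL (rle b (cd e0 src tgt tb) J (List.ofFn rr)
        (J[p], cf J[p]))) ∧
      (Sum.inr n' : ℕ ⊕ ℕ) = Sum.inr (kR (rle b (cd e0 src tgt tb) J (List.ofFn rr)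
        (J[p], cf J[p]))) := by
  unfold RJ RL
  rw [List.map_map, List.mem_map]
  constructor
  · rintro ⟨e, he, h⟩
    obtain ⟨p, hp, rfl⟩ := List.mem_iff_getElem.1 he
    refine ⟨⟨p, hp⟩, ?_, ?_⟩
    · exact congrArg (fun x : ℕ × ℕ => (Sum.inl x.1 : ℕ ⊕ ℕ)) h.symm
    · exact congrArg (fun x : ℕ × ℕ => (Sum.inr x.2 : ℕ ⊕ ℕ)) h.symm
  · rintro ⟨p, h1, h2⟩
    exact ⟨J[p], List.getElem_mem _, Prod.ext (Sum.inl_injective h1).symm
      (Sum.inr_injective h2).symm⟩

theorem adj_nmW (he0 : Function.Injective e0) (hj : 0 < j) (hc : Colored (T * j) cf J)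
    (hm : 2 * J.length * b ≤ m) (rr : Fin m → Bool)
    (w w' : WW V0 {n // n ∈ lefts J} {n // n ∈ rights J} j) :
    (cgraph (RJ e0 src tgt tb J cf rr)).Adj (nmW e0 w) (nmW e0 w') ↔
      (GJ src tgt tb J hj hc hm rr).Adj w w' := by
  have key : ∀ l r, (cgraph (RJ e0 src tgt tb J cf rr)).Adj
      (nmW e0 (U := lefts J) (V := rights J) (j := j) (Sum.inl l))
      (nmW e0 (U := lefts J) (V := rights J) (j := j) (Sum.inr r)) ↔
      (GJ src tgt tb J hj hc hm rr).Adj (Sum.inl l) (Sum.inr r) := by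
    intro l r
    rw [gr_adj_lr]
    show (Nat.pair _ _, Nat.pair _ _) ∈ (RJ e0 src tgt tb J cf rr).map Prod.fst ↔ _
    rw [mem_RJ]
    constructor
    · rintro ⟨p, h1, h2⟩
      rw [rle_left hj hc hm rr p] at h1
      rw [rle_right hj hc hm rr p] at h2
      have h3 := nmW_inj he0 (show nmW e0 (U := lefts J) (V := rights J) (j := j) (Sum.inl l) =
        _ from h1)
      have h4 := nmW_inj he0 (show nmW e0 (U := lefts J) (V := rights J) (j := j) (Sum.inr r) =
        _ from h2)
      exact ⟨p, (Sum.inl_injective h3).symm, (Sum.inr_injective h4).symm⟩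
    · rintro ⟨p, h1, h2⟩
      refine ⟨p, ?_, ?_⟩
      · rw [rle_left hj hc hm rr p]
        show nmW e0 (U := lefts J) (V := rights J) (j := j) (Sum.inl l) = _
        rw [← h1]
        rfl
      · rw [rle_right hj hc hm rr p]
        show nmW e0 (U := lefts J) (V := rights J) (j := j) (Sum.inr r) = _
        rw [← h2]
        rfl
  cases w with
  | inl l =>
    cases w' with
    | inl l' => exact ⟨fun h => h.elim, fun h => (gr_adj_ll h).elim⟩
    | inr r => exact key l r
  | inr r =>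
    cases w' with
    | inr r' => exact ⟨fun h => h.elim, fun h => (gr_adj_rr h).elim⟩
    | inl l =>
      rw [SimpleGraph.adj_comm, SimpleGraph.adj_comm (GJ src tgt tb J hj hc hm rr)]
      exact key l r

theorem iso_RJ {G0 : SimpleGraph V0} (hG0 : ∀ a, ∃ b, G0.Adj a b) (hD : Darts G0 src tgt)
    (he0 : Function.Injective e0) (hS : Simple J) (hj : 0 < j) (hc : Colored (T * j) cf J)
    (hm : 2 * J.length * b ≤ m) (rr : Fin m → Bool) :
    Nonempty (graphOf (RJ e0 src tgt tb J cf rr) ≃g GJ src tgt tb J hj hc hm rr) := by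
  have hlift : IsLift _ (GJ src tgt tb J hj hc hm rr) G0 :=
    gr_isLift (colSys hS hj hc) hD (gg tb J hm rr)
  have hmem : ∀ w : WW V0 {n // n ∈ lefts J} {n // n ∈ rights J} j,
      nmW e0 w ∈ (cgraph (RJ e0 src tgt tb J cf rr)).support := by
    intro w
    obtain ⟨w', h⟩ := hlift.exists_adj hG0 w
    exact (SimpleGraph.mem_support _).2 ⟨_, (adj_nmW he0 hj hc hm rr w w').2 h⟩
  have hbij : Function.Bijective (fun w : WW V0 {n // n ∈ lefts J} {n // n ∈ rights J} j =>
      (⟨nmW e0 w, hmem w⟩ : (cgraph (RJ e0 src tgt tb J cf rr)).support)) := by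
    constructor
    · intro w w' h
      exact nmW_inj he0 (congrArg Subtype.val h)
    · rintro ⟨x, hx⟩
      obtain ⟨y, hy⟩ := (SimpleGraph.mem_support _).1 hx
      cases x with
      | inl n =>
        cases y with
        | inl n' => exact hy.elim
        | inr n' =>
          obtain ⟨p, h1, _⟩ := mem_RJ.1 (cadj_lr.1 hy)
          rw [rle_left hj hc hm rr p] at h1
          exact ⟨aa src (uu J) {n // n ∈ rights J} (cc hj hc) p
            (om (uu J) (vv J) (cc hj hc) (gg tb J hm rr) p), Subtype.ext h1.symm⟩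
      | inr n =>
        cases y with
        | inr n' => exact hy.elim
        | inl n' =>
          obtain ⟨p, _, h1⟩ := mem_RJ.1 (cadj_rl.1 hy)
          rw [rle_right hj hc hm rr p] at h1
          exact ⟨bb tgt {n // n ∈ lefts J} (vv J) (cc hj hc) p
            (om (uu J) (vv J) (cc hj hc) (gg tb J hm rr) p), Subtype.ext h1.symm⟩
  refine ⟨(RelIso.mk (Equiv.ofBijective _ hbij) ?_ :
    GJ src tgt tb J hj hc hm rr ≃g graphOf (RJ e0 src tgt tb J cf rr)).symm⟩
  intro w w'
  exact adj_nmW he0 hj hc hm rr w w'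

theorem onLifts_RJ {G0 : SimpleGraph V0} (hG0 : ∀ a, ∃ b, G0.Adj a b) (hD : Darts G0 src tgt)
    (he0 : Function.Injective e0) (hJ : J ≠ []) (hS : Simple J) (hj : 0 < j)
    (hc : Colored (T * j) cf J) {g : ℕ} (hg : GirthGT (graphOf J) g)
    (hm : 2 * J.length * b ≤ m) (rr : Fin m → Bool) :
    OnLifts g G0 (RJ e0 src tgt tb J cf rr) := by
  obtain ⟨f⟩ := iso_RJ (tb := tb) hG0 hD he0 hS hj hc hm rr
  have hlift : IsLift _ (GJ src tgt tb J hj hc hm rr) G0 :=
    gr_isLift (colSys hS hj hc) hD (gg tb J hm rr)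
  have hgirth : GirthGT (GJ src tgt tb J hj hc hm rr) g := by
    refine gr_girth (colSys hS hj hc) (gg tb J hm rr) hg
      (fun x => (⟨Sum.inl x.1, ?_⟩ : (cgraph J).support))
      (fun x => (⟨Sum.inr x.1, ?_⟩ : (cgraph J).support)) ?_ ?_ ?_
    · have hx := x.2
      unfold lefts at hx
      rw [List.mem_toFinset, List.mem_map] at hx
      obtain ⟨e, he, h⟩ := hx
      have := mem_support_mk false he
      rw [← h]
      exact this
    · have hx := x.2
      unfold rights at hx
      rw [List.mem_toFinset, List.mem_map] at hx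
      obtain ⟨e, he, h⟩ := hx
      have := mem_support_mk true he
      rw [← h]
      exact this
    · intro x x' h
      exact Subtype.ext (Sum.inr_injective (congrArg Subtype.val h))
    · intro x x' h
      exact Subtype.ext (Sum.inl_injective (congrArg Subtype.val h))
    · intro p
      exact adj_kk false (List.getElem_mem p.2)
  refine ⟨simple_RL hS, ?_, _, ?_, isLift_iso hlift f⟩
  · exact girthGT_of_hom (G := graphOf (RJ e0 src tgt tb J cf rr))
      (G' := GJ src tgt tb J hj hc hm rr) f.toHom (fun a b b' _ _ h => f.injective h) hgirth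
  · have h1 : 0 < Nat.card {n // n ∈ lefts J} := by
      obtain ⟨e, he⟩ := List.exists_mem_of_ne_nil J hJ
      have : Nonempty {n // n ∈ lefts J} := ⟨⟨kL e, by
        unfold lefts
        rw [List.mem_toFinset]
        exact List.mem_map_of_mem he⟩⟩
      exact Nat.card_pos
    exact Nat.mul_pos (by omega) hj

end Pool.Agent.H697.RT
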