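import Mathlib

/-!
# Random permutations from random bits
-/

namespace Pool.Agent.H697.RT

open Finset

set_option linter.unusedSectionVars false

/-! ### Random bits -/

/-- The bits at the places given by `e` are independent. -/
theorem card_blocks {m b : ℕ} {Z : Type} [Fintype Z] [DecidableEq Z] (e : Z × Fin b → Fin m)
    (he : Function.Injective e) (B : (Z → Fin b → Bool) → Prop) [DecidablePred B] :
    (univ.filter fun r : Fin m → Bool => B fun z k => r (e (z, k))).card *
      2 ^ (Fintype.card Z * b) = (univ.filter B).card * 2 ^ m := by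
  classical
  have h1 : ∀ g : Z → Fin b → Bool, (univ.filter fun r : Fin m → Bool =>
      (fun z k => r (e (z, k))) = g).card * 2 ^ (Fintype.card Z * b) = 2 ^ m := by
    intro g
    have h2 : (univ.filter fun r : Fin m → Bool => (fun z k => r (e (z, k))) = g) =
        Fintype.piFinset fun i : Fin m => if h : ∃ zk, e zk = i then {g h.choose.1 h.choose.2}
          else univ := by
      ext r
      rw [mem_filter, Fintype.mem_piFinset]
      constructor
      · rintro ⟨_, h⟩ i
        split_ifs with hi
        · rw [mem_singleton, ← h]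
          have := hi.choose_spec
          beta_reduce
          rw [Prod.mk.eta, this]
        · exact mem_univ _
      · intro h
        refine ⟨mem_univ _, ?_⟩
        funext z k
        have h3 := h (e (z, k))
        have h4 : ∃ zk, e zk = e (z, k) := ⟨_, rfl⟩
        rw [dif_pos h4, mem_singleton] at h3
        rw [h3]
        have h5 : h4.choose = (z, k) := he h4.choose_spec
        rw [h5]
    rw [h2, Fintype.card_piFinset]
    have h3 : ∀ i : Fin m, (if h : ∃ zk, e zk = i then ({g h.choose.1 h.choose.2} : Finset Bool)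
        else univ).card = if i ∈ univ.image e then 1 else 2 := by
      intro i
      by_cases hi : ∃ zk, e zk = i
      · rw [dif_pos hi, if_pos]
        · simp
        · obtain ⟨zk, hzk⟩ := hi
          exact mem_image.2 ⟨zk, mem_univ _, hzk⟩
      · rw [dif_neg hi, if_neg]
        · simp
        · intro h
          obtain ⟨zk, _, hzk⟩ := mem_image.1 h
          exact hi ⟨zk, hzk⟩
    simp only [h3]
    rw [prod_ite, prod_const_one, one_mul, prod_const, ← pow_add]
    congr 1
    have h4 : (univ.filter fun i : Fin m => i ∈ univ.image e) = univ.image e := by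
      ext i; simp
    have h5 := card_filter_add_card_filter_not (s := (univ : Finset (Fin m)))
      (fun i => i ∈ univ.image e)
    rw [h4, card_image_of_injective _ he, card_univ, card_univ, Fintype.card_prod,
      Fintype.card_fin, Fintype.card_fin] at h5
    omega
  have h2 : (univ.filter fun r : Fin m → Bool => B fun z k => r (e (z, k))).card =
      ∑ g ∈ univ.filter B, (univ.filter fun r : Fin m → Bool =>
        (fun z k => r (e (z, k))) = g).card := by
    rw [card_eq_sum_card_fiberwise (f := fun (r : Fin m → Bool) (z : Z) (k : Fin b) =>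
      r (e (z, k))) (t := univ.filter B)]
    · refine sum_congr rfl fun g hg => ?_
      congr 1
      ext r
      simp only [mem_filter, mem_univ, true_and]
      constructor
      · rintro ⟨_, h⟩; exact h
      · intro h
        refine ⟨?_, h⟩
        rw [h]
        exact (mem_filter.1 hg).2
    · intro r hr
      exact mem_coe.2 (mem_filter.2 ⟨mem_univ _, (mem_filter.1 hr).2⟩)
  rw [h2, sum_mul, sum_congr rfl fun g _ => h1 g, sum_const, smul_eq_mul]

/-- A map with almost equal fibres. -/
theorem exists_table (A L : Type) [Fintype A] [Fintype L] [DecidableEq L] (hL : 0 < Fintype.card L)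
    (h : Fintype.card L ≤ Fintype.card A) : ∃ tb : A → L, ∀ l : L,
      (univ.filter fun a => tb a = l).card * Fintype.card L ≤ 2 * Fintype.card A := by
  classical
  set n := Fintype.card A
  set k := Fintype.card L
  refine ⟨fun a => (Fintype.equivFin L).symm ⟨(Fintype.equivFin A a : ℕ) % k,
    Nat.mod_lt _ hL⟩, fun l => ?_⟩
  have h1 : (univ.filter fun a : A => (Fintype.equivFin L).symm
      ⟨(Fintype.equivFin A a : ℕ) % k, Nat.mod_lt _ hL⟩ = l).card ≤ n / k + 1 := by
    rw [← card_range (n / k + 1)]
    refine card_le_card_of_injOn (fun a => (Fintype.equivFin A a : ℕ) / k) ?_ ?_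
    · intro a _
      rw [mem_coe, mem_range, Nat.lt_succ_iff]
      exact Nat.div_le_div_right (Fintype.equivFin A a).2.le
    · intro a ha a' ha' hd
      have h2 := (mem_filter.1 (mem_coe.1 ha)).2
      have h3 := (mem_filter.1 (mem_coe.1 ha')).2
      have h4 := congrArg Fin.val ((Fintype.equivFin L).symm.injective (h2.trans h3.symm))
      dsimp only at h4 hd
      apply (Fintype.equivFin A).injective
      apply Fin.ext
      rw [← Nat.div_add_mod (Fintype.equivFin A a : ℕ) k,
        ← Nat.div_add_mod (Fintype.equivFin A a' : ℕ) k, h4, hd]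
  calc _ ≤ (n / k + 1) * k := Nat.mul_le_mul_right _ h1
    _ = n / k * k + k := by ring
    _ ≤ n + n := Nat.add_le_add (Nat.div_mul_le_self _ _) h
    _ = 2 * n := by ring

theorem card_table {A L Z : Type} [Fintype A] [DecidableEq A] [Fintype L] [DecidableEq L]
    [Fintype Z] [DecidableEq Z] {tb : A → L} (htb : ∀ l : L,
      (univ.filter fun a => tb a = l).card * Fintype.card L ≤ 2 * Fintype.card A)
    (B : (Z → L) → Prop) [DecidablePred B] :
    (univ.filter fun g : Z → A => B fun z => tb (g z)).card * Fintype.card L ^ Fintype.card Z ≤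
      (univ.filter B).card * (2 * Fintype.card A) ^ Fintype.card Z := by
  classical
  have h1 : (univ.filter fun g : Z → A => B fun z => tb (g z)).card =
      ∑ h ∈ univ.filter B, (univ.filter fun g : Z → A => (fun z => tb (g z)) = h).card := by
    rw [card_eq_sum_card_fiberwise (f := fun (g : Z → A) (z : Z) => tb (g z))
      (t := univ.filter B)]
    · refine sum_congr rfl fun h hh => ?_
      congr 1
      ext g
      simp only [mem_filter, mem_univ, true_and]
      constructor
      · rintro ⟨_, h⟩; exact h
      · intro h'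
        refine ⟨?_, h'⟩
        rw [h']
        exact (mem_filter.1 hh).2
    · intro r hr
      exact mem_coe.2 (mem_filter.2 ⟨mem_univ _, (mem_filter.1 hr).2⟩)
  have h2 : ∀ h : Z → L, (univ.filter fun g : Z → A => (fun z => tb (g z)) = h).card *
      Fintype.card L ^ Fintype.card Z ≤ (2 * Fintype.card A) ^ Fintype.card Z := by
    intro h
    have h3 : (univ.filter fun g : Z → A => (fun z => tb (g z)) = h) =
        Fintype.piFinset fun z => univ.filter fun a => tb a = h z := by
      ext g
      rw [mem_filter, Fintype.mem_piFinset]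
      constructor
      · rintro ⟨_, h4⟩ z
        exact mem_filter.2 ⟨mem_univ _, congrFun h4 z⟩
      · intro h4
        exact ⟨mem_univ _, funext fun z => (mem_filter.1 (h4 z)).2⟩
    rw [h3, Fintype.card_piFinset]
    calc (∏ z, (univ.filter fun a => tb a = h z).card) * Fintype.card L ^ Fintype.card Z
        = ∏ z, ((univ.filter fun a => tb a = h z).card * Fintype.card L) := by
          rw [prod_mul_distrib, prod_const, card_univ]
      _ ≤ ∏ _z : Z, (2 * Fintype.card A) := prod_le_prod (fun _ _ => Nat.zero_le _)
          fun z _ => htb _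
      _ = _ := by rw [prod_const, card_univ]
  rw [h1, sum_mul]
  calc _ ≤ ∑ _h ∈ univ.filter B, (2 * Fintype.card A) ^ Fintype.card Z :=
        sum_le_sum fun h _ => h2 h
    _ = _ := by rw [sum_const, smul_eq_mul]

/-- Random values from random bits. -/
theorem card_random {m b : ℕ} {L Z : Type} [Fintype L] [DecidableEq L]
    [Fintype Z] [DecidableEq Z] (e : Z × Fin b → Fin m) (he : Function.Injective e)
    {tb : (Fin b → Bool) → L} (htb : ∀ l : L,
      (univ.filter fun a => tb a = l).card * Fintype.card L ≤ 2 * 2 ^ b)
    (B : (Z → L) → Prop) [DecidablePred B] :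
    (univ.filter fun r : Fin m → Bool => B fun z => tb fun k => r (e (z, k))).card *
      Fintype.card L ^ Fintype.card Z ≤ (univ.filter B).card * 2 ^ Fintype.card Z * 2 ^ m := by
  have hA : Fintype.card (Fin b → Bool) = 2 ^ b := by simp
  have h1 := card_blocks e he fun g => B fun z => tb (g z)
  have h2 := card_table (Z := Z) (tb := tb) (by rw [hA]; exact htb) B
  rw [hA, mul_pow, ← pow_mul, mul_comm b] at h2
  have h3 : 0 < 2 ^ (Fintype.card Z * b) := by positivity
  refine Nat.le_of_mul_le_mul_right ?_ h3
  calc (univ.filter fun r : Fin m → Bool => B fun z => tb fun k => r (e (z, k))).card *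
      Fintype.card L ^ Fintype.card Z * 2 ^ (Fintype.card Z * b)
      = ((univ.filter fun r : Fin m → Bool => B fun z => tb fun k => r (e (z, k))).card *
        2 ^ (Fintype.card Z * b)) * Fintype.card L ^ Fintype.card Z := by ring
    _ = ((univ.filter fun g : Z → Fin b → Bool => B fun z => tb (g z)).card * 2 ^ m) *
        Fintype.card L ^ Fintype.card Z := by rw [h1]
    _ = ((univ.filter fun g : Z → Fin b → Bool => B fun z => tb (g z)).card *
        Fintype.card L ^ Fintype.card Z) * 2 ^ m := by ring
    _ ≤ ((univ.filter B).card * (2 ^ Fintype.card Z * 2 ^ (Fintype.card Z * b))) * 2 ^ m :=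
        Nat.mul_le_mul_right _ h2
    _ = _ := by ring

/-! ### Random permutations -/

/-- Permutations for all types. -/
abbrev Loc (T : Type) (j : ℕ) : Type := T → Equiv.Perm (Fin j)

section
variable {ι U V T : Type} {j : ℕ}

/-- The places given by permutations. -/
def om (u : ι → U) (v : ι → V) (col : ι → T × Fin j) (g : U ⊕ V → Loc T j) (p : ι) :
    Fin j × Fin j :=
  (g (Sum.inl (u p)) (col p).1 (col p).2, g (Sum.inr (v p)) (col p).1 (col p).2)

variable {u : ι → U} {v : ι → V} {col : ι → T × Fin j}

theorem om_injective (hu : ∀ x c, ∃ p, u p = x ∧ col p = c) (hv : ∀ x c, ∃ p, v p = x ∧ col p = c) :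
    Function.Injective (om u v col) := by
  intro g g' h
  funext z
  cases z with
  | inl x =>
    funext t
    apply Equiv.ext
    intro k
    obtain ⟨p, rfl, hp⟩ := hu x (t, k)
    have h1 := congrArg Prod.fst (congrFun h p)
    unfold om at h1
    dsimp only at h1
    rw [hp] at h1
    exact h1
  | inr x =>
    funext t
    apply Equiv.ext
    intro k
    obtain ⟨p, rfl, hp⟩ := hv x (t, k)
    have h1 := congrArg Prod.snd (congrFun h p)
    unfold om at h1
    dsimp only at h1
    rw [hp] at h1
    exact h1

theorem card_loc [Fintype T] [DecidableEq T] : Fintype.card (Loc T j) = j.factorial ^ Fintype.card T := by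
  unfold Loc
  rw [Fintype.card_fun, Fintype.card_perm, Fintype.card_fin]

theorem pow_le_fact (j : ℕ) : ((j : ℝ)) ^ j ≤ Real.exp j * j.factorial := by
  have h := Real.pow_div_factorial_le_exp (j : ℝ) (by positivity) j
  rwa [div_le_iff₀ (by positivity)] at h

variable [Fintype ι] [DecidableEq ι] [Fintype U] [DecidableEq U] [Fintype V] [DecidableEq V]
  [Fintype T] [DecidableEq T]

theorem card_places (h1 : Fintype.card U * (Fintype.card T * j) = Fintype.card ι)
    (h2 : Fintype.card V * (Fintype.card T * j) = Fintype.card ι) :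
    (Fintype.card (Fin j × Fin j) : ℝ) ^ Fintype.card ι ≤
      Real.exp (2 * Fintype.card ι) * (Fintype.card (Loc T j) : ℝ) ^ Fintype.card (U ⊕ V) := by
  rw [Fintype.card_prod, Fintype.card_fin, card_loc, Fintype.card_sum]
  set N := Fintype.card ι
  set nu := Fintype.card U
  set nv := Fintype.card V
  set τ := Fintype.card T
  have key : ∀ n : ℕ, n * (τ * j) = N → (j : ℝ) ^ N ≤
      Real.exp N * ((j.factorial : ℝ) ^ τ) ^ n := by
    intro n hn
    have h3 : (j : ℝ) ^ N = (((j : ℝ) ^ j) ^ τ) ^ n := by
      rw [← hn, ← pow_mul, ← pow_mul]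
      congr 1
      ring
    rw [h3]
    have h4 : Real.exp N = ((Real.exp j) ^ τ) ^ n := by
      rw [← Real.exp_nat_mul, ← Real.exp_nat_mul, ← hn]
      congr 1
      push_cast
      ring
    rw [h4, ← mul_pow, ← mul_pow]
    exact pow_le_pow_left₀ (by positivity) (pow_le_pow_left₀ (by positivity) (pow_le_fact j) _) _
  push_cast
  have e1 : ((j : ℝ) * j) ^ N = (j : ℝ) ^ N * (j : ℝ) ^ N := by rw [mul_pow]
  have e2 : Real.exp (2 * N) = Real.exp N * Real.exp N := by
    rw [← Real.exp_add]; congr 1; ring
  rw [e1, e2, pow_add]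
  calc (j : ℝ) ^ N * (j : ℝ) ^ N ≤ (Real.exp N * ((j.factorial : ℝ) ^ τ) ^ nu) *
        (Real.exp N * ((j.factorial : ℝ) ^ τ) ^ nv) :=
        mul_le_mul (key nu h1) (key nv h2) (by positivity) (by positivity)
    _ = _ := by ring

/-- The probability of an event is at most exponentially larger for random permutations from random
bits than for independent random places. -/
theorem card_bits {m b : ℕ} (e : (U ⊕ V) × Fin b → Fin m) (he : Function.Injective e)
    {tb : (Fin b → Bool) → Loc T j} (htb : ∀ l : Loc T j,
      (univ.filter fun a => tb a = l).card * Fintype.card (Loc T j) ≤ 2 * 2 ^ b)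
    (hu : ∀ x c, ∃ p, u p = x ∧ col p = c) (hv : ∀ x c, ∃ p, v p = x ∧ col p = c)
    (h1 : Fintype.card U * (Fintype.card T * j) = Fintype.card ι)
    (h2 : Fintype.card V * (Fintype.card T * j) = Fintype.card ι)
    (h3 : Fintype.card U + Fintype.card V ≤ 2 * Fintype.card ι) (hj : 0 < j)
    (B : (ι → Fin j × Fin j) → Prop) [DecidablePred B] {y : ℝ}
    (hB : ((univ.filter B).card : ℝ) ≤ y * (Fintype.card (Fin j × Fin j) : ℝ) ^ Fintype.card ι)
    (hy : 0 ≤ y) :
    ((univ.filter fun r : Fin m → Bool => B (om u v col fun z => tb fun k => r (e (z, k)))).card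
      : ℝ) ≤ 32 ^ Fintype.card ι * y * 2 ^ m := by
  have h4 := card_random e he htb fun g => B (om u v col g)
  have h5 : (univ.filter fun g : U ⊕ V → Loc T j => B (om u v col g)).card ≤
      (univ.filter B).card := by
    refine card_le_card_of_injOn (om u v col) ?_ (fun g _ g' _ h => om_injective hu hv h)
    intro g hg
    exact mem_coe.2 (mem_filter.2 ⟨mem_univ _, (mem_filter.1 hg).2⟩)
  have h6 := card_places (T := T) (j := j) h1 h2
  have hLpos : (0 : ℝ) < (Fintype.card (Loc T j) : ℝ) ^ Fintype.card (U ⊕ V) := by
    rw [card_loc]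
    have := Nat.factorial_pos j
    positivity
  refine le_of_mul_le_mul_right ?_ hLpos
  have h7 : (((univ.filter fun r : Fin m → Bool => B (om u v col fun z => tb fun k =>
      r (e (z, k)))).card : ℝ)) * (Fintype.card (Loc T j) : ℝ) ^ Fintype.card (U ⊕ V) ≤
      (univ.filter fun g : U ⊕ V → Loc T j => B (om u v col g)).card *
        2 ^ Fintype.card (U ⊕ V) * 2 ^ m := by exact_mod_cast h4
  refine h7.trans ?_
  have h8 : ((univ.filter fun g : U ⊕ V → Loc T j => B (om u v col g)).card : ℝ) ≤
      y * (Real.exp (2 * Fintype.card ι) *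
        (Fintype.card (Loc T j) : ℝ) ^ Fintype.card (U ⊕ V)) := by
    have h9 : ((univ.filter fun g : U ⊕ V → Loc T j => B (om u v col g)).card : ℝ) ≤
        (univ.filter B).card := by exact_mod_cast h5
    exact h9.trans (hB.trans (mul_le_mul_of_nonneg_left h6 hy))
  have h9 : (2 : ℝ) ^ Fintype.card (U ⊕ V) ≤ 4 ^ Fintype.card ι := by
    rw [Fintype.card_sum]
    calc (2 : ℝ) ^ (Fintype.card U + Fintype.card V) ≤ 2 ^ (2 * Fintype.card ι) :=
          pow_le_pow_right₀ (by norm_num) h3
      _ = 4 ^ Fintype.card ι := by rw [pow_mul]; norm_num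
  have h10 : Real.exp (2 * Fintype.card ι) ≤ 8 ^ Fintype.card ι := by
    have h11 : Real.exp (2 * Fintype.card ι) = (Real.exp 1 ^ 2) ^ Fintype.card ι := by
      rw [← pow_mul, ← Real.exp_nat_mul]
      push_cast
      congr 1
      ring
    rw [h11]
    refine pow_le_pow_left₀ (by positivity) ?_ _
    have h12 := Real.exp_one_lt_d9
    have h13 := Real.exp_pos 1
    nlinarith
  calc _ ≤ y * (Real.exp (2 * Fintype.card ι) *
        (Fintype.card (Loc T j) : ℝ) ^ Fintype.card (U ⊕ V)) * 4 ^ Fintype.card ι * 2 ^ m := by
        gcongr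
    _ ≤ y * (8 ^ Fintype.card ι *
        (Fintype.card (Loc T j) : ℝ) ^ Fintype.card (U ⊕ V)) * 4 ^ Fintype.card ι * 2 ^ m := by
        gcongr
    _ = _ := by
        have e : (32 : ℝ) ^ Fintype.card ι = 8 ^ Fintype.card ι * 4 ^ Fintype.card ι := by
          rw [← mul_pow]; norm_num
        rw [e]
        ring

end

end Pool.Agent.H697.RT
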