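import Pool.Agent.H697.RT.Struct
import Pool.Agent.H697.RT.Perm
import Pool.Agent.H697.LF.GirthLift

/-!
# The graph given by random permutations is a lift
-/

namespace Pool.Agent.H697.RT

open Finset Pool.Agent.H697.Exp Pool.Agent.H697.LF

set_option linter.unusedSectionVars false

variable {V0 T ι U V : Type} {j : ℕ}

/-- The vertices of the lift. -/
abbrev WW (V0 U V : Type) (j : ℕ) : Type := (V0 × U × Fin j) ⊕ (V0 × V × Fin j)

/-- The left end. -/
def aa (src : T → V0) (u : ι → U) (V : Type) (col : ι → T × Fin j) (p : ι) (x : Fin j × Fin j) :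
    WW V0 U V j := Sum.inl (src (col p).1, u p, x.1)

/-- The right end. -/
def bb (tgt : T → V0) (U : Type) (v : ι → V) (col : ι → T × Fin j) (p : ι) (x : Fin j × Fin j) :
    WW V0 U V j := Sum.inr (tgt (col p).1, v p, x.2)

/-- The coloured constraint graph. -/
structure ColSys (u : ι → U) (v : ι → V) (col : ι → T × Fin j) : Prop where
  exL : ∀ x c, ∃ p, u p = x ∧ col p = c
  exR : ∀ x c, ∃ p, v p = x ∧ col p = c
  injL : ∀ p p', u p = u p' → col p = col p' → p = p'
  injR : ∀ p p', v p = v p' → col p = col p' → p = p'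
  simple : ∀ p p', u p = u p' → v p = v p' → p = p'

/-- `src` and `tgt` list all ordered pairs of adjacent vertices. -/
structure Darts (G0 : SimpleGraph V0) (src tgt : T → V0) : Prop where
  adj : ∀ t, G0.Adj (src t) (tgt t)
  ex : ∀ x y, G0.Adj x y → ∃ t, src t = x ∧ tgt t = y
  inj : ∀ t t', src t = src t' → tgt t = tgt t' → t = t'

variable {G0 : SimpleGraph V0} {src tgt : T → V0} {u : ι → U} {v : ι → V} {col : ι → T × Fin j}

variable [Fintype ι]

theorem gr_adj_lr {ω : ι → Fin j × Fin j} {l : V0 × U × Fin j} {r : V0 × V × Fin j} :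
    (gr (aa src u V col) (bb tgt U v col) ω univ).Adj (Sum.inl l) (Sum.inr r) ↔
      ∃ p, (src (col p).1, u p, (ω p).1) = l ∧ (tgt (col p).1, v p, (ω p).2) = r := by
  unfold gr
  rw [SimpleGraph.fromRel_adj]
  constructor
  · rintro ⟨_, ⟨p, _, h1, h2⟩ | ⟨p, _, h1, h2⟩⟩
    · exact ⟨p, Sum.inl_injective h1, Sum.inr_injective h2⟩
    · unfold aa at h1
      simp at h1
  · rintro ⟨p, h1, h2⟩
    exact ⟨by simp, Or.inl ⟨p, mem_univ _, congrArg Sum.inl h1, congrArg Sum.inr h2⟩⟩

theorem gr_adj_ll {ω : ι → Fin j × Fin j} {l l' : V0 × U × Fin j} :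
    ¬ (gr (aa src u V col) (bb tgt U v col) ω univ).Adj (Sum.inl l) (Sum.inl l') := by
  unfold gr
  rw [SimpleGraph.fromRel_adj]
  rintro ⟨_, ⟨p, _, _, h2⟩ | ⟨p, _, _, h2⟩⟩
  · unfold bb at h2; simp at h2
  · unfold bb at h2; simp at h2

theorem gr_adj_rr {ω : ι → Fin j × Fin j} {l l' : V0 × V × Fin j} :
    ¬ (gr (aa src u V col) (bb tgt U v col) ω univ).Adj (Sum.inr l) (Sum.inr l') := by
  unfold gr
  rw [SimpleGraph.fromRel_adj]
  rintro ⟨_, ⟨p, _, h1, _⟩ | ⟨p, _, h1, _⟩⟩
  · unfold aa at h1; simp at h1
  · unfold aa at h1; simp at h1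

/-- Base vertex. -/
def base : WW V0 U V j → V0
  | Sum.inl l => l.1
  | Sum.inr r => r.1

theorem gr_isLift [Finite U] [Finite V] (hc : ColSys u v col) (hD : Darts G0 src tgt)
    (g : U ⊕ V → Loc T j) :
    IsLift ((Nat.card U + Nat.card V) * j)
      (gr (aa src u V col) (bb tgt U v col) (om u v col g) univ) G0 := by
  refine ⟨base, fun w => ?_, fun x => ?_⟩
  · cases w with
    | inl l =>
      obtain ⟨x, z, i⟩ := l
      refine ⟨?_, ?_, ?_⟩
      · intro w' hw'
        rw [SimpleGraph.mem_neighborSet] at hw' ⊢
        cases w' with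
        | inl l' => exact (gr_adj_ll hw').elim
        | inr r =>
          obtain ⟨p, h1, rfl⟩ := gr_adj_lr.1 hw'
          have h2 := hD.adj (col p).1
          have h3 : src (col p).1 = x := congrArg Prod.fst h1
          rw [h3] at h2
          exact h2
      · intro w1 hw1 w2 hw2 heq
        rw [SimpleGraph.mem_neighborSet] at hw1 hw2
        cases w1 with
        | inl l' => exact (gr_adj_ll hw1).elim
        | inr r1 =>
          cases w2 with
          | inl l' => exact (gr_adj_ll hw2).elim
          | inr r2 =>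
            obtain ⟨p1, h1, rfl⟩ := gr_adj_lr.1 hw1
            obtain ⟨p2, h2, rfl⟩ := gr_adj_lr.1 hw2
            have h3 := h1.trans h2.symm
            simp only [Prod.mk.injEq] at h3
            obtain ⟨h4, h5, h6⟩ := h3
            have h7 : tgt (col p1).1 = tgt (col p2).1 := heq
            have h8 := hD.inj _ _ h4 h7
            unfold om at h6
            dsimp only at h6
            rw [h5, h8] at h6
            have h9 : (col p1).2 = (col p2).2 := (g (Sum.inl (u p2)) (col p2).1).injective h6
            have h10 := hc.injL _ _ h5 (Prod.ext h8 h9)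
            rw [h10]
      · intro y hy
        obtain ⟨t, h1, rfl⟩ := hD.ex _ _ hy
        obtain ⟨p, h2, h3⟩ := hc.exL z (t, (g (Sum.inl z) t).symm i)
        refine ⟨Sum.inr (tgt (col p).1, v p, (om u v col g p).2), ?_, ?_⟩
        · rw [SimpleGraph.mem_neighborSet]
          refine gr_adj_lr.2 ⟨p, ?_, rfl⟩
          unfold om
          dsimp only
          rw [h3, h2]
          dsimp only
          rw [h1, Equiv.apply_symm_apply]
          rfl
        · show tgt (col p).1 = tgt t
          rw [h3]
    | inr l =>
      obtain ⟨x, z, i⟩ := l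
      refine ⟨?_, ?_, ?_⟩
      · intro w' hw'
        rw [SimpleGraph.mem_neighborSet] at hw' ⊢
        cases w' with
        | inr l' => exact (gr_adj_rr hw').elim
        | inl r =>
          obtain ⟨p, rfl, h1⟩ := gr_adj_lr.1 hw'.symm
          have h2 := (hD.adj (col p).1).symm
          have h3 : tgt (col p).1 = x := congrArg Prod.fst h1
          rw [h3] at h2
          exact h2
      · intro w1 hw1 w2 hw2 heq
        rw [SimpleGraph.mem_neighborSet] at hw1 hw2
        cases w1 with
        | inr l' => exact (gr_adj_rr hw1).elim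
        | inl r1 =>
          cases w2 with
          | inr l' => exact (gr_adj_rr hw2).elim
          | inl r2 =>
            obtain ⟨p1, rfl, h1⟩ := gr_adj_lr.1 hw1.symm
            obtain ⟨p2, rfl, h2⟩ := gr_adj_lr.1 hw2.symm
            have h3 := h1.trans h2.symm
            simp only [Prod.mk.injEq] at h3
            obtain ⟨h4, h5, h6⟩ := h3
            have h7 : src (col p1).1 = src (col p2).1 := heq
            have h8 := hD.inj _ _ h7 h4
            unfold om at h6
            dsimp only at h6
            rw [h5, h8] at h6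
            have h9 : (col p1).2 = (col p2).2 := (g (Sum.inr (v p2)) (col p2).1).injective h6
            have h10 := hc.injR _ _ h5 (Prod.ext h8 h9)
            rw [h10]
      · intro y hy
        have hy' : G0.Adj x y := hy
        obtain ⟨t, rfl, h1⟩ := hD.ex _ _ hy'.symm
        obtain ⟨p, h2, h3⟩ := hc.exR z (t, (g (Sum.inr z) t).symm i)
        refine ⟨Sum.inl (src (col p).1, u p, (om u v col g p).1), ?_, ?_⟩
        · rw [SimpleGraph.mem_neighborSet]
          refine SimpleGraph.Adj.symm (gr_adj_lr.2 ⟨p, rfl, ?_⟩)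
          unfold om
          dsimp only
          rw [h3, h2]
          dsimp only
          rw [h1, Equiv.apply_symm_apply]
        · show src (col p).1 = src t
          rw [h3]
  · have e : {w : WW V0 U V j // base w = x} ≃ (U × Fin j) ⊕ (V × Fin j) :=
      { toFun := fun w => match w with
          | ⟨Sum.inl l, _⟩ => Sum.inl l.2
          | ⟨Sum.inr r, _⟩ => Sum.inr r.2
        invFun := fun s => match s with
          | Sum.inl l => ⟨Sum.inl (x, l), rfl⟩
          | Sum.inr r => ⟨Sum.inr (x, r), rfl⟩
        left_inv := by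
          rintro ⟨⟨y, l⟩ | ⟨y, r⟩, h⟩
          · have : x = y := h.symm
            subst this
            rfl
          · have : x = y := h.symm
            subst this
            rfl
        right_inv := by rintro (l | r) <;> rfl }
    rw [Nat.card_congr e, Nat.card_sum, Nat.card_prod, Nat.card_prod, Nat.card_fin]
    ring

/-- The girth of the lift. -/
theorem gr_girth (hc : ColSys u v col) (g : U ⊕ V → Loc T j) {Y : Type} {K : SimpleGraph Y}
    {s : ℕ} (hK : GirthGT K s) (fU : U → Y) (fV : V → Y) (hfV : Function.Injective fV)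
    (hfU : Function.Injective fU) (hadj : ∀ p, K.Adj (fU (u p)) (fV (v p))) :
    GirthGT (gr (aa src u V col) (bb tgt U v col) (om u v col g) univ) s := by
  set φ : WW V0 U V j → Y := fun w => match w with
    | Sum.inl l => fU l.2.1
    | Sum.inr r => fV r.2.1 with hφ
  refine girthGT_of_hom (G' := K) ⟨φ, ?_⟩ ?_ hK
  · intro w w' h
    cases w with
    | inl l =>
      cases w' with
      | inl l' => exact (gr_adj_ll h).elim
      | inr r =>
        obtain ⟨p, rfl, rfl⟩ := gr_adj_lr.1 h
        exact hadj p
    | inr r =>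
      cases w' with
      | inr l' => exact (gr_adj_rr h).elim
      | inl l =>
        obtain ⟨p, rfl, rfl⟩ := gr_adj_lr.1 h.symm
        exact (hadj p).symm
  · intro w w1 w2 h1 h2 heq
    have heq' : φ w1 = φ w2 := heq
    cases w with
    | inl l =>
      cases w1 with
      | inl l' => exact (gr_adj_ll h1).elim
      | inr r1 =>
        cases w2 with
        | inl l' => exact (gr_adj_ll h2).elim
        | inr r2 =>
          obtain ⟨p1, h3, rfl⟩ := gr_adj_lr.1 h1
          obtain ⟨p2, h4, rfl⟩ := gr_adj_lr.1 h2
          have h5 := congrArg (fun l : V0 × U × Fin j => l.2.1) (h3.trans h4.symm)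
          have h6 : v p1 = v p2 := hfV heq'
          have h7 := hc.simple _ _ h5 h6
          rw [h7]
    | inr r =>
      cases w1 with
      | inr l' => exact (gr_adj_rr h1).elim
      | inl r1 =>
        cases w2 with
        | inr l' => exact (gr_adj_rr h2).elim
        | inl r2 =>
          obtain ⟨p1, rfl, h3⟩ := gr_adj_lr.1 h1.symm
          obtain ⟨p2, rfl, h4⟩ := gr_adj_lr.1 h2.symm
          have h5 := congrArg (fun l : V0 × V × Fin j => l.2.1) (h3.trans h4.symm)
          have h6 : u p1 = u p2 := hfU heq'
          have h7 := hc.simple _ _ h6 h5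
          rw [h7]

end Pool.Agent.H697.RT
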