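import Pool.Agent.H697.RT.GreedyAlg

/-!
# Perfect completeness: counting and labellings of forests
-/

namespace Pool.Agent.H697.RT

open Finset Pool.Agent.NPC Pool.Agent.H697.Exp Pool.Agent.H697.UG Pool.Agent.H697.Red
  Pool.Agent.H697.Forest Pool.Agent.H697.LF

variable {q : ℕ} {π : Edge → Equiv.Perm (Fin q)}

open Classical in
/-- The edges of the classes with the property `P`, and the edges of the forest in the others. -/
noncomputable def LBP (I : Game) (s : GS q) (P : ℕ → Prop) : ℕ :=
  (I.filter fun e => decide (P (s.r (va e)))).length +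
    (s.F.filter fun e => decide (¬ P (s.r (va e)))).length

open Classical in
/-- The upper bound. -/
theorem LBP_le {I : Game} {s : GS q} (h : GInv π I s) (P : ℕ → Prop) {q' : ℕ}
    (L M : ℕ → Fin q') (hsat1 : ∀ e ∈ I, P (s.r (va e)) → Sat L M e)
    (hsat2 : ∀ e ∈ s.F, Sat L M e) : LBP I s P ≤ numSat I L M := by
  have h1 : (s.F.filter fun e => decide (¬ P (s.r (va e)))).length ≤
      (I.filter fun e => decide (¬ P (s.r (va e))) && decide (Sat L M e)).length := by
    have h2 : (s.F.filter fun e => decide (¬ P (s.r (va e)))) =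
        s.F.filter fun e => decide (¬ P (s.r (va e))) && decide (Sat L M e) := by
      refine List.filter_congr fun e he => ?_
      simp [hsat2 e he]
    rw [h2]
    refine (h.sub.filter _).length_le.trans ?_
    rw [List.filter_reverse, List.length_reverse]
  have h2 : (I.filter fun e => decide (P (s.r (va e)))) =
      I.filter fun e => decide (P (s.r (va e))) && decide (Sat L M e) := by
    refine List.filter_congr fun e he => ?_
    by_cases h3 : P (s.r (va e))
    · simp [h3, hsat1 e he h3]
    · simp [h3]
  have h3 : numSat I L M =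
      (I.filter fun e => decide (P (s.r (va e))) && decide (Sat L M e)).length +
      (I.filter fun e => decide (¬ P (s.r (va e))) && decide (Sat L M e)).length := by
    unfold numSat
    rw [← List.countP_eq_length_filter, ← List.countP_eq_length_filter,
      ← List.countP_eq_length_filter]
    clear h1 h2 hsat1 hsat2 h
    generalize hP : (fun e : Edge => decide (P (s.r (va e)))) = P0
    have hP' : (fun e : Edge => decide (¬ P (s.r (va e))) && decide (Sat L M e)) =
        fun e => !(P0 e) && decide (Sat L M e) := by
      funext e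
      rw [← hP]
      simp
    have hP'' : (fun e : Edge => decide (P (s.r (va e))) && decide (Sat L M e)) =
        fun e => P0 e && decide (Sat L M e) := by
      funext e
      rw [← hP]
    rw [hP', hP'']
    clear hP hP' hP''
    generalize I = l
    induction l with
    | nil => rfl
    | cons e l ih =>
      simp only [List.countP_cons, ih]
      cases P0 e <;> cases decide (Sat L M e) <;> simp <;> omega
  unfold LBP
  rw [h2, h3]
  exact Nat.add_le_add_left h1 _

/-- The codes of the vertices. -/
def kset (I : Game) : Finset ℕ := (I.map va).toFinset ∪ (I.map vb).toFinset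

open Classical in
/-- The classes without the property `P`. -/
noncomputable def nset (I : Game) (s : GS q) (P : ℕ → Prop) : Finset ℕ :=
  ((I.filter fun e => decide (¬ P (s.r (va e)))).map fun e => s.r (va e)).toFinset

theorem mem_nset {I : Game} {s : GS q} {P : ℕ → Prop} {ρ : ℕ} : ρ ∈ nset I s P ↔
    ¬ P ρ ∧ ∃ e ∈ I, s.r (va e) = ρ := by
  classical
  unfold nset
  rw [List.mem_toFinset, List.mem_map]
  constructor
  · rintro ⟨e, he, rfl⟩
    rw [List.mem_filter] at he
    exact ⟨by simpa using he.2, e, he.1, rfl⟩
  · rintro ⟨h1, e, he, rfl⟩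
    exact ⟨e, by rw [List.mem_filter]; exact ⟨he, by simpa using h1⟩, rfl⟩

open Classical in
/-- The lower bound. -/
theorem le_LBP {I : Game} {s : GS q} (h : GInv π I s) (hS : Simple I) (P : ℕ → Prop)
    {t : ℝ} (ht : Thr t (graphOf I)) :
    t * I.length ≤ LBP I s P + (nset I s P).card := by
  set K : Finset ℕ := kset I with hK
  set N : Finset ℕ := nset I s P with hN
  have hKN : ∀ w ∈ K, ¬ P (s.r w) → s.r w ∈ N := by
    intro w hw hok
    rw [hK] at hw
    unfold kset at hw
    rw [mem_union, List.mem_toFinset, List.mem_toFinset, List.mem_map, List.mem_map] at hw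
    rw [hN, mem_nset]
    rcases hw with ⟨e, he, rfl⟩ | ⟨e, he, rfl⟩
    · exact ⟨hok, e, he, rfl⟩
    · exact ⟨hok, e, he, h.same e he⟩
  have hNok : ∀ ρ ∈ N, ¬ P ρ := fun ρ hρ => by
    rw [hN, mem_nset] at hρ
    exact hρ.1
  -- the number of the vertices
  have hverts : (K.filter fun w => ¬ P (s.r w)).card ≤
      (s.F.filter fun e => decide (¬ P (s.r (va e)))).length + N.card := by
    have h1 : (K.filter fun w => ¬ P (s.r w)) ⊆
        N.biUnion fun ρ => K.filter fun w => s.r w = ρ := by
      intro w hw
      obtain ⟨h2, h3⟩ := mem_filter.1 hw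
      exact mem_biUnion.2 ⟨s.r w, hKN w h2 h3, mem_filter.2 ⟨h2, rfl⟩⟩
    refine (card_le_card h1).trans (card_biUnion_le.trans ?_)
    refine (sum_le_sum fun ρ _ => h.cnt K ρ).trans ?_
    rw [sum_add_distrib, sum_const, smul_eq_mul, mul_one, sum_filter_length (fun e => s.r (va e))]
    refine Nat.add_le_add_right ?_ _
    rw [← List.countP_eq_length_filter, ← List.countP_eq_length_filter]
    refine List.countP_mono_left fun e _ he => ?_
    rw [decide_eq_true_eq] at he ⊢
    exact hNok _ he
  -- the number of the edges
  have hedges := ncard_filter_le hS (fun w => ¬ P (s.r w)) fun e he => by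
    rw [h.same e he]
  have hthr := ht {z | ¬ P (s.r (vcode z.1))}
  rw [ncard_edges hS] at hthr
  have hset : ({z | ¬ P (s.r (vcode z.1))} : Set (cgraph I).support).ncard ≤
      (K.filter fun w => ¬ P (s.r w)).card := by
    rw [← Set.ncard_coe_finset]
    refine Set.ncard_le_ncard_of_injOn (fun z => vcode z.1) ?_ ?_ (Finset.finite_toSet _)
    · rintro ⟨z, hz⟩ hz'
      rw [mem_coe, mem_filter]
      refine ⟨?_, hz'⟩
      rw [support_eq, mem_coe, mem_union, mem_map, mem_map] at hz
      unfold lefts rights at hz
      simp only [List.mem_toFinset, List.mem_map, Function.Embedding.coeFn_mk] at hz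
      rw [hK]
      unfold kset
      rw [mem_union, List.mem_toFinset, List.mem_toFinset, List.mem_map, List.mem_map]
      rcases hz with ⟨u, ⟨e, he, rfl⟩, rfl⟩ | ⟨u, ⟨e, he, rfl⟩, rfl⟩
      · exact Or.inl ⟨e, he, rfl⟩
      · exact Or.inr ⟨e, he, rfl⟩
    · intro z _ z' _ hzz
      exact Subtype.ext (vcode_inj hzz)
  have hlen : (I.filter fun e => decide (P (s.r (va e)))).length +
      (I.filter fun e => decide (¬ P (s.r (va e)))).length = I.length := by
    have h1 : (fun e : Edge => decide (¬ P (s.r (va e)))) =
        fun e => !decide (P (s.r (va e))) := by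
      funext e
      simp
    rw [h1]
    exact (List.length_eq_length_filter_add _).symm
  unfold LBP
  have h1 : (((I.filter fun e => decide (¬ P (s.r (va e)))).length : ℕ) : ℝ) ≤
      (({z | ¬ P (s.r (vcode z.1))} : Set (cgraph I).support).ncard : ℝ) +
        (1 - t) * I.length := by
    refine le_trans ?_ hthr
    exact_mod_cast hedges
  have h2 : ((({z | ¬ P (s.r (vcode z.1))} : Set (cgraph I).support).ncard : ℕ) : ℝ) ≤
      (K.filter fun w => ¬ P (s.r w)).card := by exact_mod_cast hset
  have h3 : (((K.filter fun w => ¬ P (s.r w)).card : ℕ) : ℝ) ≤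
      ((s.F.filter fun e => decide (¬ P (s.r (va e)))).length : ℝ) + N.card := by
    exact_mod_cast hverts
  have h5 : (((I.filter fun e => decide (P (s.r (va e)))).length : ℕ) : ℝ) +
      (I.filter fun e => decide (¬ P (s.r (va e)))).length = I.length := by
    exact_mod_cast hlen
  push_cast
  linarith

open Classical in
/-- There are few classes with many edges. -/
theorem card_nset_le {I : Game} {s : GS q} (h : GInv π I s) (hS : Simple I) (P : ℕ → Prop) {k : ℕ}
    (hP : ∀ e ∈ I, ¬ P (s.r (va e)) →
      k ^ 2 < (I.filter fun e' => decide (s.r (va e') = s.r (va e))).length) :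
    k * (nset I s P).card ≤ 2 * I.length := by
  have h1 : ∀ ρ ∈ nset I s P, k ≤ ((kset I).filter fun w => s.r w = ρ).card := by
    intro ρ hρ
    obtain ⟨h2, e, he, rfl⟩ := mem_nset.1 hρ
    have h3 := hP e he h2
    set V := (kset I).filter fun w => s.r w = s.r (va e) with hV
    have h4 : (I.filter fun e' => decide (s.r (va e') = s.r (va e))).length ≤ V.card * V.card := by
      rw [← card_product]
      set J := I.filter fun e' => decide (s.r (va e') = s.r (va e)) with hJ
      have hJS : (J.map Prod.fst).Nodup := by
        unfold Simple at hS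
        exact hS.sublist (List.filter_sublist.map _)
      have h5 : (J.map Prod.fst).toFinset.card = J.length := by
        rw [List.toFinset_card_of_nodup hJS, List.length_map]
      rw [← h5]
      refine card_le_card_of_injOn (fun p => (2 * p.1, 2 * p.2 + 1)) ?_ ?_
      · intro p hp
        rw [mem_coe, List.mem_toFinset, List.mem_map] at hp
        obtain ⟨e', he', rfl⟩ := hp
        rw [hJ, List.mem_filter, decide_eq_true_eq] at he'
        rw [mem_coe, mem_product, hV, mem_filter, mem_filter]
        unfold kset
        refine ⟨⟨mem_union_left _ (List.mem_toFinset.2 (List.mem_map.2 ⟨e', he'.1, rfl⟩)), he'.2⟩,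
          mem_union_right _ (List.mem_toFinset.2 (List.mem_map.2 ⟨e', he'.1, rfl⟩)), ?_⟩
        have h6 := h.same e' he'.1
        show s.r (vb e') = _
        rw [← h6]
        exact he'.2
      · intro p _ p' _ hpp
        simp only [Prod.mk.injEq] at hpp
        exact Prod.ext (by omega) (by omega)
    by_contra hcon
    push Not at hcon
    have h5 : V.card * V.card ≤ k * k := Nat.mul_le_mul hcon.le hcon.le
    have h6 : k ^ 2 = k * k := sq k
    omega
  have h2 : (nset I s P).card * k ≤ ∑ ρ ∈ nset I s P, ((kset I).filter fun w => s.r w = ρ).card := by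
    rw [← smul_eq_mul]
    exact card_nsmul_le_sum _ _ _ h1
  have h3 : ∑ ρ ∈ nset I s P, ((kset I).filter fun w => s.r w = ρ).card ≤ (kset I).card := by
    rw [← card_biUnion]
    · refine card_le_card fun w hw => ?_
      obtain ⟨ρ, _, h4⟩ := mem_biUnion.1 hw
      exact (mem_filter.1 h4).1
    · intro ρ _ ρ' _ hne
      rw [Function.onFun, disjoint_left]
      intro w h4 h5
      exact hne ((mem_filter.1 h4).2.symm.trans (mem_filter.1 h5).2)
  have h4 : (kset I).card ≤ 2 * I.length := by
    unfold kset
    refine (card_union_le _ _).trans ?_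
    have h5 := List.toFinset_card_le (I.map va)
    have h6 := List.toFinset_card_le (I.map vb)
    rw [List.length_map] at h5 h6
    omega
  rw [mul_comm]
  omega

/-! ### Labellings of forests -/

/-- Every allowed label of an end of an edge goes with an allowed label of the other end. -/
def Cons {q : ℕ} (I : Game) (D : ℕ → Fin q → Prop) : Prop :=
  ∀ e ∈ I, (∀ x, D (va e) x → ∃ y, D (vb e) y ∧ e.2[(x : ℕ)]? = some (y : ℕ)) ∧
    ∀ y, D (vb e) y → ∃ x, D (va e) x ∧ e.2[(x : ℕ)]? = some (y : ℕ)

/-- All edges of the forest in a class can be satisfied. -/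
theorem tree_lab {q' : ℕ} {π : Edge → Equiv.Perm (Fin q')} {D : ℕ → Fin q → Prop}
    (hne : ∀ w, ∃ x, D w x) (I : Game) (hD : Cons I D) :
    ∀ w x, D w x → ∃ lam : ℕ → Fin q, lam w = x ∧ (∀ w', D w' (lam w')) ∧
      ∀ e ∈ (GS.run π I).F, (GS.run π I).r (va e) = (GS.run π I).r w →
        e.2[(lam (va e) : ℕ)]? = some (lam (vb e) : ℕ) := by
  choose c hc using hne
  induction I using List.reverseRecOn with
  | nil =>
    intro w x hx
    refine ⟨fun w' => if w' = w then x else c w', if_pos rfl, fun w' => ?_, ?_⟩
    · beta_reduce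
      split_ifs with h
      · rw [h]; exact hx
      · exact hc w'
    · intro e he
      simp [GS.run, GS.init] at he
  | append_singleton l e ih =>
    have ih' := ih fun e' he' => hD e' (by simp [he'])
    have hinv := GInv.run (π := π) l
    obtain ⟨hD1, hD2⟩ := hD e (by simp)
    have hrun : GS.run π (l ++ [e]) = (GS.run π l).step π e := by
      unfold GS.run
      rw [List.foldl_append]
      rfl
    rw [hrun]
    set s := GS.run π l with hs
    unfold GS.step
    by_cases heq : s.r (va e) = s.r (vb e)
    · rw [if_pos heq]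
      exact ih'
    rw [if_neg heq]
    dsimp only
    intro w x hx
    have hmem : ∀ e' ∈ s.F, e' ∈ l := fun e' he' => List.mem_reverse.1 (hinv.sub.subset he')
    -- the new classes
    by_cases hw : s.r w = s.r (va e) ∨ s.r w = s.r (vb e)
    · -- the merged class
      have key : ∃ lamA lamB : ℕ → Fin q, (∀ w', D w' (lamA w')) ∧ (∀ w', D w' (lamB w')) ∧
          (∀ e' ∈ s.F, s.r (va e') = s.r (va e) →
            e'.2[(lamA (va e') : ℕ)]? = some (lamA (vb e') : ℕ)) ∧
          (∀ e' ∈ s.F, s.r (va e') = s.r (vb e) →
            e'.2[(lamB (va e') : ℕ)]? = some (lamB (vb e') : ℕ)) ∧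
          e.2[(lamA (va e) : ℕ)]? = some (lamB (vb e) : ℕ) ∧
          (s.r w = s.r (va e) → lamA w = x) ∧ (s.r w = s.r (vb e) → lamB w = x) := by
        rcases hw with hw | hw
        · obtain ⟨lamA, h1, h2, h3⟩ := ih' w x hx
          obtain ⟨y, h4, h5⟩ := hD1 _ (h2 (va e))
          obtain ⟨lamB, h6, h7, h8⟩ := ih' (vb e) y h4
          refine ⟨lamA, lamB, h2, h7, fun e' he' hr => h3 e' he' (hr.trans hw.symm), h8,
            by rw [h6]; exact h5, fun _ => h1, fun hw' => absurd (hw.symm.trans hw') heq⟩
        · obtain ⟨lamB, h1, h2, h3⟩ := ih' w x hx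
          obtain ⟨y, h4, h5⟩ := hD2 _ (h2 (vb e))
          obtain ⟨lamA, h6, h7, h8⟩ := ih' (va e) y h4
          refine ⟨lamA, lamB, h7, h2, h8, fun e' he' hr => h3 e' he' (hr.trans hw.symm),
            by rw [h6]; exact h5, fun hw' => absurd (hw'.symm.trans hw) heq, fun _ => h1⟩
      obtain ⟨lamA, lamB, h1, h2, h3, h4, h5, h6, h7⟩ := key
      refine ⟨fun w' => if s.r w' = s.r (vb e) then lamB w' else lamA w', ?_, fun w' => ?_, ?_⟩
      · beta_reduce
        split_ifs with h8
        · exact h7 h8
        · exact h6 (hw.resolve_right h8)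
      · beta_reduce
        split_ifs
        · exact h2 w'
        · exact h1 w'
      · intro e' he' hr
        beta_reduce
        have hw' : (if s.r w = s.r (vb e) then s.r (va e) else s.r w) = s.r (va e) := by
          split_ifs with h8
          · rfl
          · exact hw.resolve_right h8
        rw [hw'] at hr
        rw [List.mem_cons] at he'
        rcases he' with rfl | he'
        · rw [if_neg heq, if_pos rfl]
          exact h5
        · have h9 := hinv.same e' (hmem e' he')
          by_cases h10 : s.r (va e') = s.r (vb e)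
          · rw [if_pos h10, if_pos (by rw [← h9]; exact h10)]
            exact h4 e' he' h10
          · rw [if_neg h10] at hr
            rw [if_neg h10, if_neg (by rw [← h9]; exact h10)]
            exact h3 e' he' hr
    · push Not at hw
      obtain ⟨lam, h1, h2, h3⟩ := ih' w x hx
      refine ⟨lam, h1, h2, ?_⟩
      intro e' he' hr
      rw [if_neg hw.2] at hr
      rw [List.mem_cons] at he'
      rcases he' with rfl | he'
      · rw [if_neg heq] at hr
        exact absurd hr.symm hw.1
      · by_cases h10 : s.r (va e') = s.r (vb e)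
        · rw [if_pos h10] at hr
          exact absurd hr.symm hw.1
        · rw [if_neg h10] at hr
          exact h3 e' he' hr

/-- All edges of the forest can be satisfied. -/
theorem forest_lab {q' : ℕ} {π : Edge → Equiv.Perm (Fin q')} {D : ℕ → Fin q → Prop}
    (hne : ∀ w, ∃ x, D w x) (I : Game) (hD : Cons I D) : ∃ lam : ℕ → Fin q,
      ∀ e ∈ (GS.run π I).F, e.2[(lam (va e) : ℕ)]? = some (lam (vb e) : ℕ) := by
  classical
  have hinv := GInv.run (π := π) I
  have key : ∀ ρ : ℕ, ∃ lam : ℕ → Fin q, ∀ e ∈ (GS.run π I).F, (GS.run π I).r (va e) = ρ →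
      e.2[(lam (va e) : ℕ)]? = some (lam (vb e) : ℕ) := by
    intro ρ
    by_cases h : ∃ w, (GS.run π I).r w = ρ
    · obtain ⟨w, rfl⟩ := h
      obtain ⟨x, hx⟩ := hne w
      obtain ⟨lam, _, _, h3⟩ := tree_lab hne I hD w x hx
      exact ⟨lam, h3⟩
    · obtain ⟨x, _⟩ := hne 0
      exact ⟨fun _ => x, fun e _ hr => absurd ⟨_, hr⟩ h⟩
  choose lam hlam using key
  refine ⟨fun w => lam ((GS.run π I).r w) w, fun e he => ?_⟩
  have h1 := hinv.same e (List.mem_reverse.1 (hinv.sub.subset he))
  beta_reduce
  rw [← h1]
  exact hlam _ e he rfl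

end Pool.Agent.H697.RT
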