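import Pool.Agent.H697.RT.Arc

/-!
# Perfect completeness: the algorithm
-/

namespace Pool.Agent.H697.RT

open Finset Pool.Agent.NPC Pool.Agent.H697.Exp Pool.Agent.H697.UG Pool.Agent.H697.Red
  Pool.Agent.H697.Forest Pool.Agent.H697.LF

/-! ### Small classes -/

/-- All lists of length `k` with entries less than `q`. -/
def tuples (q : ℕ) : ℕ → List (List ℕ)
  | 0 => [[]]
  | k + 1 => (tuples q k).flatMap fun X => (List.range q).map fun x => x :: X

theorem mem_tuples {q k : ℕ} {X : List ℕ} : X ∈ tuples q k ↔ X.length = k ∧ ∀ x ∈ X, x < q := by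
  induction k generalizing X with
  | zero =>
    unfold tuples
    rw [List.mem_singleton]
    constructor
    · rintro rfl
      simp
    · rintro ⟨h, _⟩
      exact List.length_eq_zero_iff.1 h
  | succ k ih =>
    unfold tuples
    rw [List.mem_flatMap]
    constructor
    · rintro ⟨Y, hY, hX⟩
      obtain ⟨x, hx, rfl⟩ := List.mem_map.1 hX
      obtain ⟨h1, h2⟩ := ih.1 hY
      refine ⟨by rw [List.length_cons, h1], fun y hy => ?_⟩
      rw [List.mem_cons] at hy
      rcases hy with rfl | hy
      · exact List.mem_range.1 hx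
      · exact h2 y hy
    · rintro ⟨h1, h2⟩
      cases X with
      | nil => simp at h1
      | cons x Y =>
        refine ⟨Y, ih.2 ⟨by simpa using h1, fun y hy => h2 y (List.mem_cons_of_mem _ hy)⟩, ?_⟩
        exact List.mem_map.2 ⟨x, List.mem_range.2 (h2 x List.mem_cons_self), rfl⟩

/-- The label of the right end of an edge. -/
def tv (X : List ℕ) (p : Edge × ℕ) : Option ℕ := X[p.2]?.bind fun x => p.1.2[x]?

/-- The list, as the labels of the left ends, satisfies all edges. -/
def fits (X : List ℕ) (J : Game) : Bool :=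
  J.zipIdx.all fun p => (tv X p).isSome && J.zipIdx.all fun p' =>
    (!(decide (kL p.1 = kL p'.1)) || decide (X[p.2]? = X[p'.2]?)) &&
    (!(decide (kR p.1 = kR p'.1)) || decide (tv X p = tv X p'))

theorem mem_zipIdx_of {J : Game} {e : Edge} (he : e ∈ J) : ∃ i, (e, i) ∈ J.zipIdx := by
  obtain ⟨i, hi, rfl⟩ := List.mem_iff_getElem.1 he
  refine ⟨i, ?_⟩
  rw [List.mem_iff_getElem]
  exact ⟨i, by simpa using hi, by simp⟩

theorem fits_sound {q k : ℕ} (hq : 0 < q) {X : List ℕ} (hX : X ∈ tuples q k) {J : Game}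
    (hJ : J.length ≤ k) (hlt : ∀ e ∈ J, ∀ x ∈ e.2, x < q) (h : fits X J = true) :
    ∃ mu : ℕ → Fin q, ∀ e ∈ J, e.2[(mu (va e) : ℕ)]? = some (mu (vb e) : ℕ) := by
  classical
  obtain ⟨hX1, hX2⟩ := mem_tuples.1 hX
  unfold fits at h
  rw [List.all_eq_true] at h
  have hget : ∀ i : ℕ, (X[i]?).getD 0 < q := by
    intro i
    cases h1 : X[i]? with
    | none => exact hq
    | some x => exact hX2 x (List.mem_of_getElem? h1)
  have htv : ∀ p ∈ J.zipIdx, (tv X p).getD 0 < q := by
    intro p hp
    cases h1 : tv X p with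
    | none => exact hq
    | some y =>
      unfold tv at h1
      obtain ⟨x, _, h3⟩ := Option.bind_eq_some_iff.1 h1
      exact hlt p.1 (List.fst_mem_of_mem_zipIdx hp) y (List.mem_of_getElem? h3)
  have hpar : ∀ e e' : Edge, va e ≠ vb e' := by
    intro e e' h1
    unfold va vb at h1
    omega
  let mu : ℕ → Fin q := fun w =>
    if h : ∃ p ∈ J.zipIdx, va p.1 = w then ⟨(X[h.choose.2]?).getD 0, hget _⟩
    else if h' : ∃ p ∈ J.zipIdx, vb p.1 = w then ⟨(tv X h'.choose).getD 0,
      htv _ h'.choose_spec.1⟩ else ⟨0, hq⟩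
  have hmu1 : ∀ p ∈ J.zipIdx, X[p.2]? = some (mu (va p.1) : ℕ) := by
    intro p hp
    have h1 : ∃ p' ∈ J.zipIdx, va p'.1 = va p.1 := ⟨p, hp, rfl⟩
    have h2 : mu (va p.1) = ⟨(X[h1.choose.2]?).getD 0, hget _⟩ := dif_pos h1
    obtain ⟨p', hp', hv, hm⟩ : ∃ p' ∈ J.zipIdx, va p'.1 = va p.1 ∧
        (mu (va p.1) : ℕ) = (X[p'.2]?).getD 0 :=
      ⟨h1.choose, h1.choose_spec.1, h1.choose_spec.2, by rw [h2]⟩
    have h3 := h p hp
    rw [Bool.and_eq_true, List.all_eq_true] at h3
    have h4 := h3.2 p' hp'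
    rw [Bool.and_eq_true, Bool.or_eq_true, decide_eq_true_eq] at h4
    have h5 : X[p.2]? = X[p'.2]? := by
      rcases h4.1 with h6 | h6
      · exfalso
        rw [Bool.not_eq_true', decide_eq_false_iff_not] at h6
        apply h6
        unfold va at hv
        omega
      · exact h6
    rw [hm, ← h5]
    have h6 : (tv X p).isSome = true := h3.1
    cases h7 : X[p.2]? with
    | none =>
      unfold tv at h6
      rw [h7] at h6
      simp at h6
    | some x => rfl
  have hmu2 : ∀ p ∈ J.zipIdx, tv X p = some (mu (vb p.1) : ℕ) := by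
    intro p hp
    have h0 : ¬ ∃ p' ∈ J.zipIdx, va p'.1 = vb p.1 := by
      rintro ⟨p', _, h1⟩
      exact hpar _ _ h1
    have h1 : ∃ p' ∈ J.zipIdx, vb p'.1 = vb p.1 := ⟨p, hp, rfl⟩
    have h2 : mu (vb p.1) = ⟨(tv X h1.choose).getD 0, htv _ h1.choose_spec.1⟩ := by
      show (if h : _ then _ else _) = _
      rw [dif_neg h0, dif_pos h1]
    obtain ⟨p', hp', hv, hm⟩ : ∃ p' ∈ J.zipIdx, vb p'.1 = vb p.1 ∧
        (mu (vb p.1) : ℕ) = (tv X p').getD 0 :=
      ⟨h1.choose, h1.choose_spec.1, h1.choose_spec.2, by rw [h2]⟩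
    have h3 := h p hp
    rw [Bool.and_eq_true, List.all_eq_true] at h3
    have h4 := h3.2 p' hp'
    rw [Bool.and_eq_true, Bool.or_eq_true, Bool.or_eq_true, decide_eq_true_eq,
      decide_eq_true_eq] at h4
    have h5 : tv X p = tv X p' := by
      rcases h4.2 with h6 | h6
      · exfalso
        rw [Bool.not_eq_true', decide_eq_false_iff_not] at h6
        apply h6
        unfold vb at hv
        omega
      · exact h6
    rw [hm, ← h5]
    have h6 : (tv X p).isSome = true := h3.1
    cases h7 : tv X p with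
    | none =>
      rw [h7] at h6
      simp at h6
    | some x => rfl
  refine ⟨mu, fun e he => ?_⟩
  obtain ⟨i, hi⟩ := mem_zipIdx_of he
  have h1 := hmu1 _ hi
  have h2 := hmu2 _ hi
  unfold tv at h2
  dsimp only at h1 h2
  rw [h1, Option.bind_some] at h2
  exact h2

theorem fits_complete {q k : ℕ} (hq : 0 < q) {J : Game} (hJ : J.length ≤ k) {lam : ℕ → Fin q}
    (h : ∀ e ∈ J, e.2[(lam (va e) : ℕ)]? = some (lam (vb e) : ℕ)) :
    ∃ X ∈ tuples q k, fits X J = true := by
  set X : List ℕ := J.map (fun e => (lam (va e) : ℕ)) ++ List.replicate (k - J.length) 0 with hX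
  have hX1 : ∀ p ∈ J.zipIdx, X[p.2]? = some (lam (va p.1) : ℕ) := by
    rintro ⟨e, i⟩ hp
    obtain ⟨h3, h4⟩ := List.mem_zipIdx' hp
    dsimp only
    rw [hX, List.getElem?_append_left (by rw [List.length_map]; exact h3), List.getElem?_map,
      List.getElem?_eq_getElem h3, ← h4]
    rfl
  have hX2 : ∀ p ∈ J.zipIdx, tv X p = some (lam (vb p.1) : ℕ) := by
    intro p hp
    unfold tv
    rw [hX1 p hp, Option.bind_some]
    exact h p.1 (List.fst_mem_of_mem_zipIdx hp)
  refine ⟨X, mem_tuples.2 ⟨?_, ?_⟩, ?_⟩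
  · rw [hX, List.length_append, List.length_map, List.length_replicate]
    omega
  · intro x hx
    rw [hX, List.mem_append, List.mem_map] at hx
    rcases hx with ⟨e, _, rfl⟩ | hx
    · exact (lam (va e)).2
    · rw [List.eq_of_mem_replicate hx]
      exact hq
  · unfold fits
    rw [List.all_eq_true]
    intro p hp
    rw [Bool.and_eq_true]
    refine ⟨by rw [hX2 p hp]; rfl, ?_⟩
    rw [List.all_eq_true]
    intro p' hp'
    rw [Bool.and_eq_true, Bool.or_eq_true, Bool.or_eq_true, decide_eq_true_eq, decide_eq_true_eq,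
      hX1 p hp, hX1 p' hp', hX2 p hp, hX2 p' hp']
    constructor
    · by_cases h1 : kL p.1 = kL p'.1
      · right
        unfold va
        rw [h1]
      · left
        simpa using h1
    · by_cases h1 : kR p.1 = kR p'.1
      · right
        unfold vb
        rw [h1]
      · left
        simpa using h1

/-! ### The algorithm -/

/-- The representative of the class of an edge. -/
noncomputable def rt (I : Game) (e : Edge) : ℕ := (lk (crun 1 I).1 (va e)).1

/-- The edges of a class. -/
noncomputable def clsE (I : Game) (ρ : ℕ) : Game := I.filter fun e => decide (rt I e = ρ)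

/-- The class has at most `k` edges. -/
noncomputable def sml (k : ℕ) (I : Game) (ρ : ℕ) : Bool := decide ((clsE I ρ).length ≤ k)

/-- The number of edges which the algorithm satisfies. -/
noncomputable def plb (k : ℕ) (I : Game) : ℕ :=
  (I.filter fun e => sml k I (rt I e)).length +
    ((crun 1 I).2.filter fun e => !(sml k I (rt I e))).length

/-- The answer. -/
noncomputable def pacc (q k A B : ℕ) (I : Game) : Bool :=
  ((I.all fun e => !(sml k I (rt I e)) || (tuples q k).any fun X => fits X (clsE I (rt I e))) &&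
  ((keys I).all fun w => (List.range q).any fun x => !(decide ((w, x) ∈ ac q I)))) &&
  decide (B * I.length ≤ A * plb k I)

section
variable {α : Type} [TEnc α]

theorem poly_tv {X : α → List ℕ} {p : α → Edge × ℕ} (hX : Poly X) (hp : Poly p) :
    Poly (fun a => tv (X a) (p a)) := by
  unfold tv
  refine Poly.optBind (o := fun a => (X a)[(p a).2]?) (f := fun a x => (p a).1.2[x]?)
    (Poly.getElem? hX (Poly.snd hp)) ?_
  exact Poly.getElem? (Poly.snd (Poly.fst (hp.comp (Poly.fst Poly.id)))) (Poly.snd Poly.id)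

theorem poly_fits {X : α → List ℕ} {J : α → Game} (hX : Poly X) (hJ : Poly J) :
    Poly (fun a => fits (X a) (J a)) := by
  unfold fits
  refine Poly.all (p := fun a (p : Edge × ℕ) => (tv (X a) p).isSome && (J a).zipIdx.all fun p' =>
    (!(decide (kL p.1 = kL p'.1)) || decide ((X a)[p.2]? = (X a)[p'.2]?)) &&
    (!(decide (kR p.1 = kR p'.1)) || decide (tv (X a) p = tv (X a) p'))) (Poly.zipIdx hJ) ?_
  have h1 : Poly (fun z : α × (Edge × ℕ) => X z.1) := hX.comp (Poly.fst Poly.id)
  have h2 : Poly (fun z : α × (Edge × ℕ) => z.2) := Poly.snd Poly.id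
  refine Poly.and (Poly.isSome (poly_tv h1 h2)) ?_
  refine Poly.all (p := fun (z : α × (Edge × ℕ)) (p' : Edge × ℕ) =>
    (!(decide (kL z.2.1 = kL p'.1)) || decide ((X z.1)[z.2.2]? = (X z.1)[p'.2]?)) &&
    (!(decide (kR z.2.1 = kR p'.1)) || decide (tv (X z.1) z.2 = tv (X z.1) p')))
    (Poly.zipIdx (hJ.comp (Poly.fst Poly.id))) ?_
  have h3 : Poly (fun z : (α × (Edge × ℕ)) × (Edge × ℕ) => X z.1.1) :=
    hX.comp (Poly.fst (Poly.fst Poly.id))
  have h4 : Poly (fun z : (α × (Edge × ℕ)) × (Edge × ℕ) => z.1.2) := Poly.snd (Poly.fst Poly.id)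
  have h5 : Poly (fun z : (α × (Edge × ℕ)) × (Edge × ℕ) => z.2) := Poly.snd Poly.id
  exact Poly.and (Poly.or (Poly.not (Poly.decide_eq (poly_kL.comp (Poly.fst h4))
    (poly_kL.comp (Poly.fst h5)))) (Poly.decide_eq (Poly.getElem? h3 (Poly.snd h4))
    (Poly.getElem? h3 (Poly.snd h5))))
    (Poly.or (Poly.not (Poly.decide_eq (poly_kR.comp (Poly.fst h4))
    (poly_kR.comp (Poly.fst h5)))) (Poly.decide_eq (poly_tv h3 h4) (poly_tv h3 h5)))

theorem poly_rt {I : α → Game} {e : α → Edge} (hI : Poly I) (he : Poly e) :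
    Poly (fun a => rt (I a) (e a)) := by
  unfold rt
  exact Poly.fst (poly_lk (Poly.fst ((poly_crun 1).comp hI)) (poly_va.comp he))

theorem poly_clsE {I : α → Game} {ρ : α → ℕ} (hI : Poly I) (hρ : Poly ρ) :
    Poly (fun a => clsE (I a) (ρ a)) := by
  unfold clsE
  exact Poly.filter (p := fun a (e : Edge) => decide (rt (I a) e = ρ a)) hI
    (Poly.decide_eq (poly_rt (hI.comp (Poly.fst Poly.id)) (Poly.snd Poly.id))
      (hρ.comp (Poly.fst Poly.id)))

theorem poly_sml (k : ℕ) {I : α → Game} {ρ : α → ℕ} (hI : Poly I) (hρ : Poly ρ) :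
    Poly (fun a => sml k (I a) (ρ a)) := by
  unfold sml
  exact Poly.decide_le (Poly.length (poly_clsE hI hρ)) (NPC.Poly.const k)

end

theorem poly_plb (k : ℕ) : Poly (plb k) := by
  unfold plb
  have h1 : Poly (fun p : Game × Edge => sml k p.1 (rt p.1 p.2)) :=
    poly_sml k (Poly.fst Poly.id) (poly_rt (Poly.fst Poly.id) (Poly.snd Poly.id))
  exact Poly.add (Poly.length (Poly.filter (p := fun (I : Game) (e : Edge) => sml k I (rt I e))
      Poly.id h1))
    (Poly.length (Poly.filter (p := fun (I : Game) (e : Edge) => !(sml k I (rt I e)))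
      (Poly.snd (poly_crun 1)) (Poly.not h1)))

theorem poly_pacc (q k A B : ℕ) : Poly (pacc q k A B) := by
  unfold pacc
  have h1 : Poly (fun p : Game × Edge => p.1) := Poly.fst Poly.id
  have h2 : Poly (fun p : Game × Edge => rt p.1 p.2) := poly_rt h1 (Poly.snd Poly.id)
  refine Poly.and (Poly.and ?_ ?_) (Poly.decide_le (Poly.mul (NPC.Poly.const B)
    (Poly.length Poly.id)) (Poly.mul (NPC.Poly.const A) (poly_plb k)))
  · refine Poly.all (p := fun (I : Game) (e : Edge) => !(sml k I (rt I e)) ||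
      (tuples q k).any fun X => fits X (clsE I (rt I e))) Poly.id ?_
    refine Poly.or (Poly.not (poly_sml k h1 h2)) ?_
    refine Poly.any (p := fun (z : Game × Edge) (X : List ℕ) => fits X (clsE z.1 (rt z.1 z.2)))
      (NPC.Poly.const _) ?_
    exact poly_fits (Poly.snd Poly.id) ((poly_clsE h1 h2).comp (Poly.fst Poly.id))
  · refine Poly.all (p := fun (I : Game) (w : ℕ) => (List.range q).any fun x =>
      !(decide ((w, x) ∈ ac q I))) poly_keys ?_
    refine Poly.any (p := fun (z : Game × ℕ) (x : ℕ) => !(decide ((z.2, x) ∈ ac q z.1)))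
      (NPC.Poly.const _) ?_
    exact Poly.not (poly_pmem (Poly.pair (Poly.snd (Poly.fst Poly.id)) (Poly.snd Poly.id))
      ((poly_ac q).comp (Poly.fst (Poly.fst Poly.id))))

/-! ### Correctness -/

/-- The forest, without tables. -/
noncomputable def gr0 (I : Game) : GS 1 := GS.run (fun _ => 1) I

theorem rep0 (I : Game) : Rep (keys I) (crun 1 I) (gr0 I) := by
  have hsub : ∀ p p' : Equiv.Perm (Fin 1), p = p' := fun p p' => by
    ext i
    omega
  have key : ∀ l : Game, (∀ e ∈ l, e ∈ I) →
      Rep (keys I) (l.foldl (cstep 1) (cinit 1 I))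
        (l.foldl (GS.step fun _ => 1) (GS.init 1)) := by
    intro l
    induction l using List.reverseRecOn with
    | nil => exact fun _ => rep_init I
    | append_singleton l e ih =>
      intro hl
      rw [List.foldl_append, List.foldl_append, List.foldl_cons, List.foldl_cons, List.foldl_nil,
        List.foldl_nil]
      have he : e ∈ I := hl e (by simp)
      have h := ih fun e he => hl e (by simp [he])
      set c := l.foldl (cstep 1) (cinit 1 I)
      set s := l.foldl (GS.step fun _ => 1) (GS.init 1)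
      unfold cstep GS.step
      rw [h.val _ (mem_keys he).1, h.val _ (mem_keys he).2]
      dsimp only
      by_cases heq : s.r (va e) = s.r (vb e)
      · rw [if_pos heq, if_pos heq]
        exact h
      · rw [if_neg heq, if_neg heq]
        refine ⟨?_, ?_, ?_⟩
        · dsimp only
          rw [List.map_map]
          exact h.keys
        · intro w hw
          dsimp only
          rw [lk_map c.1 (fun y => if y.1 = s.r (vb e) then (s.r (va e),
            cm 1 ((enc (s.σ (va e)), enc (s.σ (vb e))), (e.2, y.2))) else y)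
            (by rw [h.keys]; exact hw), h.val w hw]
          dsimp only
          by_cases h1 : s.r w = s.r (vb e)
          · rw [if_pos h1, if_pos h1, if_pos h1]
            obtain ⟨p, hp⟩ := exists_cm 1 ((enc (s.σ (va e)), enc (s.σ (vb e))),
              (e.2, enc (s.σ w)))
            rw [hp]
            congr 2
            exact hsub _ _
          · rw [if_neg h1, if_neg h1, if_neg h1]
        · dsimp only
          rw [h.frst]
  exact key I fun e he => he

theorem inv0 (I : Game) : GInv (fun _ => 1) I (gr0 I) := GInv.run I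

theorem rt_eq {I : Game} {e : Edge} (he : e ∈ I) : rt I e = (gr0 I).r (va e) := by
  unfold rt
  rw [(rep0 I).val _ (mem_keys he).1]

/-- Small classes. -/
def Sml (k : ℕ) (I : Game) (ρ : ℕ) : Prop := (clsE I ρ).length ≤ k

theorem clsE_eq (I : Game) (ρ : ℕ) :
    clsE I ρ = I.filter fun e => decide ((gr0 I).r (va e) = ρ) := by
  unfold clsE
  refine List.filter_congr fun e he => ?_
  rw [rt_eq he]

theorem plb_eq (k : ℕ) (I : Game) : plb k I = LBP I (gr0 I) (Sml k I) := by
  classical
  unfold plb LBP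
  have h1 : ∀ e ∈ I, sml k I (rt I e) = decide (Sml k I ((gr0 I).r (va e))) := by
    intro e he
    rw [rt_eq he]
    unfold sml Sml
    exact decide_eq_decide.2 Iff.rfl
  rw [List.filter_congr h1, (rep0 I).frst]
  congr 2
  refine List.filter_congr fun e he => ?_
  rw [h1 e (List.mem_reverse.1 ((inv0 I).sub.subset he))]
  simp

open Classical in
/-- The algorithm does not accept games of small value. -/
theorem pacc_sound {q k A B : ℕ} (hq : 0 < q) {I : Game} (hlt : ∀ e ∈ I, ∀ x ∈ e.2, x < q)
    (h : pacc q k A B I = true) :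
    B * I.length ≤ A * plb k I ∧ ∃ L M : ℕ → Fin q, plb k I ≤ numSat I L M := by
  unfold pacc at h
  rw [Bool.and_eq_true, Bool.and_eq_true, decide_eq_true_eq, List.all_eq_true,
    List.all_eq_true] at h
  obtain ⟨⟨h1, h2⟩, h3⟩ := h
  refine ⟨h3, ?_⟩
  -- the forest
  have hne : ∀ w, ∃ x, Dom q I w x := by
    intro w
    by_cases hw : w ∈ keys I
    · have h4 := h2 w hw
      rw [List.any_eq_true] at h4
      obtain ⟨x, hx, h5⟩ := h4
      rw [Bool.not_eq_true', decide_eq_false_iff_not] at h5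
      exact ⟨⟨x, List.mem_range.1 hx⟩, h5⟩
    · refine ⟨⟨0, hq⟩, fun h4 => hw ?_⟩
      have h5 : (w, 0) ∈ apairs q I := (iter_sublist q I _).subset h4
      unfold apairs at h5
      rw [List.mem_flatMap] at h5
      obtain ⟨w', hw', h6⟩ := h5
      obtain ⟨x, _, h7⟩ := List.mem_map.1 h6
      rw [← (Prod.mk.inj h7).1]
      exact hw'
  obtain ⟨lam0, hlam0⟩ := forest_lab (π := fun _ => (1 : Equiv.Perm (Fin 1))) hne I (cons_Dom q I)
  -- the small classes
  have hsm : ∀ ρ, ∃ mu : ℕ → Fin q, Sml k I ρ → ∀ e ∈ I, (gr0 I).r (va e) = ρ →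
      e.2[(mu (va e) : ℕ)]? = some (mu (vb e) : ℕ) := by
    intro ρ
    by_cases hρ : Sml k I ρ ∧ ∃ e ∈ I, (gr0 I).r (va e) = ρ
    · obtain ⟨hρ1, e, he, hr⟩ := hρ
      have h4 := h1 e he
      rw [rt_eq he, hr, Bool.or_eq_true] at h4
      rcases h4 with h4 | h4
      · exfalso
        unfold sml at h4
        rw [Bool.not_eq_true', decide_eq_false_iff_not] at h4
        exact h4 hρ1
      · rw [List.any_eq_true] at h4
        obtain ⟨X, hX, h5⟩ := h4
        obtain ⟨mu, hmu⟩ := fits_sound hq hX hρ1 (fun e' he' => hlt e'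
          (List.mem_of_mem_filter he')) h5
        refine ⟨mu, fun _ e' he' hr' => hmu e' ?_⟩
        rw [clsE_eq, List.mem_filter, decide_eq_true_eq]
        exact ⟨he', hr'⟩
    · refine ⟨fun _ => ⟨0, hq⟩, fun h4 e he hr => ?_⟩
      exact absurd ⟨h4, e, he, hr⟩ hρ
  choose mu hmu using hsm
  set s := gr0 I with hs
  have hinv := inv0 I
  let lam : ℕ → Fin q := fun w => if Sml k I (s.r w) then mu (s.r w) w else lam0 w
  have hsat1 : ∀ e ∈ I, Sml k I (s.r (va e)) → e.2[(lam (va e) : ℕ)]? = some (lam (vb e) : ℕ) := by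
    intro e he hsm
    have h4 : lam (va e) = mu (s.r (va e)) (va e) := if_pos hsm
    have h5 : lam (vb e) = mu (s.r (va e)) (vb e) := by
      show (if Sml k I (s.r (vb e)) then mu (s.r (vb e)) (vb e) else lam0 (vb e)) = _
      rw [← hinv.same e he, if_pos hsm]
    rw [h4, h5]
    exact hmu _ hsm e he rfl
  have hsat2 : ∀ e ∈ s.F, e.2[(lam (va e) : ℕ)]? = some (lam (vb e) : ℕ) := by
    intro e he
    have heI : e ∈ I := List.mem_reverse.1 (hinv.sub.subset he)
    by_cases hsm : Sml k I (s.r (va e))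
    · exact hsat1 e heI hsm
    · have h4 : lam (va e) = lam0 (va e) := if_neg hsm
      have h5 : lam (vb e) = lam0 (vb e) := by
        show (if Sml k I (s.r (vb e)) then mu (s.r (vb e)) (vb e) else lam0 (vb e)) = _
        rw [← hinv.same e heI, if_neg hsm]
      rw [h4, h5]
      exact hlam0 e he
  refine ⟨fun u => lam (2 * u), fun v => lam (2 * v + 1), ?_⟩
  rw [plb_eq]
  exact LBP_le hinv _ _ _ hsat1 hsat2

/-- The algorithm accepts satisfiable games. -/
theorem pacc_complete {q K A B : ℕ} (hq : 0 < q) {I : Game} (hS : Simple I) {lam : ℕ → Fin q}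
    (h : ∀ e ∈ I, e.2[(lam (va e) : ℕ)]? = some (lam (vb e) : ℕ))
    (hAB : B * I.length ≤ A * plb (K ^ 2) I) : pacc q (K ^ 2) A B I = true := by
  unfold pacc
  rw [Bool.and_eq_true, Bool.and_eq_true, decide_eq_true_eq, List.all_eq_true,
    List.all_eq_true]
  refine ⟨⟨?_, ?_⟩, hAB⟩
  · intro e he
    rw [Bool.or_eq_true]
    by_cases hs : sml (K ^ 2) I (rt I e) = true
    · right
      rw [List.any_eq_true]
      unfold sml at hs
      rw [decide_eq_true_eq] at hs
      exact fits_complete hq hs fun e' he' => h e' (List.mem_of_mem_filter he')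
    · left
      simpa using hs
  · intro w _
    rw [List.any_eq_true]
    refine ⟨lam w, List.mem_range.2 (lam w).2, ?_⟩
    rw [Bool.not_eq_true', decide_eq_false_iff_not]
    exact Dom_of_sat h w

theorem le_plb {K : ℕ} (hK : 0 < K) {I : Game} (hS : Simple I) {t : ℝ}
    (ht : Thr t (graphOf I)) : (t - 2 / K) * I.length ≤ plb (K ^ 2) I := by
  have h1 := le_LBP (inv0 I) hS (Sml (K ^ 2) I) ht
  have h2 := card_nset_le (k := K) (inv0 I) hS (Sml (K ^ 2) I) (by
    intro e he hns
    unfold Sml at hns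
    rw [clsE_eq] at hns
    omega)
  rw [← plb_eq] at h1
  have hKr : (0 : ℝ) < K := by exact_mod_cast hK
  have h3 : (K : ℝ) * (nset I (gr0 I) (Sml (K ^ 2) I)).card ≤ 2 * I.length := by exact_mod_cast h2
  have h4 : ((nset I (gr0 I) (Sml (K ^ 2) I)).card : ℝ) ≤ 2 / K * I.length := by
    rw [div_mul_eq_mul_div, le_div_iff₀ hKr]
    linarith
  linarith

/-- If all members of the class satisfy the condition `Thr t`, the problem with perfect
completeness is easy for projection games. -/
theorem easy_perfect (d : ℕ) {q₁ q₂ : ℕ} (hq₁ : 0 < q₁) (hq₂ : 0 < q₂) {C : GraphClass}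
    {t δ : ℝ} (hC : ThrC t C) (h : δ < t) :
    LC.Easy (On C) (LC.Yes d q₁ q₂ 0) (LC.No d q₁ q₂ δ) := by
  classical
  have hpos : ∀ J : Game, J ≠ [] → (0 : ℝ) < J.length := fun J hJ => by
    exact_mod_cast List.length_pos_iff.2 hJ
  rcases lt_or_ge δ 0 with hδ | hδ
  · refine ⟨fun _ => True, inPP_of (P := fun _ : Game => True) (d := fun _ : Game => true)
      (NPC.Poly.const true) fun _ => by simp, fun J _ => ⟨fun _ => trivial, ?_⟩⟩
    rintro ⟨hG, hno⟩ -
    have h1 := hno (fun _ => ⟨0, hq₁⟩) (fun _ => ⟨0, hq₂⟩)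
    have h2 := hpos J hG.1
    have h3 : (0 : ℝ) ≤ LC.numSat J (fun _ => (⟨0, hq₁⟩ : Fin q₁)) (fun _ => (⟨0, hq₂⟩ : Fin q₂)) := by
      positivity
    nlinarith
  obtain ⟨r, hr1, hr2⟩ := exists_rat_btwn h
  have hr0 : (0 : ℝ) < r := lt_of_le_of_lt hδ hr1
  have hr0' : 0 < r := by exact_mod_cast hr0
  set A := r.den with hA
  set B := r.num.toNat with hB
  have hAB : (A : ℝ) * r = B := by
    have h1 : (B : ℤ) = r.num := Int.toNat_of_nonneg (Rat.num_nonneg.2 hr0'.le)
    have h2 : (B : ℝ) = (r.num : ℝ) := by exact_mod_cast h1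
    rw [h2]
    have h3 := Rat.den_mul_eq_num r
    exact_mod_cast h3
  have hApos : (0 : ℝ) < A := by exact_mod_cast r.den_pos
  obtain ⟨K, hK⟩ := exists_nat_gt (2 / (t - r))
  have htr : 0 < t - r := by linarith
  have hKr : (0 : ℝ) < K := lt_trans (by positivity) hK
  have hK0 : 0 < K := by exact_mod_cast hKr
  have hK2 : 2 / (K : ℝ) < t - r := by
    rw [div_lt_iff₀ htr] at hK
    rw [div_lt_iff₀ hKr]
    linarith
  set q := max q₁ q₂ with hqdef
  have hq : 0 < q := lt_max_of_lt_left hq₁
  refine ⟨fun J => pacc q (K ^ 2) A B J = true, inPP_of (poly_pacc q (K ^ 2) A B)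
    fun _ => Iff.rfl, ?_⟩
  rintro J ⟨hS, hCJ⟩
  constructor
  · rintro ⟨hG, L, M, hLM⟩
    have hall : ∀ e ∈ J, LC.Sat L M e := by
      have h1 : LC.numSat J L M = J.length := by
        have h2 : (J.length : ℝ) ≤ LC.numSat J L M := by linarith
        have h3 : J.length ≤ LC.numSat J L M := by exact_mod_cast h2
        have h4 : LC.numSat J L M ≤ J.length := List.length_filter_le _ _
        omega
      intro e he
      unfold LC.numSat at h1
      rw [List.length_filter_eq_length_iff] at h1
      exact of_decide_eq_true (h1 e he)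
    refine pacc_complete hq hS (lam := fun w => if w % 2 = 0 then
      Fin.castLE (le_max_left q₁ q₂) (L (w / 2)) else
      Fin.castLE (le_max_right q₁ q₂) (M (w / 2))) ?_ ?_
    · intro e he
      have e1 : va e % 2 = 0 := by unfold va; omega
      have e2 : va e / 2 = kL e := by unfold va; omega
      have e3 : ¬ vb e % 2 = 0 := by unfold vb; omega
      have e4 : vb e / 2 = kR e := by unfold vb; omega
      beta_reduce
      rw [if_pos e1, if_neg e3, e2, e4]
      exact hall e he
    · have h1 := le_plb hK0 hS (hC _ _ (no_isolated J) hCJ)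
      have h4 := hpos J hG.1
      have h2 : (r : ℝ) * J.length ≤ plb (K ^ 2) J := by
        refine le_trans ?_ h1
        have h5 : (r : ℝ) ≤ t - 2 / K := by linarith
        gcongr
      have h3 : ((B * J.length : ℕ) : ℝ) ≤ ((A * plb (K ^ 2) J : ℕ) : ℝ) := by
        push_cast
        calc (B : ℝ) * J.length = A * (r * J.length) := by rw [← hAB]; ring
          _ ≤ _ := by gcongr
      exact_mod_cast h3
  · rintro ⟨hG, hno⟩ hacc
    have hlt : ∀ e ∈ J, ∀ x ∈ e.2, x < q := fun e he x hx =>
      lt_of_lt_of_le ((hG.2 e he).2.1 x hx) (le_max_right _ _)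
    obtain ⟨h1, L, M, h2⟩ := pacc_sound hq hlt hacc
    obtain ⟨L', M', h3⟩ := LC.down hq₁ hq₂ hG L M
    have h4 := hno L' M'
    have h5 := hpos J hG.1
    have h6 : ((B * J.length : ℕ) : ℝ) ≤ ((A * plb (K ^ 2) J : ℕ) : ℝ) := by exact_mod_cast h1
    push_cast at h6
    have h7 : ((plb (K ^ 2) J : ℕ) : ℝ) ≤ LC.numSat J L' M' := by exact_mod_cast h2.trans h3
    have h8 : (A : ℝ) * (r * J.length) ≤ A * (δ * J.length) := by
      calc (A : ℝ) * (r * J.length) = B * J.length := by rw [← hAB]; ring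
        _ ≤ A * plb (K ^ 2) J := h6
        _ ≤ A * (δ * J.length) := by
            gcongr
            exact h7.trans h4
    have h9 := le_of_mul_le_mul_left h8 hApos
    have h10 := le_of_mul_le_mul_right h9 h5
    linarith

end Pool.Agent.H697.RT
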