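import Pool.Agent.H697.RT.Red
import Pool.Agent.H697.UG.Hard
import Pool.Agent.H697.LC.Hard

/-!
# Hardness under randomised reductions
-/

namespace Pool.Agent.NPC

/-- From the code of a bit string to the bit string. -/
theorem PC.rawOut' : PC (bits : List Bool → List Bool) (fun x : List Bool => x) (fun x => x) := by
  refine ⟨Cmd.seq (Cmd.loop 0 (Cmd.cases 0 Cmd.skip (Cmd.pop 0)
    (Cmd.seq (Cmd.pop 0) (Cmd.cases 0 Cmd.skip
      (Cmd.seq (Cmd.pop 0) (Cmd.push 1 false))
      (Cmd.seq (Cmd.pop 0) (Cmd.seq (Cmd.pop 0) (Cmd.seq (Cmd.pop 0) (Cmd.push 1 true))))))))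
    (mv 1 0), Polynomial.C 20 * Polynomial.X + Polynomial.C 20, fun x => ?_⟩
  rw [inp_eq_st, inp_eq_st]
  have key : ∀ x acc : List Bool, Runs (Cmd.loop 0 (Cmd.cases 0 Cmd.skip (Cmd.pop 0)
    (Cmd.seq (Cmd.pop 0) (Cmd.cases 0 Cmd.skip
      (Cmd.seq (Cmd.pop 0) (Cmd.push 1 false))
      (Cmd.seq (Cmd.pop 0) (Cmd.seq (Cmd.pop 0) (Cmd.seq (Cmd.pop 0) (Cmd.push 1 true))))))))
      (st (bits x) acc []) (st [] (x.reverse ++ acc) []) (10 * x.length + 10) := by
    intro x
    induction x with
    | nil =>
      intro acc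
      refine (Runs.loopCons (by simp [bits, T.enc]) (Runs.casesFalse (l := []) rfl
        (Runs.pop _ 0)) (Runs.loopNil (by simp [bits, T.enc]))).conv rfl ?_ (by simp)
      simp [bits, T.enc]
    | cons b x ih =>
      intro acc
      have ih' := ih (b :: acc)
      have hb : Runs (Cmd.cases 0 Cmd.skip (Cmd.pop 0)
        (Cmd.seq (Cmd.pop 0) (Cmd.cases 0 Cmd.skip
        (Cmd.seq (Cmd.pop 0) (Cmd.push 1 false))
        (Cmd.seq (Cmd.pop 0) (Cmd.seq (Cmd.pop 0) (Cmd.seq (Cmd.pop 0) (Cmd.push 1 true)))))))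
        (st (bits (b :: x)) acc []) (st (bits x) (b :: acc) []) 7 := by
        cases b with
        | false =>
          refine (Runs.casesTrue (l := false :: bits x) rfl ((Runs.pop _ 0).seq
            (Runs.casesFalse (l := bits x) (by simp [bits, T.enc]) ((Runs.pop _ 0).seq
            (Runs.push _ 1 false))))).conv rfl ?_ (by simp)
          simp [bits, T.enc]
        | true =>
          refine (Runs.casesTrue (l := true :: false :: false :: bits x) rfl ((Runs.pop _ 0).seq
            (Runs.casesTrue (l := false :: false :: bits x) (by simp [bits, T.enc])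
              ((Runs.pop _ 0).seq ((Runs.pop _ 0).seq ((Runs.pop _ 0).seq
              (Runs.push _ 1 true))))))).conv rfl ?_ (by simp)
          simp [bits, T.enc]
      refine (Runs.loopCons (by simp [bits, T.enc]) hb ih').conv rfl ?_ ?_
      · simp
      · simp; omega
  have h3 := key x []
  rw [List.append_nil] at h3
  refine (h3.seq (mv_runs (i := 1) (j := 0) (by decide) x.reverse _ (st x [] []) rfl
    (by simp))).mono ?_
  have h4 := sz_listBool_ge x
  rw [← bits_length] at h4
  simp only [List.length_reverse, Polynomial.eval_add, Polynomial.eval_mul, Polynomial.eval_C,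
    Polynomial.eval_X]
  omega

theorem poly_of_polyTime {V : List Bool → List Bool} (hV : PolyTime V) : Poly V := by
  have h1 : PC (fun x : List Bool => x) (fun x : List Bool => x) V :=
    H642R2.TMSim.polyTime_toPC hV
  exact PC.comp (g := fun x => x) (f := V) PC.rawIn
    (PC.comp (g := V) (f := fun x => x) h1 PC.rawOut')

theorem polyTime_of_poly' {g : List Bool → List Bool} (hg : Poly g) : PolyTime g :=
  PC.toPolyTime (PC.comp (g := fun x => x) (f := g) PC.rawOut'
    (PC.comp (g := g) (f := fun x => x) hg PC.rawIn))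

end Pool.Agent.NPC

namespace Pool.Agent.H697.RT

open Finset Pool.Agent.NPC Pool.Agent.H697.Exp Pool.Agent.H697.UG Pool.Agent.H697.Red
  Pool.Agent.H697.Forest Pool.Agent.H697.LF

/-- The promise problem with yes-instances `Y` and no-instances `N`, restricted to the games with
the property `Cl`, is `NP`-hard under randomised polynomial-time reductions with one-sided error:
for every language `L` in `NP` and every `k` there are a polynomial-time map `f` and a polynomial `p`
such that for `x ∈ L` and all strings `r` of `p(|x|)` random bits `f (x, r)` is a yes-instance with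
the property `Cl`, and for `x ∉ L` it is a no-instance with the property `Cl` for all but at most a
fraction `1 / k` of these strings. -/
def RHard (Cl Y N : Game → Prop) : Prop :=
  ∀ L : Set (List Bool), InNP L → ∀ k : ℕ, ∃ (f : List Bool → List Bool) (p : Polynomial ℕ),
    PolyTime f ∧ ∀ x : List Bool,
      (x ∈ L → ∀ r : Fin (p.eval x.length) → Bool,
        ∃ I, f (pairBits x (List.ofFn r)) = bits I ∧ Cl I ∧ Y I) ∧
      (x ∉ L → k * Nat.card {r : Fin (p.eval x.length) → Bool //
        ¬ ∃ I, f (pairBits x (List.ofFn r)) = bits I ∧ Cl I ∧ N I} ≤ 2 ^ p.eval x.length)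

/-- The class `coRP`: languages with a randomised polynomial-time test which accepts all members, and
accepts every non-member with probability at most `1 / 2`. -/
def InCoRP (L : Set (List Bool)) : Prop :=
  ∃ (V : List Bool → List Bool) (p : Polynomial ℕ), PolyTime V ∧ ∀ x : List Bool,
    (x ∈ L → ∀ r : Fin (p.eval x.length) → Bool, V (pairBits x (List.ofFn r)) = [true]) ∧
    (x ∉ L → 2 * Nat.card {r : Fin (p.eval x.length) → Bool //
      V (pairBits x (List.ofFn r)) = [true]} ≤ 2 ^ p.eval x.length)

/-- An easy problem is not hard, unless `NP ⊆ coRP`. -/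
theorem RHard.collapse {Cl Y N : Game → Prop} (h : RHard Cl Y N) (h' : LC.Easy Cl Y N) :
    ∀ L : Set (List Bool), InNP L → InCoRP L := by
  intro L hL
  obtain ⟨P, hP, hsep⟩ := h'
  obtain ⟨V, hV, hVP⟩ := hP.exists_test
  obtain ⟨f, p, hf, hfx⟩ := h L hL 2
  refine ⟨fun y => V (f y), p, H642R2.TMSim.polyTime_comp hV hf, fun x => ⟨fun hx r => ?_,
    fun hx => ?_⟩⟩
  · obtain ⟨I, h1, h2, h3⟩ := (hfx x).1 hx r
    show V (f (pairBits x (List.ofFn r))) = [true]
    rw [h1, ← hVP]
    exact (hsep I h2).1 h3
  · refine le_trans (Nat.mul_le_mul_left _ ?_) ((hfx x).2 hx)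
    refine Nat.card_le_card_of_injective (fun r => ⟨r.1, ?_⟩) ?_
    · rintro ⟨I, h1, h2, h3⟩
      have h4 : V (f (pairBits x (List.ofFn r.1))) = [true] := r.2
      rw [h1, ← hVP] at h4
      exact (hsep I h2).2 h3 h4
    · intro r r' hr
      exact Subtype.ext (congrArg (fun y => y.1) hr)

theorem RHard.mono {Cl Cl' Y Y' N N' : Game → Prop} (h : RHard Cl Y N) (hCl : ∀ I, Cl I → Cl' I)
    (hY : ∀ I, Y I → Y' I) (hN : ∀ I, N I → N' I) : RHard Cl' Y' N' := by
  intro L hL k
  obtain ⟨f, p, hf, hfx⟩ := h L hL k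
  refine ⟨f, p, hf, fun x => ⟨fun hx r => ?_, fun hx => ?_⟩⟩
  · obtain ⟨I, h1, h2, h3⟩ := (hfx x).1 hx r
    exact ⟨I, h1, hCl I h2, hY I h3⟩
  · refine le_trans (Nat.mul_le_mul_left _ ?_) ((hfx x).2 hx)
    refine Nat.card_le_card_of_injective (fun r => ⟨r.1, ?_⟩) ?_
    · rintro ⟨I, h1, h2, h3⟩
      exact r.2 ⟨I, h1, hCl I h2, hN I h3⟩
    · intro r r' hr
      exact Subtype.ext (congrArg (fun y => y.1) hr)

/-- Deterministic reductions are randomised reductions. -/
theorem rhard_of_hard {Cl Y N : Game → Prop} (h : LC.Hard Cl Y N) : RHard Cl Y N := by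
  intro L hL k
  obtain ⟨f, hf, hfx⟩ := h L hL
  have h1 : PolyTime (fun y : List Bool => (unpair y).1) :=
    polyTime_of_poly' (Poly.fst poly_unpair)
  refine ⟨fun y => f (unpair y).1, 0, H642R2.TMSim.polyTime_comp hf h1, fun x => ⟨fun hx r => ?_,
    fun hx => ?_⟩⟩
  · obtain ⟨I, h2, h3, h4, _⟩ := hfx x
    refine ⟨I, ?_, h3, h4 hx⟩
    show f (unpair (pairBits x (List.ofFn r))).1 = bits I
    rw [unpair_pairBits]
    exact h2
  · obtain ⟨I, h2, h3, _, h4⟩ := hfx x
    have h5 : IsEmpty {r : Fin ((0 : Polynomial ℕ).eval x.length) → Bool //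
        ¬ ∃ I, f (unpair (pairBits x (List.ofFn r))).1 = bits I ∧ Cl I ∧ N I} :=
      ⟨fun r => r.2 ⟨I, by rw [unpair_pairBits]; exact h2, h3, h4 hx⟩⟩
    rw [Nat.card_of_isEmpty, mul_zero]
    exact Nat.zero_le _

theorem exists_poly_bound {f : List Bool → List Bool} (hf : PolyTime f) :
    ∃ p : Polynomial ℕ, ∀ x, (f x).length ≤ p.eval x.length := by
  obtain ⟨p, hp⟩ := (poly_of_polyTime hf).sz_le
  refine ⟨p.comp (Polynomial.C 4 * Polynomial.X + Polynomial.C 1), fun x => ?_⟩
  rw [Polynomial.eval_comp, Polynomial.eval_add, Polynomial.eval_mul, Polynomial.eval_C,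
    Polynomial.eval_X, Polynomial.eval_C]
  have h1 := hp x
  have h2 := sz_listBool_ge (f x)
  have h3 : p.eval (sz x) ≤ p.eval (4 * x.length + 1) := eval_mono p (sz_listBool_le x)
  omega

/-- The bits number `m, ..., m + n - 1`. -/
def seg (w : List Bool) (m n : ℕ) : List Bool :=
  (List.range n).map fun i => (w[m + i]?).getD false

theorem poly_seg {α : Type} [TEnc α] {w : α → List Bool} {m n : α → ℕ} (hw : Poly w)
    (hm : Poly m) (hn : UPoly n) : Poly (fun a => seg (w a) (m a) (n a)) := by
  unfold seg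
  refine NPC.Poly.map (F := fun (a : α) (i : ℕ) => ((w a)[m a + i]?).getD false) hn.range ?_
  have h2 : Poly (fun p : α × ℕ => (w p.1)[m p.1 + p.2]?) :=
    Poly.getElem? (hw.comp (Poly.fst Poly.id)) (Poly.add (hm.comp (Poly.fst Poly.id))
      (Poly.snd Poly.id))
  refine (Poly.optCases (g := fun _ => false) (h := fun _ c => c) h2 (NPC.Poly.const false)
    (Poly.snd Poly.id)).congr fun p => ?_
  cases (w p.1)[m p.1 + p.2]? <;> rfl

theorem seg_left {m n : ℕ} (r : Fin (m + n) → Bool) :
    seg (List.ofFn r) 0 m = List.ofFn fun i : Fin m => r (Fin.castAdd n i) := by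
  apply List.ext_getElem
  · simp [seg]
  · intro i h1 h2
    simp only [seg, List.getElem_map, List.getElem_range, List.getElem_ofFn, zero_add]
    have h3 : i < m := by simpa using h2
    rw [List.getElem?_ofFn, dif_pos (by omega)]
    rfl

theorem seg_right {m n : ℕ} (r : Fin (m + n) → Bool) :
    seg (List.ofFn r) m n = List.ofFn fun i : Fin n => r (Fin.natAdd m i) := by
  apply List.ext_getElem
  · simp [seg]
  · intro i h1 h2
    simp only [seg, List.getElem_map, List.getElem_range, List.getElem_ofFn]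
    have h3 : i < n := by simpa using h2
    rw [List.getElem?_ofFn, dif_pos (by omega)]
    rfl

/-- Counting the bad pairs. -/
theorem card_bad_pairs {A B : Type} [Fintype A] [Fintype B] (k : ℕ) (Q : A × B → Prop)
    (Q1 : A → Prop) (h1 : 2 * k * Nat.card {a // ¬ Q1 a} ≤ Fintype.card A)
    (h2 : ∀ a, Q1 a → 2 * k * Nat.card {b // ¬ Q (a, b)} ≤ Fintype.card B) :
    k * Nat.card {x // ¬ Q x} ≤ Fintype.card A * Fintype.card B := by
  classical
  have h3 : Nat.card {x // ¬ Q x} = ∑ a, Nat.card {b // ¬ Q (a, b)} := by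
    rw [natCard_filter, card_filter, Fintype.sum_prod_type]
    refine sum_congr rfl fun a _ => ?_
    rw [natCard_filter, card_filter]
  have h4 : ∀ a, 2 * k * Nat.card {b // ¬ Q (a, b)} ≤
      Fintype.card B + if ¬ Q1 a then 2 * k * Fintype.card B else 0 := by
    intro a
    by_cases h : Q1 a
    · rw [if_neg (by simpa using h)]
      exact h2 a h
    · rw [if_pos h]
      refine le_add_left (Nat.mul_le_mul_left _ ?_)
      rw [natCard_filter]
      exact card_le_univ _
  have h5 : 2 * (k * Nat.card {x // ¬ Q x}) ≤ 2 * (Fintype.card A * Fintype.card B) := by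
    calc 2 * (k * Nat.card {x // ¬ Q x}) = ∑ a, 2 * k * Nat.card {b // ¬ Q (a, b)} := by
          rw [h3, ← mul_sum]; ring
      _ ≤ ∑ a, (Fintype.card B + if ¬ Q1 a then 2 * k * Fintype.card B else 0) :=
          sum_le_sum fun a _ => h4 a
      _ = Fintype.card A * Fintype.card B +
          2 * k * Nat.card {a // ¬ Q1 a} * Fintype.card B := by
          rw [sum_add_distrib, sum_const, card_univ, smul_eq_mul, ← sum_filter, sum_const,
            smul_eq_mul, natCard_filter]
          ring
      _ ≤ Fintype.card A * Fintype.card B + Fintype.card A * Fintype.card B :=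
          Nat.add_le_add_left (Nat.mul_le_mul_right _ h1) _
      _ = _ := by ring
  exact Nat.le_of_mul_le_mul_left h5 (by norm_num)

/-- The code of the value of an option, or the empty string. -/
def opb {β : Type} [TEnc β] (o : Option β) : List Bool :=
  match o with
  | none => []
  | some b => bits b

/-- Composition of randomised reductions. -/
theorem RHard.of_random {Cl₀ Y₀ N₀ Cl Y N : Game → Prop} (h : RHard Cl₀ Y₀ N₀)
    (hred : ∀ c : ℕ, ∃ (F : Game → List Bool → Game) (M : Game → ℕ) (P : Polynomial ℕ),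
      Poly (fun p : Game × List Bool => F p.1 p.2) ∧ (∀ I, M I ≤ P.eval (sz I)) ∧
      (∀ I, Cl₀ I → Y₀ I → ∀ m, M I ≤ m → ∀ rr : Fin m → Bool,
        Cl (F I (List.ofFn rr)) ∧ Y (F I (List.ofFn rr))) ∧
      (∀ I, Cl₀ I → N₀ I → ∀ m, M I ≤ m → c * Nat.card {rr : Fin m → Bool //
        ¬ (Cl (F I (List.ofFn rr)) ∧ N (F I (List.ofFn rr)))} ≤ 2 ^ m)) : RHard Cl Y N := by
  intro L hL k
  obtain ⟨f, p, hf, hfx⟩ := h L hL (2 * k)
  obtain ⟨F, M, P, hF, hM, hY, hN⟩ := hred (2 * k)
  obtain ⟨pf, hpf⟩ := exists_poly_bound hf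
  set p2 : Polynomial ℕ := P.comp (pf.comp (Polynomial.C 2 * Polynomial.X + Polynomial.C 1 + p))
    with hp2
  have hlen : ∀ (x : List Bool) (r : Fin (p.eval x.length) → Bool),
      (pairBits x (List.ofFn r)).length = 2 * x.length + 1 + p.eval x.length := by
    intro x r
    simp [pairBits]
    omega
  have hMle : ∀ (x : List Bool) (r : Fin (p.eval x.length) → Bool) (I : Game),
      f (pairBits x (List.ofFn r)) = bits I → M I ≤ p2.eval x.length := by
    intro x r I hI
    rw [hp2, Polynomial.eval_comp, Polynomial.eval_comp]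
    refine (hM I).trans (eval_mono P ?_)
    rw [← bits_length, ← hI]
    refine (hpf _).trans (eval_mono pf ?_)
    rw [hlen]
    simp only [Polynomial.eval_add, Polynomial.eval_mul, Polynomial.eval_C, Polynomial.eval_X]
    exact le_rfl
  -- the new reduction
  have hx : Poly (fun y : List Bool => (unpair y).1) := Poly.fst poly_unpair
  have hw : Poly (fun y : List Bool => (unpair y).2) := Poly.snd poly_unpair
  have hu1 : UPoly (fun y : List Bool => p.eval (unpair y).1.length) := (UPoly.length hx).eval p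
  have hu2 : UPoly (fun y : List Bool => p2.eval (unpair y).1.length) := (UPoly.length hx).eval p2
  have h1 : Poly (fun y : List Bool => (unbits Game (f (pairBits (unpair y).1
      (seg (unpair y).2 0 (p.eval (unpair y).1.length))))).map
      fun I => F I (seg (unpair y).2 (p.eval (unpair y).1.length)
        (p2.eval (unpair y).1.length))) := by
    refine Poly.optMap (o := fun y : List Bool => unbits Game (f (pairBits (unpair y).1
      (seg (unpair y).2 0 (p.eval (unpair y).1.length)))))
      (f := fun y I => F I (seg (unpair y).2 (p.eval (unpair y).1.length)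
        (p2.eval (unpair y).1.length))) ?_ ?_
    · refine poly_unbits.comp ((poly_of_polyTime hf).comp ?_)
      unfold pairBits
      refine Poly.append (Poly.flatMap (F := fun (_ : List Bool) (b : Bool) => [true, b]) hx ?_)
        (Poly.cons (NPC.Poly.const false) (poly_seg hw (NPC.Poly.const 0) hu1))
      exact Poly.cons (NPC.Poly.const true) (Poly.cons (Poly.snd Poly.id) (NPC.Poly.const []))
    · exact hF.comp (Poly.pair (Poly.snd Poly.id) (poly_seg (hw.comp (Poly.fst Poly.id))
        (hu1.toPoly.comp (Poly.fst Poly.id)) (hu2.comp (Poly.fst Poly.id))))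
  obtain ⟨f', hf'⟩ : ∃ f'' : List Bool → List Bool, f'' = (fun y =>
      opb ((unbits Game (f (pairBits (unpair y).1
      (seg (unpair y).2 0 (p.eval (unpair y).1.length))))).map
      fun I => F I (seg (unpair y).2 (p.eval (unpair y).1.length)
        (p2.eval (unpair y).1.length)))) := ⟨_, rfl⟩
  have hfP : PolyTime f' := by
    rw [hf']
    exact polyTime_opt h1
  refine ⟨f', p + p2, hfP, fun x => ?_⟩
  rw [Polynomial.eval_add]
  have key : ∀ (r : Fin (p.eval x.length + p2.eval x.length) → Bool) (I : Game),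
      f (pairBits x (List.ofFn fun i => r (Fin.castAdd _ i))) = bits I →
      f' (pairBits x (List.ofFn r)) = bits (F I (List.ofFn fun i => r (Fin.natAdd _ i))) := by
    intro r I hI
    rw [hf']
    dsimp only
    rw [unpair_pairBits]
    dsimp only
    rw [seg_left, seg_right, hI, unbits_bits]
    rfl
  refine ⟨fun hx r => ?_, fun hx => ?_⟩
  · obtain ⟨I, h2, h3, h4⟩ := (hfx x).1 hx fun i => r (Fin.castAdd _ i)
    exact ⟨_, key r I h2, hY I h3 h4 _ (hMle x _ I h2) _⟩
  · have h2 := card_bad_pairs k
      (fun y : (Fin (p.eval x.length) → Bool) × (Fin (p2.eval x.length) → Bool) =>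
        ∃ I, f' (pairBits x (List.ofFn (Fin.append y.1 y.2))) = bits I ∧ Cl I ∧ N I)
      (fun r1 => ∃ I, f (pairBits x (List.ofFn r1)) = bits I ∧ Cl₀ I ∧ N₀ I) (by
        refine ((hfx x).2 hx).trans ?_
        simp) (by
        rintro r1 ⟨I, h3, h4, h5⟩
        have h6 := hN I h4 h5 _ (hMle x _ I h3)
        rw [Fintype.card_fun, Fintype.card_bool, Fintype.card_fin]
        refine le_trans (Nat.mul_le_mul_left _ ?_) h6
        refine Nat.card_le_card_of_injective (fun r => ⟨r.1, ?_⟩) ?_
        · intro h7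
          refine r.2 ⟨_, key (Fin.append r1 r.1) I ?_, ?_⟩
          · simpa using h3
          · simpa using h7
        · intro r r' hr
          exact Subtype.ext (congrArg (fun y => y.1) hr))
    have h3 : Nat.card {r : Fin (p.eval x.length + p2.eval x.length) → Bool //
        ¬ ∃ I, f' (pairBits x (List.ofFn r)) = bits I ∧ Cl I ∧ N I} =
        Nat.card {y : (Fin (p.eval x.length) → Bool) × (Fin (p2.eval x.length) → Bool) //
          ¬ ∃ I, f' (pairBits x (List.ofFn (Fin.append y.1 y.2))) = bits I ∧ Cl I ∧ N I} := by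
      refine (Nat.card_congr (Equiv.subtypeEquiv (Fin.appendEquiv _ _) fun y => ?_)).symm
      rfl
    rw [h3]
    refine h2.trans (le_of_eq ?_)
    rw [Fintype.card_fun, Fintype.card_fun, Fintype.card_bool, Fintype.card_fin, Fintype.card_fin,
      pow_add]

end Pool.Agent.H697.RT
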