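import Pool.Agent.H697.RT.Iso

/-!
# The random reduction
-/

namespace Pool.Agent.H697.RT

open Finset Pool.Agent.NPC Pool.Agent.H697.Exp Pool.Agent.H697.UG Pool.Agent.H697.Red
  Pool.Agent.H697.Forest Pool.Agent.H697.LF

/-- For every set `S` of vertices the number of the edges with both ends in `S` exceeds the number
of the vertices in `S` by at most `1 - t` times the number of all edges. -/
def Thr (t : ℝ) {V : Type} (G : SimpleGraph V) : Prop :=
  ∀ S : Set V, ((G.induce S).edgeSet.ncard : ℝ) ≤ S.ncard + (1 - t) * G.edgeSet.ncard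

open Classical in
theorem exists_darts {V0 : Type} [Fintype V0] (G0 : SimpleGraph V0) (hG0 : ∀ a, ∃ b, G0.Adj a b)
    (S : Set V0) : ∃ (T : ℕ) (src tgt : Fin T → V0), Darts G0 src tgt ∧
      Function.Surjective src ∧ T = 2 * G0.edgeSet.ncard ∧
      (univ.filter fun t => ¬ (src t ∈ S ∧ tgt t ∈ S)).card +
        2 * (G0.induce S).edgeSet.ncard = T := by
  have hcard : ∀ {V : Type} [Fintype V] (G : SimpleGraph V),
      Fintype.card G.Dart = 2 * G.edgeSet.ncard := by
    intro V _ G
    rw [G.dart_card_eq_twice_card_edges, Set.ncard_eq_toFinset_card', SimpleGraph.edgeFinset]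
  set f := (Fintype.equivFin G0.Dart).symm with hf
  refine ⟨Fintype.card G0.Dart, fun t => (f t).fst, fun t => (f t).snd, ⟨fun t => (f t).adj, ?_, ?_⟩,
    ?_, hcard G0, ?_⟩
  · intro x y h
    refine ⟨f.symm ⟨(x, y), h⟩, ?_, ?_⟩
    · simp
    · simp
  · intro t t' h h'
    apply f.injective
    exact SimpleGraph.Dart.ext _ _ (Prod.ext h h')
  · intro x
    obtain ⟨y, h⟩ := hG0 x
    exact ⟨f.symm ⟨(x, y), h⟩, by simp⟩
  · have h0 := hcard (G0.induce S)
    have h1 : (univ.filter fun t => ((f t).fst ∈ S ∧ (f t).snd ∈ S)).card =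
        2 * (G0.induce S).edgeSet.ncard := by
      rw [← h0]
      symm
      refine card_univ.symm.trans (card_bij (fun d _ => f.symm ⟨(d.fst.1, d.snd.1), d.adj⟩) ?_ ?_ ?_)
      · intro d _
        rw [mem_filter]
        refine ⟨mem_univ _, ?_⟩
        simp only [Equiv.apply_symm_apply]
        exact ⟨d.fst.2, d.snd.2⟩
      · intro d _ d' _ h
        have h2 := f.symm.injective h
        apply SimpleGraph.Dart.ext
        have h3 := congrArg (fun x : G0.Dart => x.toProd) h2
        dsimp only at h3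
        simp only [Prod.mk.injEq] at h3
        exact Prod.ext (Subtype.ext h3.1) (Subtype.ext h3.2)
      · intro t ht
        obtain ⟨_, h2, h3⟩ := mem_filter.1 ht
        refine ⟨⟨(⟨(f t).fst, h2⟩, ⟨(f t).snd, h3⟩), (f t).adj⟩, mem_univ _, ?_⟩
        rw [Equiv.symm_apply_eq]
    have h2 := card_filter_add_card_filter_not (s := (univ : Finset (Fin (Fintype.card G0.Dart))))
      (fun t => (f t).fst ∈ S ∧ (f t).snd ∈ S)
    rw [h1, card_univ, Fintype.card_fin] at h2
    rw [add_comm] at h2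
    exact h2

/-- The number of labels which a table maps to one label. -/
def Fib (q D : ℕ) (I : Game) : Prop :=
  ∀ e ∈ I, ∀ y : Fin q, (univ.filter fun x : Fin q => e.2[(x : ℕ)]? = some (y : ℕ)).card ≤ D

theorem numSat_RJ {V0 : Type} {T j b : ℕ} {e0 : V0 → ℕ} {src tgt : Fin T → V0}
    {tb : (Fin b → Bool) → Loc (Fin T) j} {J : Game} {cf : Edge → ℕ} {m q : ℕ}
    (hj : 0 < j) (hc : Colored (T * j) cf J)
    (hm : 2 * J.length * b ≤ m) (rr : Fin m → Bool) (L M : ℕ → Fin q) :
    numSat (RJ e0 src tgt tb J cf rr) L M = Nat.card {p //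
      OK (aa src (uu J) {n // n ∈ rights J} (cc hj hc)) (bb tgt {n // n ∈ lefts J} (vv J)
        (cc hj hc)) (fun (p : Fin J.length) (x y : Fin q) =>
          (J[p]).2[(x : ℕ)]? = some (y : ℕ))
        (om (uu J) (vv J) (cc hj hc) (gg tb J hm rr))
        (fun w => Sum.elim L M (nmW e0 w)) p} := by
  classical
  have h0 : numSat (RJ e0 src tgt tb J cf rr) L M = (univ.filter fun p : Fin J.length =>
      Sat L M (rle b (cd e0 src tgt tb) J (List.ofFn rr) (J[p], cf J[p]))).card := by
    unfold RJ numSat RL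
    rw [List.filter_map, List.length_map, filter_ofFn]
    congr 1
    ext p
    simp only [mem_filter, mem_univ, true_and, Function.comp, decide_eq_true_eq]
  rw [h0, ← natCard_filter]
  refine Nat.card_congr (Equiv.subtypeEquivRight fun p => ?_)
  have h2 := rle_left (e0 := e0) (src := src) (tgt := tgt) (tb := tb) hj hc hm rr p
  have h3 := rle_right (e0 := e0) (src := src) (tgt := tgt) (tb := tb) hj hc hm rr p
  unfold OK
  beta_reduce
  rw [← h2, ← h3]
  exact Iff.rfl

set_option maxHeartbeats 1000000 in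
/-- Soundness. -/
theorem sound_RJ {V0 : Type} [Fintype V0] {T j b : ℕ} {e0 : V0 → ℕ} {src tgt : Fin T → V0}
    {tb : (Fin b → Bool) → Loc (Fin T) j} {J : Game} {cf : Edge → ℕ} {m q D : ℕ}
    (hTpos : 0 < T) (hsrc : Function.Surjective src)
    (hj : 0 < j) (hJ0 : J ≠ []) (hJS : Simple J) (hJc : Colored (T * j) cf J)
    (hJg : GirthGT (graphOf J) q) (hq : 0 < q) (hD : 0 < D) (hFib : Fib q D J)
    (htb : ∀ l : Loc (Fin T) j, Nat.card {a // tb a = l} *
      Fintype.card (Loc (Fin T) j) ≤ 2 * 2 ^ b)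
    (hm : 2 * J.length * b ≤ m) {δ1 η t : ℝ} {κ : ℕ} (hη0 : 0 < η) (hκ : 1 ≤ κ * η)
    (hδ1 : δ1 = (1 / (4096 * D)) ^ κ * η / T)
    (hno1 : ∀ L M : ℕ → Fin q, (numSat J L M : ℝ) ≤ δ1 * J.length)
    (S0 : Finset V0) {nout : ℕ}
    (hnout : Nat.card {s : Fin T // ¬ (src s ∈ S0 ∧ tgt s ∈ S0)} = nout)
    (ht : (2 * S0.card + nout : ℝ) / T + η = t) :
    2 ^ J.length * Nat.card {rr : Fin m → Bool // ∃ L M : ℕ → Fin q,
      t * J.length ≤ numSat (RJ e0 src tgt tb J cf rr) L M} ≤ 2 ^ m := by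
  classical
  have hNpos : 0 < J.length := List.length_pos_iff.2 hJ0
  have hTr : (0 : ℝ) < T := by exact_mod_cast hTpos
  -- relations and hints
  set Sr : Fin J.length → Fin q → Fin q → Prop := fun p x y =>
    (J[p]).2[(x : ℕ)]? = some (y : ℕ) with hSr
  set cn : Fin J.length → Fin q → ℕ := fun p x =>
    (univ.filter fun x' : Fin q => x' < x ∧ (J[p]).2[(x' : ℕ)]? = (J[p]).2[(x : ℕ)]?).card
    with hcn
  set rk : Fin J.length → Fin q → Fin D := fun p x =>
    if h : cn p x < D then ⟨cn p x, h⟩ else ⟨0, hD⟩ with hrk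
  have hFibJ : ∀ (p : Fin J.length) (y : Fin q),
      (univ.filter fun x : Fin q => Sr p x y).card ≤ D := by
    intro p y
    exact hFib J[p] (List.getElem_mem _) y
  have hcnlt : ∀ p x y, Sr p x y → cn p x < D := by
    intro p x y h
    refine lt_of_lt_of_le (card_lt_card ?_) (hFibJ p y)
    rw [ssubset_iff_of_subset]
    · refine ⟨x, mem_filter.2 ⟨mem_univ _, h⟩, ?_⟩
      intro h1
      exact lt_irrefl _ (mem_filter.1 h1).2.1
    · intro x' hx'
      have h1 := (mem_filter.1 hx').2.2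
      refine mem_filter.2 ⟨mem_univ _, ?_⟩
      rw [hSr]
      dsimp only
      rw [h1]
      exact h
  have hmono : ∀ p x x' y, Sr p x y → Sr p x' y → x < x' → cn p x < cn p x' := by
    intro p x x' y h h' hlt
    have hxx : (J[p]).2[(x : ℕ)]? = (J[p]).2[(x' : ℕ)]? := h.trans h'.symm
    refine card_lt_card ?_
    rw [ssubset_iff_of_subset]
    · refine ⟨x, mem_filter.2 ⟨mem_univ _, hlt, hxx⟩, ?_⟩
      intro h1
      exact lt_irrefl _ (mem_filter.1 h1).2.1
    · intro x'' hx''
      obtain ⟨h1, h2⟩ := (mem_filter.1 hx'').2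
      exact mem_filter.2 ⟨mem_univ _, h1.trans hlt, h2.trans hxx⟩
  have hrkval : ∀ p x y, Sr p x y → (rk p x : ℕ) = cn p x := by
    intro p x y h
    rw [hrk]
    dsimp only
    rw [dif_pos (hcnlt p x y h)]
  have hS1 : ∀ p x y y', Sr p x y → Sr p x y' → y = y' := by
    intro p x y y' h h'
    have h1 : (J[p]).2[(x : ℕ)]? = some (y : ℕ) := h
    have h2 : (J[p]).2[(x : ℕ)]? = some (y' : ℕ) := h'
    rw [h1] at h2
    exact Fin.ext (Option.some_injective _ h2)
  have hS2 : ∀ p x x' y, Sr p x y → Sr p x' y → rk p x = rk p x' → x = x' := by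
    intro p x x' y h h' hr
    have h1 : cn p x = cn p x' := by
      rw [← hrkval p x y h, ← hrkval p x' y h', hr]
    rcases lt_trichotomy x x' with hlt | heq | hlt
    · have := hmono p x x' y h h' hlt
      omega
    · exact heq
    · have := hmono p x' x y h' h hlt
      omega
  have hval : ∀ (L : {n // n ∈ lefts J} → Fin q) (M : {n // n ∈ rights J} → Fin q),
      (Nat.card {p // Sr p (L (uu J p)) (M (vv J p))} : ℝ) ≤
        δ1 * Fintype.card (Fin J.length) := by
    intro L M
    have h1 := hno1 (fun n => if h : n ∈ lefts J then L ⟨n, h⟩ else ⟨0, hq⟩)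
      (fun n => if h : n ∈ rights J then M ⟨n, h⟩ else ⟨0, hq⟩)
    rw [Fintype.card_fin]
    refine le_trans (le_of_eq ?_) h1
    rw [numSat_eq, natCard_filter]
    congr 2
    ext p
    simp only [mem_filter, mem_univ, true_and]
    unfold Sat
    dsimp only
    have h2 : (J[p]).1.1 ∈ lefts J := (uu J p).2
    have h3 : (J[p]).1.2 ∈ rights J := (vv J p).2
    rw [dif_pos h2, dif_pos h3]
    rfl
  have hfin : Nonempty (Fin J.length) := ⟨⟨0, hNpos⟩⟩
  have hFinT : Nonempty (Fin T) := ⟨⟨0, hTpos⟩⟩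
  have hmain := sound' (Λ := Fin q) (δ := δ1) (η := η) (col := cc hj hJc) (src := src) (tgt := tgt)
    (colSys hJS hj hJc) hFinT hj hfin hsrc hJg
    (fun x => (⟨Sum.inl x.1, by
      have hx := x.2
      unfold lefts at hx
      rw [List.mem_toFinset, List.mem_map] at hx
      obtain ⟨e, he, h⟩ := hx
      have := mem_support_mk false he
      rw [← h]
      exact this⟩ : (cgraph J).support))
    (fun x => (⟨Sum.inr x.1, by
      have hx := x.2
      unfold rights at hx
      rw [List.mem_toFinset, List.mem_map] at hx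
      obtain ⟨e, he, h⟩ := hx
      have := mem_support_mk true he
      rw [← h]
      exact this⟩ : (cgraph J).support))
    (fun x x' h => Subtype.ext (Sum.inr_injective (congrArg Subtype.val h)))
    (fun x x' h => Subtype.ext (Sum.inl_injective (congrArg Subtype.val h)))
    (fun p => adj_kk false (List.getElem_mem p.2))
    (by
      rw [Fintype.card_fin]
      exact Nat.lt_two_pow_self.le)
    Sr hD rk hS1 hS2 hη0 hκ (by
      rw [Fintype.card_fin, hδ1]
      apply le_of_eq
      field_simp) hval S0 hnout ⟨0, hq⟩ (pl J hm) (pl_inj J hm) htb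
  rw [Fintype.card_fin] at hmain
  refine le_trans (Nat.mul_le_mul_left _ ?_) hmain
  refine Nat.card_le_card_of_injective (fun rr => ⟨rr.1, ?_⟩) ?_
  · obtain ⟨L, M, hLM⟩ := rr.2
    refine ⟨fun w => Sum.elim L M (nmW e0 w), ?_⟩
    rw [Fintype.card_fin, ht]
    refine hLM.trans (le_of_eq ?_)
    rw [numSat_RJ (tb := tb) hj hJc hm rr.1 L M]
    rfl
  · intro rr rr' h
    exact Subtype.ext (congrArg (fun x => x.1) h)

/-- The random reduction. -/
theorem exists_random {V0 : Type} [Finite V0] (G0 : SimpleGraph V0)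
    (hG0 : ∀ a, ∃ b, G0.Adj a b) {t : ℝ} (ht : ¬ Thr t G0) {D : ℕ} (hD : 0 < D) :
    ∃ δ : ℝ, 0 < δ ∧ ∀ (q : ℕ) (κ : ℝ) (g c : ℕ), 0 < q → 0 < κ →
    ∃ (F : Game → List Bool → Game) (M : Game → ℕ) (P : Polynomial ℕ),
      Poly (fun p : Game × List Bool => F p.1 p.2) ∧ (∀ I, M I ≤ P.eval (sz I)) ∧
      ∀ I, I ≠ [] → ∀ m : ℕ, M I ≤ m →
        (∀ rr : Fin m → Bool, F I (List.ofFn rr) ≠ [] ∧ OnLifts g G0 (F I (List.ofFn rr)) ∧
          (∀ e ∈ F I (List.ofFn rr), ∃ e' ∈ I, e.2 = e'.2) ∧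
          (∀ L M : ℕ → Fin q, (∀ e ∈ I, ∃ y : Fin q, e.2[(L e.1.1 : ℕ)]? = some (y : ℕ)) →
            ∃ L' M' : ℕ → Fin q, (numSat I L M : ℝ) * (F I (List.ofFn rr)).length ≤
              (1 + κ) * (numSat (F I (List.ofFn rr)) L' M' * I.length) ∧
            ((∀ e ∈ I, ∃ x : Fin q, e.2[(x : ℕ)]? = some (M e.1.2 : ℕ)) →
              numSat I L M * (F I (List.ofFn rr)).length ≤
                numSat (F I (List.ofFn rr)) L' M' * I.length))) ∧
        (Fib q D I → (∀ L M : ℕ → Fin q, (numSat I L M : ℝ) ≤ δ * I.length) →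
          c * Nat.card {rr : Fin m → Bool // ∃ L M : ℕ → Fin q,
            t * (F I (List.ofFn rr)).length ≤ numSat (F I (List.ofFn rr)) L M} ≤ 2 ^ m) := by
  classical
  have := Fintype.ofFinite V0
  unfold Thr at ht
  push Not at ht
  obtain ⟨S, hS⟩ := ht
  obtain ⟨T, src, tgt, hdarts, hsrc, hT, hTS⟩ := exists_darts G0 hG0 S
  set S0 : Finset V0 := S.toFinset with hS0
  have hS0card : S.ncard = S0.card := Set.ncard_eq_toFinset_card' S
  -- there is an edge
  have hTpos : 0 < T := by
    by_contra hcon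
    have h0 : T = 0 := by omega
    have h1 : (G0.induce S).edgeSet.ncard = 0 := by omega
    have h2 : G0.edgeSet.ncard = 0 := by omega
    rw [h1, h2] at hS
    have : (0 : ℝ) ≤ S.ncard := by positivity
    push_cast at hS
    linarith
  have hTr : (0 : ℝ) < T := by exact_mod_cast hTpos
  have hmemS : ∀ x, x ∈ S0 ↔ x ∈ S := fun x => by rw [hS0, Set.mem_toFinset]
  set nout : ℕ := (univ.filter fun s => ¬ (src s ∈ S0 ∧ tgt s ∈ S0)).card with hnout
  have hnout2 : nout + 2 * (G0.induce S).edgeSet.ncard = T := by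
    rw [← hTS, hnout]
    congr 2
    ext s
    simp only [mem_filter, mem_univ, true_and, hmemS]
  set ρ : ℝ := (2 * S0.card + nout : ℝ) / T with hρ
  have hρt : ρ < t := by
    rw [hρ, div_lt_iff₀ hTr]
    have h1 : (nout : ℝ) = T - 2 * (G0.induce S).edgeSet.ncard := by
      have : ((nout + 2 * (G0.induce S).edgeSet.ncard : ℕ) : ℝ) = T := by rw [hnout2]
      push_cast at this
      linarith
    have h2 : (T : ℝ) = 2 * G0.edgeSet.ncard := by rw [hT]; push_cast; ring
    have h3 : (S.ncard : ℝ) = S0.card := by rw [hS0card]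
    rw [h1]
    rw [h3] at hS
    nlinarith
  set η : ℝ := t - ρ with hη
  have hη0 : 0 < η := by linarith
  obtain ⟨κ', hκ'⟩ := exists_nat_ge (1 / η)
  have hκ'2 : 1 ≤ κ' * η := by rwa [div_le_iff₀ hη0] at hκ'
  have hDr : (0 : ℝ) < D := by exact_mod_cast hD
  set δ1 : ℝ := (1 / (4096 * D)) ^ κ' * η / T with hδ1
  have hδ1pos : 0 < δ1 := by positivity
  refine ⟨δ1 / 2, by positivity, fun q κ g c hq hκ => ?_⟩
  obtain ⟨j', cf, F1, hj', hF1, hF1c, hF1I⟩ := exists_colored hq hκ
    (show δ1 / 2 < δ1 by linarith) (Nat.mul_pos hTpos (Nat.succ_pos c)) (max q g)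
  set j := (c + 1) * j' with hjdef
  have hj : 0 < j := Nat.mul_pos (Nat.succ_pos c) hj'
  have hTj : T * (c + 1) * j' = T * j := by rw [hjdef]; ring
  rw [hTj] at hF1I
  -- the table of permutations
  set b := Fintype.card (Loc (Fin T) j) with hb
  have hLpos : 0 < Fintype.card (Loc (Fin T) j) := Fintype.card_pos
  have hcb : Fintype.card (Fin b → Bool) = 2 ^ b := by simp
  obtain ⟨tb, htb⟩ := exists_table (Fin b → Bool) (Loc (Fin T) j) hLpos (by
    rw [hcb]
    exact Nat.lt_two_pow_self.le)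
  have htb' : ∀ l : Loc (Fin T) j, Nat.card {a // tb a = l} *
      Fintype.card (Loc (Fin T) j) ≤ 2 * 2 ^ b := by
    intro l
    have h1 := htb l
    rw [natCard_filter]
    rwa [hcb] at h1
  set e0 : V0 → ℕ := fun x => (Fintype.equivFin V0 x : ℕ) with he0
  have he0inj : Function.Injective e0 := fun x y h =>
    (Fintype.equivFin V0).injective (Fin.ext h)
  obtain ⟨P1, hP1⟩ := hF1.sz_le
  refine ⟨fun I r => RL b (cd e0 src tgt tb) cf (F1 I) r, fun I => 2 * (F1 I).length * b,
    Polynomial.C (2 * b) * P1, ?_, ?_, ?_⟩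
  · exact poly_RL b (poly_cd e0 src tgt tb) hF1c
  · intro I
    have h1 := (length_lt_sz (F1 I)).le.trans (hP1 I)
    rw [Polynomial.eval_mul, Polynomial.eval_C]
    calc 2 * (F1 I).length * b = 2 * b * (F1 I).length := by ring
      _ ≤ _ := Nat.mul_le_mul_left _ h1
  intro I hI m hm
  obtain ⟨hJ0, hJS, hJg, hJc, hJt, hJcomp, hJsound⟩ := hF1I I hI
  set J := F1 I with hJ
  have hNpos : 0 < J.length := List.length_pos_iff.2 hJ0
  have hgirth : GirthGT (graphOf J) g := fun a p hp =>
    lt_of_le_of_lt (le_max_right _ _) (hJg a p hp)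
  refine ⟨fun rr => ⟨?_, onLifts_RJ (tb := tb) hG0 hdarts he0inj hJ0 hJS hj hJc hgirth hm rr, ?_,
    ?_⟩, ?_⟩
  · rw [← List.length_pos_iff, length_RL]
    exact hNpos
  · intro e he
    obtain ⟨e', he', h1⟩ := tables_RL he
    obtain ⟨e'', he'', h2⟩ := hJt e' he'
    exact ⟨e'', he'', h1.trans h2⟩
  · intro L M hLM
    obtain ⟨L1, M1, h1, h2⟩ := hJcomp L M hLM
    refine ⟨fun n => L1 (Nat.unpair n).1, fun n => M1 (Nat.unpair n).1, ?_, ?_⟩
    · rw [complete_RL, length_RL]
      exact h1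
    · rw [complete_RL, length_RL]
      exact h2
  · intro hFib hno
    have hno1 := hJsound hno
    have hFibJ : Fib q D J := by
      intro e he y
      obtain ⟨e', he', h1⟩ := hJt e he
      rw [h1]
      exact hFib e' he' y
    have h1 := sound_RJ (e0 := e0) (m := m) (t := t) hTpos hsrc hj hJ0 hJS hJc
      (fun a p hp => lt_of_le_of_lt (le_max_left _ _) (hJg a p hp)) hq hD hFibJ htb' hm hη0
      hκ'2 hδ1 hno1 S0 (nout := nout) (by
        rw [Nat.card_eq_fintype_card, Fintype.card_subtype]) (by rw [hη, ← hρ]; ring)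
    have hcN : c ≤ 2 ^ J.length := by
      have h2 : T * j ≤ J.length := by
        obtain ⟨e, he⟩ := List.exists_mem_of_ne_nil J hJ0
        have h3 : Finset.range (T * j) ⊆ (J.map cf).toFinset := by
          intro a ha
          obtain ⟨e', he', _, h4⟩ := hJc.ex false e he a (mem_range.1 ha)
          rw [List.mem_toFinset, List.mem_map]
          exact ⟨e', he', h4⟩
        have h4 := card_le_card h3
        rw [card_range] at h4
        refine h4.trans ((List.toFinset_card_le _).trans ?_)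
        rw [List.length_map]
      have h3 : c ≤ T * j := by
        calc c ≤ c + 1 := Nat.le_succ c
          _ ≤ (c + 1) * j' := Nat.le_mul_of_pos_right _ hj'
          _ ≤ T * j := Nat.le_mul_of_pos_left _ hTpos
      exact (h3.trans h2).trans Nat.lt_two_pow_self.le
    refine le_trans (Nat.mul_le_mul_right _ hcN) ?_
    refine le_trans (Nat.mul_le_mul_left _ (le_of_eq ?_)) h1
    refine Nat.card_congr (Equiv.subtypeEquivRight fun rr => ?_)
    rw [length_RL]

end Pool.Agent.H697.RT
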