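import Pool.Agent.H697.RT.Count
import Pool.Agent.H697.Exp.Girth

/-!
# Labellings which satisfy many constraints
-/

namespace Pool.Agent.H697.RT

open Finset Pool.Agent.H697.Exp

variable {ι P W Λ : Type} [Fintype ι] [DecidableEq ι] [Fintype P] [DecidableEq P] [Fintype W]
  [DecidableEq W] [Fintype Λ] [DecidableEq Λ]

set_option linter.unusedSectionVars false

/-- A graph without cycles has at most as many edges as vertices. -/
theorem card_edges_acyclic {V : Type} [Fintype V] (F : SimpleGraph V) (hF : F.IsAcyclic) :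
    F.edgeSet.ncard ≤ Fintype.card V := by
  classical
  rcases isEmpty_or_nonempty V with h | h
  · have : F.edgeSet = ∅ := by
      rw [Set.eq_empty_iff_forall_notMem]
      intro e
      induction e using Sym2.ind with
      | _ a _ => exact isEmptyElim a
    rw [this]
    simp
  · obtain ⟨T, hFT, _, hT⟩ := (SimpleGraph.connected_top (V := V)).exists_isTree_le_of_le_of_isAcyclic
      (le_top : F ≤ ⊤) hF
    have h1 := hT.card_edgeFinset
    have h2 : F.edgeSet ⊆ (T.edgeFinset : Set (Sym2 V)) := by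
      rw [SimpleGraph.coe_edgeFinset]
      exact SimpleGraph.edgeSet_mono hFT
    have h3 := Set.ncard_le_ncard h2 (Finset.finite_toSet _)
    rw [Set.ncard_coe_finset] at h3
    omega

theorem card_edges_acyclic' (F : SimpleGraph W) (hF : F.IsAcyclic) (W0 : Finset W)
    (T : Finset (Sym2 W)) (hT : ∀ e ∈ T, e ∈ F.edgeSet ∧ ∀ w ∈ e, w ∈ W0) : T.card ≤ W0.card := by
  classical
  have h1 := card_edges_acyclic (F.induce (W0 : Set W)) (hF.induce _)
  have h2 : (T : Set (Sym2 W)) ⊆
      Sym2.map (Subtype.val : ((W0 : Set W) : Type) → W) '' (F.induce (W0 : Set W)).edgeSet := by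
    intro e he
    obtain ⟨h3, h4⟩ := hT e he
    induction e using Sym2.ind with
    | _ a b =>
      refine ⟨s(⟨a, h4 a (Sym2.mem_mk_left _ _)⟩, ⟨b, h4 b (Sym2.mem_mk_right _ _)⟩), ?_, rfl⟩
      exact h3
  have h3 := Set.ncard_le_ncard h2 (Set.toFinite _)
  rw [Set.ncard_coe_finset] at h3
  have h4 := Set.ncard_image_le (f := Sym2.map (Subtype.val : ((W0 : Set W) : Type) → W))
    (Set.toFinite (F.induce (W0 : Set W)).edgeSet)
  have h5 : Fintype.card (W0 : Set W) = W0.card := by simp
  omega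

variable {a b : ι → P → W} {S : ι → Λ → Λ → Prop} {z : Λ} {ω : ι → P}

theorem gr_adj {F : Finset ι} (hab : ∀ p, a p (ω p) ≠ b p (ω p)) {p : ι} (hp : p ∈ F) :
    (gr a b ω F).Adj (a p (ω p)) (b p (ω p)) := by
  unfold gr
  rw [SimpleGraph.fromRel_adj]
  exact ⟨hab p, Or.inl ⟨p, hp, rfl, rfl⟩⟩

theorem exists_bad {s : ℕ} (hab : ∀ p, a p (ω p) ≠ b p (ω p))
    (hinj : ∀ p p', s(a p (ω p), b p (ω p)) = s(a p' (ω p'), b p' (ω p')) → p = p')
    (hg : GirthGT (gr a b ω univ) s) {H : Finset ι} {W0 : Finset W}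
    (hH : ∀ p ∈ H, a p (ω p) ∈ W0 ∧ b p (ω p) ∈ W0) {x : ℕ} (hx : W0.card + x ≤ H.card)
    {f : W → Λ} (hf : ∀ p ∈ H, OK a b S ω f p) : Bad a b S z s x ω := by
  classical
  obtain ⟨F0, hF0, hac, hreach⟩ := SimpleGraph.exists_isAcyclic_reachable_eq_le (G := gr a b ω H)
  set F := H.filter fun p => F0.Adj (a p (ω p)) (b p (ω p)) with hF
  have hFF : gr a b ω F = F0 := by
    ext w w'
    constructor
    · intro h
      unfold gr at h
      rw [SimpleGraph.fromRel_adj] at h
      obtain ⟨_, ⟨p, hp, rfl, rfl⟩ | ⟨p, hp, rfl, rfl⟩⟩ := h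
      · exact (mem_filter.1 hp).2
      · exact (mem_filter.1 hp).2.symm
    · intro h
      have h1 := hF0 h
      unfold gr at h1 ⊢
      rw [SimpleGraph.fromRel_adj] at h1 ⊢
      obtain ⟨hne, ⟨p, hp, rfl, rfl⟩ | ⟨p, hp, rfl, rfl⟩⟩ := h1
      · exact ⟨hne, Or.inl ⟨p, mem_filter.2 ⟨hp, h⟩, rfl, rfl⟩⟩
      · exact ⟨hne, Or.inr ⟨p, mem_filter.2 ⟨hp, h.symm⟩, rfl, rfl⟩⟩
  have hFcard : F.card ≤ W0.card := by
    have h1 : (F.image fun p => s(a p (ω p), b p (ω p))).card = F.card :=
      card_image_of_injOn fun p _ p' _ h => hinj p p' h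
    rw [← h1]
    refine card_edges_acyclic' F0 hac W0 _ fun e he => ?_
    obtain ⟨p, hp, rfl⟩ := mem_image.1 he
    obtain ⟨h2, h3⟩ := mem_filter.1 hp
    refine ⟨h3, fun w hw => ?_⟩
    rw [Sym2.mem_iff] at hw
    rcases hw with rfl | rfl
    · exact (hH p h2).1
    · exact (hH p h2).2
  set X := H \ F with hX
  have hXF : Disjoint X F := sdiff_disjoint
  have hXcard : x ≤ X.card := by
    have h2 : X.card + F.card = H.card :=
      card_sdiff_add_card_eq_card (filter_subset (fun p => F0.Adj (a p (ω p)) (b p (ω p))) H)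
    omega
  -- representatives
  set rep : ι → W := fun p => (F0.connectedComponentMk (a p (ω p))).out with hrep
  have hrep1 : ∀ p, F0.Reachable (rep p) (a p (ω p)) := by
    intro p
    have h1 : F0.connectedComponentMk (rep p) = F0.connectedComponentMk (a p (ω p)) :=
      Quot.out_eq _
    exact SimpleGraph.ConnectedComponent.eq.1 h1
  have hrep2 : ∀ p p', F0.Reachable (rep p) (rep p') → rep p = rep p' := by
    intro p p' h
    have h1 : F0.connectedComponentMk (rep p) = F0.connectedComponentMk (a p (ω p)) :=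
      Quot.out_eq _
    have h2 : F0.connectedComponentMk (rep p') = F0.connectedComponentMk (a p' (ω p')) :=
      Quot.out_eq _
    have h3 := SimpleGraph.ConnectedComponent.eq.2 h
    rw [h1, h2] at h3
    rw [hrep]
    beta_reduce
    rw [h3]
  have hjoin : ∀ p ∈ X, F0.Reachable (a p (ω p)) (b p (ω p)) := by
    intro p hp
    rw [hreach]
    exact (gr_adj hab (mem_sdiff.1 hp).1).reachable
  have hbig : ∀ p ∈ X, s ≤ (univ.filter fun w => F0.Reachable (rep p) w).card := by
    intro p hp
    obtain ⟨q, hq⟩ := (hjoin p hp).symm.exists_isPath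
    have hnot : ¬ F0.Adj (a p (ω p)) (b p (ω p)) := fun h =>
      (mem_sdiff.1 hp).2 (mem_filter.2 ⟨(mem_sdiff.1 hp).1, h⟩)
    have hle : F0 ≤ gr a b ω univ := by
      intro w w' h
      have h1 := hF0 h
      unfold gr at h1 ⊢
      rw [SimpleGraph.fromRel_adj] at h1 ⊢
      obtain ⟨hne, ⟨p, hp, h2⟩ | ⟨p, hp, h2⟩⟩ := h1
      · exact ⟨hne, Or.inl ⟨p, mem_univ _, h2⟩⟩
      · exact ⟨hne, Or.inr ⟨p, mem_univ _, h2⟩⟩
    have hcyc : (SimpleGraph.Walk.cons (gr_adj hab (mem_univ p)) (q.mapLe hle)).IsCycle := by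
      rw [SimpleGraph.Walk.cons_isCycle_iff]
      refine ⟨hq.mapLe hle, ?_⟩
      intro h
      rw [SimpleGraph.Walk.edges_mapLe_eq_edges] at h
      exact hnot (SimpleGraph.Walk.adj_of_mem_edges q h)
    have h1 := hg _ _ hcyc
    rw [SimpleGraph.Walk.length_cons, SimpleGraph.Walk.length_mapLe] at h1
    have h2 : q.support.toFinset.card = q.length + 1 := by
      rw [List.toFinset_card_of_nodup hq.support_nodup, SimpleGraph.Walk.length_support]
    have h3 : q.support.toFinset ⊆ univ.filter fun w => F0.Reachable (rep p) w := by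
      intro w hw
      rw [List.mem_toFinset] at hw
      rw [mem_filter]
      refine ⟨mem_univ _, (hrep1 p).trans ((hjoin p hp).trans ?_)⟩
      exact (q.takeUntil w hw).reachable
    have h4 := card_le_card h3
    omega
  set R := X.image rep with hR
  have hRcard : s * R.card ≤ Fintype.card W := by
    calc s * R.card = ∑ _r ∈ R, s := by rw [sum_const, smul_eq_mul, mul_comm]
      _ ≤ ∑ r ∈ R, (univ.filter fun w => F0.Reachable r w).card := by
          refine sum_le_sum fun r hr => ?_
          obtain ⟨p, hp, rfl⟩ := mem_image.1 hr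
          exact hbig p hp
      _ = (R.biUnion fun r => univ.filter fun w => F0.Reachable r w).card := by
          rw [card_biUnion]
          intro r hr r' hr' hne
          obtain ⟨p, hp, rfl⟩ := mem_image.1 hr
          obtain ⟨p', hp', rfl⟩ := mem_image.1 hr'
          rw [Function.onFun, disjoint_left]
          intro w hw hw'
          exact hne (hrep2 p p' ((mem_filter.1 hw).2.trans (mem_filter.1 hw').2.symm))
      _ ≤ Fintype.card W := by
          rw [← card_univ]
          exact card_le_card (subset_univ _)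
  refine ⟨X, F, hXF, hXcard, R, hRcard, fun w => if Rch a b ω F R w then f w else z,
    ⟨fun w hw => if_neg hw, fun p hp h => ?_⟩, fun p hp => ?_⟩
  · have h2 : Rch a b ω F R (b p (ω p)) := by
      obtain ⟨r, hr, h3⟩ := h
      exact ⟨r, hr, h3.trans (gr_adj hab hp).reachable⟩
    unfold OK
    beta_reduce
    rw [if_pos h, if_pos h2]
    exact hf p (mem_filter.1 hp).1
  · have h1 : Rch a b ω F R (a p (ω p)) := by
      refine ⟨rep p, mem_image_of_mem _ hp, ?_⟩
      rw [hFF]
      exact hrep1 p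
    have h2 : Rch a b ω F R (b p (ω p)) := by
      refine ⟨rep p, mem_image_of_mem _ hp, ?_⟩
      rw [hFF]
      exact (hrep1 p).trans (hjoin p hp)
    unfold OK
    beta_reduce
    rw [if_pos h1, if_pos h2]
    exact hf p (mem_sdiff.1 hp).1

end Pool.Agent.H697.RT
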